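import Pool.Agent.H85AK.Stm2

set_option autoImplicit false

namespace Pool.Agent.H85AK

theorem t_ASY : S_ASY := by
  intro D N hD hN
  have hDr : (1 : ℝ) ≤ D := by exact_mod_cast hD
  have hNr : (1 : ℝ) ≤ N := by exact_mod_cast hN
  have hlD : 0 ≤ Real.log D := Real.log_nonneg hDr
  set c : ℝ := 1 / (2 * (1 + Real.log D)) with hc
  have hc0 : 0 < c := by positivity
  have hc1 : c ≤ 1 / 2 := by
    rw [hc]
    apply one_div_le_one_div_of_le (by norm_num)
    linarith
  have hc2 : c * Real.log D ≤ 1 / 2 := by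
    rw [hc, div_mul_eq_mul_div, one_mul, div_le_div_iff₀ (by positivity) (by norm_num)]
    linarith
  set L : ℝ := Real.log (2 * N) with hL
  have hL0 : 0 ≤ L := Real.log_nonneg (by linarith)
  refine ⟨c, hc0, ⌈Real.exp (1 + 64 * L ^ 2 + 32 * D)⌉₊, ?_⟩
  intro k hk l hl
  have hk1 : Real.exp (1 + 64 * L ^ 2 + 32 * D) ≤ (k : ℝ) := Nat.ceil_le.1 hk
  have hk0 : (0 : ℝ) < k := lt_of_lt_of_le (Real.exp_pos _) hk1
  set x : ℝ := Real.log k with hx
  have hx1 : 1 + 64 * L ^ 2 + 32 * D ≤ x := by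
    rw [hx, Real.le_log_iff_exp_le hk0]
    exact hk1
  have hL2 : 0 ≤ L ^ 2 := sq_nonneg _
  have hx0 : 1 ≤ x := by linarith
  have hx0' : 0 ≤ x := by linarith
  have hlx : 0 ≤ Real.log x := Real.log_nonneg hx0
  have hlx1 : Real.log x ≤ x := by
    have := Real.log_le_sub_one_of_pos (lt_of_lt_of_le one_pos hx0)
    linarith
  set S : ℝ := Real.sqrt x with hS
  have hS0 : 0 < S := Real.sqrt_pos.2 (by linarith)
  have hSx : S ^ 2 = x := Real.sq_sqrt hx0'
  have hS8 : 8 * L ≤ S := by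
    apply Real.le_sqrt_of_sq_le
    have : (8 * L) ^ 2 = 64 * L ^ 2 := by ring
    rw [this]
    linarith
  have hDl : (D : ℝ) ^ l ≤ S := by
    have h1 : (l : ℝ) * Real.log D ≤ Real.log S := by
      have : Real.log S = Real.log x / 2 := by
        rw [hS, Real.log_sqrt hx0']
      rw [this]
      calc (l : ℝ) * Real.log D ≤ (c * Real.log x) * Real.log D :=
            mul_le_mul_of_nonneg_right hl hlD
        _ = (c * Real.log D) * Real.log x := by ring
        _ ≤ (1 / 2) * Real.log x := mul_le_mul_of_nonneg_right hc2 hlx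
        _ = Real.log x / 2 := by ring
    have h2 : (D : ℝ) ^ l = Real.exp ((l : ℝ) * Real.log D) := by
      rw [Real.exp_nat_mul, Real.exp_log (by linarith)]
    rw [h2]
    calc Real.exp ((l : ℝ) * Real.log D) ≤ Real.exp (Real.log S) := Real.exp_le_exp.2 h1
      _ = S := Real.exp_log hS0
  have hfac1 : (2 * (N : ℝ)) ^ (2 * D ^ l) ≤ Real.exp (x / 4) := by
    have h1 : (2 * (N : ℝ)) ^ (2 * D ^ l) = Real.exp (((2 * D ^ l : ℕ) : ℝ) * L) := by
      rw [Real.exp_nat_mul, hL, Real.exp_log (by linarith)]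
    rw [h1]
    apply Real.exp_le_exp.2
    push_cast
    calc 2 * (D : ℝ) ^ l * L ≤ 2 * S * L := by
          apply mul_le_mul_of_nonneg_right _ hL0
          linarith
      _ = S * (8 * L) / 4 := by ring
      _ ≤ S * S / 4 := by
          have := mul_le_mul_of_nonneg_left hS8 hS0.le
          linarith
      _ = x / 4 := by rw [← hSx]; ring
  have hfac2 : 2 * (l : ℝ) * D + 1 ≤ Real.exp (x / 4) := by
    have h1 : (l : ℝ) ≤ (1 / 2) * x := by
      calc (l : ℝ) ≤ c * Real.log x := hl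
        _ ≤ (1 / 2) * Real.log x := mul_le_mul_of_nonneg_right hc1 hlx
        _ ≤ (1 / 2) * x := by linarith
    have h2 : 2 * (l : ℝ) * D + 1 ≤ x * D + 1 := by
      have : 2 * (l : ℝ) * D ≤ 2 * ((1 / 2) * x) * D :=
        mul_le_mul_of_nonneg_right (by linarith) (by linarith)
      linarith
    have h3 := Real.quadratic_le_exp_of_nonneg (by linarith : (0 : ℝ) ≤ x / 4)
    have h4 : x * D ≤ (x / 4) ^ 2 / 2 := by
      have : (x / 4) ^ 2 / 2 = x * (x / 32) := by ring
      rw [this]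
      apply mul_le_mul_of_nonneg_left _ hx0'
      linarith
    linarith
  have hgoal : (k : ℝ) ^ (1 / 2 : ℝ) = Real.exp (x / 4) * Real.exp (x / 4) := by
    rw [← Real.exp_add, Real.rpow_def_of_pos hk0]
    congr 1
    rw [← hx]
    ring
  rw [hgoal]
  push_cast
  apply mul_le_mul hfac1 hfac2 (by positivity) (Real.exp_pos _).le

end Pool.Agent.H85AK
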