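import Mathlib

/-!
# Elementary asymptotics: `log (2 k m / (k m + k)) / log (k m)`
-/

set_option autoImplicit false

namespace Pool.Agent.H85AK

open Filter

/-- the factor `m`: `log (2 m / (m + 1)) > c` -/
theorem exists_m {c : ℝ} (hc : c < Real.log 2) : ∃ m : ℕ, 1 ≤ m ∧
    c < Real.log (2 * (m : ℝ) / (m + 1)) := by
  have h1 : Tendsto (fun m : ℕ => 2 * (m : ℝ) / (m + 1)) atTop (nhds 2) := by
    have h2 : Tendsto (fun m : ℕ => 2 - 2 * (1 / ((m : ℝ) + 1))) atTop (nhds (2 - 2 * 0)) :=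
      tendsto_const_nhds.sub (tendsto_one_div_add_atTop_nhds_zero_nat.const_mul 2)
    rw [mul_zero, sub_zero] at h2
    refine h2.congr fun m => ?_
    have : (m : ℝ) + 1 ≠ 0 := by positivity
    field_simp
    ring
  have h3 : Tendsto (fun m : ℕ => Real.log (2 * (m : ℝ) / (m + 1))) atTop (nhds (Real.log 2)) :=
    (Real.continuousAt_log (by norm_num)).tendsto.comp h1
  obtain ⟨m, hm, hm1⟩ := ((h3.eventually (lt_mem_nhds hc)).and (eventually_ge_atTop 1)).exists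
  exact ⟨m, hm1, hm⟩

theorem ratio_eq {k m : ℕ} (hk : 1 ≤ k) (_hm : 1 ≤ m) :
    2 * ((k * m : ℕ) : ℝ) / ((k * m : ℕ) + k) = 2 * (m : ℝ) / (m + 1) := by
  have h1 : (0 : ℝ) < k := by exact_mod_cast hk
  have h2 : (0 : ℝ) < (m : ℝ) + 1 := by positivity
  push_cast
  rw [div_eq_div_iff (by positivity) (by positivity)]
  ring

/-- for all large `k`, `log (2 m / (m + 1)) / log (k m) ≥ c / log k` -/
theorem exists_k {c : ℝ} (hc : c < Real.log 2) : ∃ k₀ : ℕ, 2 ≤ k₀ ∧ ∀ k : ℕ, k₀ ≤ k →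
    ∃ M : ℕ, k ≤ M ∧ 2 ≤ M ∧ c / Real.log k < Real.log (2 * M / (M + k)) / Real.log M := by
  obtain ⟨m, hm, hcm⟩ := exists_m hc
  set L := Real.log (2 * (m : ℝ) / (m + 1)) with hL
  have h1 : Tendsto (fun k : ℕ => Real.log k) atTop atTop :=
    Real.tendsto_log_atTop.comp tendsto_natCast_atTop_atTop
  obtain ⟨k₀, hk₀⟩ := eventually_atTop.1
    ((h1.eventually_gt_atTop (c * Real.log m / (L - c))).and (h1.eventually_gt_atTop 0))
  refine ⟨max k₀ 2, le_max_right _ _, fun k hk => ⟨k * m, Nat.le_mul_of_pos_right k hm, ?_, ?_⟩⟩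
  · exact ((le_max_right _ _).trans hk).trans (Nat.le_mul_of_pos_right k hm)
  · have hk2 : 2 ≤ k := (le_max_right _ _).trans hk
    obtain ⟨h2, h3⟩ := hk₀ k ((le_max_left _ _).trans hk)
    rw [ratio_eq (by omega) hm, ← hL]
    have hk0 : (0 : ℝ) < k := by exact_mod_cast (by omega : 0 < k)
    have hm0 : (0 : ℝ) < m := by exact_mod_cast hm
    have hlm : 0 ≤ Real.log m := Real.log_nonneg (by exact_mod_cast hm)
    rw [Nat.cast_mul, Real.log_mul hk0.ne' hm0.ne', div_lt_div_iff₀ h3 (by linarith)]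
    have hLc : 0 < L - c := by linarith
    rw [div_lt_iff₀ hLc] at h2
    nlinarith

end Pool.Agent.H85AK
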