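import Pool.Agent.H85AK.Stm3

/-!
# Patterns with many places, part 3: piece CHB (Chebyshev lower bound at powers)
-/

set_option autoImplicit false

namespace Pool.Agent.H85AK

open Filter Asymptotics

theorem t_CHB : S_CHB := by
  intro C hC
  have hl2 : 0 < Real.log 2 := Real.log_pos (by norm_num)
  have hCr : (0 : ℝ) < C := by exact_mod_cast hC
  set ε : ℝ := Real.log 2 / (4 * C) with hε
  have hεpos : 0 < ε := by positivity
  have h1 : ∀ᶠ x : ℝ in atTop, ‖Real.log x‖ ≤ ε * ‖id x‖ :=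
    Real.isLittleO_log_id_atTop.bound hεpos
  have h2 : ∀ᶠ u : ℕ in atTop, ‖Real.log (u : ℝ)‖ ≤ ε * ‖id (u : ℝ)‖ :=
    tendsto_natCast_atTop_atTop.eventually h1
  obtain ⟨u₁, hu₁⟩ := eventually_atTop.1 h2
  refine ⟨max u₁ 4, fun u hu => ?_⟩
  have hu1 : u₁ ≤ u := le_trans (le_max_left _ _) hu
  have hu4 : 4 ≤ u := le_trans (le_max_right _ _) hu
  have hur : (4 : ℝ) ≤ (u : ℝ) := by exact_mod_cast hu4
  have hupos : (0 : ℝ) < (u : ℝ) := by linarith
  have hlogpos : 0 < Real.log (u : ℝ) := Real.log_pos (by linarith)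
  have hb := hu₁ u hu1
  have hb' : Real.log (u : ℝ) ≤ ε * (u : ℝ) := by
    have h3 : ‖Real.log (u : ℝ)‖ = Real.log (u : ℝ) := by
      rw [Real.norm_eq_abs, abs_of_pos hlogpos]
    have h4 : ‖id (u : ℝ)‖ = (u : ℝ) := by
      rw [id, Real.norm_eq_abs, abs_of_pos hupos]
    rw [h3, h4] at hb
    exact hb
  have hClog : (C : ℝ) * Real.log (u : ℝ) ≤ (u : ℝ) * (Real.log 2 / 4) := by
    calc (C : ℝ) * Real.log (u : ℝ) ≤ (C : ℝ) * (ε * (u : ℝ)) :=
          mul_le_mul_of_nonneg_left hb' hCr.le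
      _ = (u : ℝ) * (Real.log 2 / 4) := by
          rw [hε]; field_simp
  have hpow : (u : ℝ) ^ C = (u : ℝ) ^ (C - 1) * (u : ℝ) := by
    rw [← pow_succ, Nat.sub_add_cancel hC]
  have hpow1 : (1 : ℝ) ≤ (u : ℝ) ^ (C - 1) := one_le_pow₀ (by linarith)
  have hpowu : (u : ℝ) ≤ (u : ℝ) ^ C := by
    rw [hpow]; nlinarith
  have hpow1' : (1 : ℝ) ≤ (u : ℝ) ^ C := by linarith
  have hlogn : Real.log (((u ^ C : ℕ) : ℝ)) = (C : ℝ) * Real.log (u : ℝ) := by
    push_cast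
    rw [Real.log_pow]
  have hlogn1 : Real.log (((u ^ C : ℕ) : ℝ) + 1) ≤ Real.log 2 + (C : ℝ) * Real.log (u : ℝ) := by
    rw [← hlogn, ← Real.log_mul (by norm_num) (by push_cast; positivity)]
    apply Real.log_le_log (by positivity)
    push_cast
    linarith
  have hge := Chebyshev.pi_ge (u ^ C)
  have hmain : (u : ℝ) ^ (C - 1) ≤
      (((u ^ C : ℕ) : ℝ) * Real.log 2 - Real.log (((u ^ C : ℕ) : ℝ) + 1)) /
        Real.log (((u ^ C : ℕ) : ℝ)) := by
    rw [hlogn, le_div_iff₀ (by positivity)]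
    have e1 : (u : ℝ) ^ (C - 1) * ((C : ℝ) * Real.log (u : ℝ)) ≤
        (u : ℝ) ^ C * (Real.log 2 / 4) := by
      calc (u : ℝ) ^ (C - 1) * ((C : ℝ) * Real.log (u : ℝ))
          ≤ (u : ℝ) ^ (C - 1) * ((u : ℝ) * (Real.log 2 / 4)) :=
            mul_le_mul_of_nonneg_left hClog (by positivity)
        _ = (u : ℝ) ^ C * (Real.log 2 / 4) := by rw [hpow]; ring
    have e2 : Real.log 2 ≤ (u : ℝ) ^ C * (Real.log 2 / 4) := by
      have : (4 : ℝ) ≤ (u : ℝ) ^ C := by linarith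
      nlinarith
    have e3 : (C : ℝ) * Real.log (u : ℝ) ≤ (u : ℝ) ^ C * (Real.log 2 / 4) := by
      refine hClog.trans ?_
      exact mul_le_mul_of_nonneg_right hpowu (by positivity)
    have e4 : ((u ^ C : ℕ) : ℝ) = (u : ℝ) ^ C := by push_cast; rfl
    have e5 : 0 < (u : ℝ) ^ C * Real.log 2 := by positivity
    rw [e4] at hlogn1 ⊢
    linarith
  have hfin : ((u ^ (C - 1) : ℕ) : ℝ) ≤ ((Nat.primeCounting (u ^ C) : ℕ) : ℝ) := by
    push_cast
    exact hmain.trans hge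
  exact_mod_cast hfin

end Pool.Agent.H85AK
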