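import Pool.Agent.H85AK.Stm3

/-!
# Piece CHO (helper73): choice of `u`
-/

set_option autoImplicit false

namespace Pool.Agent.H85AK

namespace CHO

theorem p16 (n : ℕ) : 9 * 9 ^ (n + 4) ≤ 16 ^ (n + 4) := by
  induction n with
  | zero => norm_num
  | succ n ih =>
    have h1 : 9 * 9 ^ (n + 1 + 4) = 9 * (9 * 9 ^ (n + 4)) := by ring
    have h2 : 16 ^ (n + 1 + 4) = 16 * 16 ^ (n + 4) := by ring
    rw [h1, h2]
    have h3 : 0 < 16 ^ (n + 4) := by positivity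
    omega

theorem expo (u : ℕ) (hu : 16 ≤ u) : Real.exp (2 * ((u : ℝ) + 1)) ≤ (u : ℝ) ^ u := by
  have h1 : Real.exp (2 * ((u : ℝ) + 1)) = Real.exp 1 ^ (2 * (u + 1)) := by
    rw [← Real.exp_nat_mul]
    push_cast
    ring_nf
  have h2 : Real.exp 1 ≤ 3 := Real.exp_one_lt_d9.le.trans (by norm_num)
  obtain ⟨n, rfl⟩ := Nat.exists_eq_add_of_le (show 4 ≤ u by omega)
  have h3 : (9 * 9 ^ (4 + n) : ℝ) ≤ 16 ^ (4 + n) := by
    have := p16 n
    rw [add_comm n 4] at this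
    exact_mod_cast this
  calc Real.exp (2 * (((4 + n : ℕ) : ℝ) + 1)) = Real.exp 1 ^ (2 * (4 + n + 1)) := h1
    _ ≤ 3 ^ (2 * (4 + n + 1)) := pow_le_pow_left₀ (Real.exp_pos 1).le h2 _
    _ = 9 * 9 ^ (4 + n) := by
      rw [pow_mul]
      norm_num
      ring
    _ ≤ 16 ^ (4 + n) := h3
    _ ≤ ((4 + n : ℕ) : ℝ) ^ (4 + n) := pow_le_pow_left₀ (by norm_num) (by exact_mod_cast hu) _

end CHO

open CHO in
theorem t_CHO : S_CHO := by
  intro c hc
  have hc0 : (0 : ℝ) < c := by exact_mod_cast hc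
  refine ⟨1 / (2 * (c : ℝ)), by positivity, fun u₀ =>
    ⟨4 ^ ((max u₀ 16) ^ (2 * c)) + 1, fun k hk => ?_⟩⟩
  classical
  have hlt : ∀ u : ℕ, u < 4 ^ (u ^ (2 * c)) := fun u =>
    (Nat.lt_pow_self (by norm_num : 1 < 4)).trans_le
      (Nat.pow_le_pow_right (by norm_num) (Nat.le_self_pow (by omega) u))
  have hP : 4 ^ ((max u₀ 16) ^ (2 * c)) < k := by omega
  have hle : max u₀ 16 ≤ k := ((hlt _).trans hP).le
  obtain ⟨u, hu⟩ : ∃ u, u = Nat.findGreatest (fun u => 4 ^ (u ^ (2 * c)) < k) k := ⟨_, rfl⟩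
  have h1 : 4 ^ (u ^ (2 * c)) < k := by
    rw [hu]
    exact Nat.findGreatest_spec (P := fun u => 4 ^ (u ^ (2 * c)) < k) hle hP
  have h2 : max u₀ 16 ≤ u := by
    rw [hu]
    exact Nat.le_findGreatest hle hP
  have h3 : k ≤ 4 ^ ((u + 1) ^ (2 * c)) := by
    by_contra h
    have h4 : 4 ^ ((u + 1) ^ (2 * c)) < k := not_le.1 h
    have h5 : u + 1 ≤ k := ((hlt _).trans h4).le
    have h6 : u + 1 ≤ Nat.findGreatest (fun u => 4 ^ (u ^ (2 * c)) < k) k :=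
      Nat.le_findGreatest h5 h4
    omega
  have hk0 : 0 < k := by omega
  refine ⟨u, by omega, h1, ?_⟩
  have hlog : Real.log k ≤ (2 * ((u : ℝ) + 1)) ^ (2 * c) := by
    have h4 : Real.log k ≤ Real.log ((4 : ℝ) ^ ((u + 1) ^ (2 * c))) :=
      Real.log_le_log (by exact_mod_cast hk0) (by exact_mod_cast h3)
    rw [Real.log_pow] at h4
    have h5 : Real.log 4 ≤ 2 := by
      have e : (4 : ℝ) = 2 ^ 2 := by norm_num
      rw [e, Real.log_pow]
      have := Real.log_two_lt_d9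
      push_cast
      linarith
    have h6 : (2 : ℝ) ≤ 2 ^ (2 * c) := by
      calc (2 : ℝ) = 2 ^ 1 := by norm_num
        _ ≤ 2 ^ (2 * c) := pow_le_pow_right₀ (by norm_num) (by omega)
    have h7 : (0 : ℝ) ≤ ((u : ℝ) + 1) ^ (2 * c) := by positivity
    calc Real.log k ≤ (((u + 1) ^ (2 * c) : ℕ) : ℝ) * Real.log 4 := h4
      _ = ((u : ℝ) + 1) ^ (2 * c) * Real.log 4 := by push_cast; rfl
      _ ≤ ((u : ℝ) + 1) ^ (2 * c) * 2 := mul_le_mul_of_nonneg_left h5 h7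
      _ ≤ ((u : ℝ) + 1) ^ (2 * c) * 2 ^ (2 * c) := mul_le_mul_of_nonneg_left h6 h7
      _ = (2 * ((u : ℝ) + 1)) ^ (2 * c) := by rw [mul_pow, mul_comm]
  have h6 : (Real.log k) ^ (1 / (2 * (c : ℝ))) ≤ 2 * ((u : ℝ) + 1) := by
    calc (Real.log k) ^ (1 / (2 * (c : ℝ)))
        ≤ ((2 * ((u : ℝ) + 1)) ^ (2 * c)) ^ (1 / (2 * (c : ℝ))) :=
          Real.rpow_le_rpow (Real.log_natCast_nonneg k) hlog (by positivity)
      _ = 2 * ((u : ℝ) + 1) := by
        have e : (1 / (2 * (c : ℝ))) = (((2 * c : ℕ)) : ℝ)⁻¹ := by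
          push_cast
          rw [one_div]
        rw [e]
        exact Real.pow_rpow_inv_natCast (by positivity) (by omega)
  exact (Real.exp_le_exp.2 h6).trans (expo u (by omega))

end Pool.Agent.H85AK
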