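import Pool.Agent.H85AK.Stm4

/-!
# AKP part 4, piece CHT: choice of `h` (helper4)
-/

set_option autoImplicit false

namespace Pool.Agent.H85AK

theorem t_CHT : S_CHT := by
  intro q hq
  have hq0 : (1 : ℝ) ≤ q := by exact_mod_cast hq
  have hev : ∀ᶠ x : ℝ in Filter.atTop, 16 ≤ x ∧ 24 * q * Real.log x ≤ x := by
    have hb := Real.isLittleO_log_id_atTop.bound (show (0 : ℝ) < 1 / (24 * q) by positivity)
    filter_upwards [hb, Filter.eventually_ge_atTop (16 : ℝ)] with x hx h16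
    refine ⟨h16, ?_⟩
    have hx0 : 0 < x := by linarith
    simp only [id, Real.norm_eq_abs, abs_of_pos hx0] at hx
    have h3 := (le_abs_self (Real.log x)).trans hx
    calc 24 * q * Real.log x ≤ 24 * q * (1 / (24 * q) * x) :=
          mul_le_mul_of_nonneg_left h3 (by positivity)
      _ = x := by field_simp
  have hk := (Real.tendsto_log_atTop.comp
    (tendsto_natCast_atTop_atTop (R := ℝ))).eventually hev
  obtain ⟨k₀, hk₀⟩ := Filter.eventually_atTop.1 hk
  refine ⟨1 / (4 * √(6 * q)), by positivity, max k₀ 1, fun k hk => ?_⟩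
  obtain ⟨hL, hl⟩ := hk₀ k ((le_max_left _ _).trans hk)
  simp only [Function.comp] at hL hl
  have hk0 : (0 : ℝ) < k := by
    have : 1 ≤ k := (le_max_right _ _).trans hk
    exact_mod_cast this
  generalize hLd : Real.log (k : ℝ) = L at *
  have hL0 : 0 < L := by linarith
  have hℓ : 1 ≤ Real.log L := by
    rw [Real.le_log_iff_exp_le hL0]
    have := Real.exp_one_lt_d9
    linarith
  generalize hld : Real.log L = ℓ at *
  have hℓ0 : 0 < ℓ := by linarith
  have hden : 0 < 6 * q * ℓ := by positivity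
  have hden1 : 1 ≤ 6 * q * ℓ := by nlinarith
  have hs2 : 2 ≤ √(L / (6 * q * ℓ)) := by
    rw [Real.le_sqrt' (by norm_num), le_div_iff₀ hden]
    linarith
  have hsL : √(L / (6 * q * ℓ)) ≤ √L := Real.sqrt_le_sqrt (div_le_self hL0.le hden1)
  have hss : √(L / (6 * q * ℓ)) ^ 2 = L / (6 * q * ℓ) := Real.sq_sqrt (by positivity)
  have hsq : √(L / ℓ) = √(6 * q) * √(L / (6 * q * ℓ)) := by
    rw [← Real.sqrt_mul (by positivity)]
    congr 1
    field_simp
  generalize √(L / (6 * q * ℓ)) = s at *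
  have hs0 : 0 ≤ s := by linarith
  have hfl : (⌊s⌋₊ : ℝ) ≤ s := Nat.floor_le hs0
  have hfl2 : s < (⌊s⌋₊ : ℝ) + 1 := Nat.lt_floor_add_one s
  refine ⟨⌊s⌋₊, Nat.le_floor (by push_cast; linarith), ?_, ?_⟩
  · generalize hh : ⌊s⌋₊ = h at *
    have hh0 : (0 : ℝ) ≤ h := Nat.cast_nonneg h
    rw [← Nat.cast_lt (α := ℝ)]
    push_cast
    have hpos : (0 : ℝ) < 2 * h + 2 := by positivity
    rw [← Real.log_lt_log_iff (by positivity) hk0, Real.log_pow, hLd]
    push_cast
    have h4 : 4 ≤ √L := by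
      rw [Real.le_sqrt' (by norm_num)]
      linarith
    have h5 : √L * √L = L := Real.mul_self_sqrt hL0.le
    have h6 : 2 * (h : ℝ) + 2 < L := by nlinarith
    have h7 : Real.log (2 * h + 2) < ℓ := by
      rw [← hld]
      exact Real.log_lt_log hpos h6
    have h8 : 6 * q * (h : ℝ) ^ 2 ≤ L / ℓ := by
      rw [le_div_iff₀ hℓ0]
      have h9 : (h : ℝ) ^ 2 ≤ s ^ 2 := pow_le_pow_left₀ hh0 hfl 2
      have h10 : s ^ 2 * (6 * q * ℓ) = L := by
        rw [hss]
        field_simp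
      calc 6 * q * (h : ℝ) ^ 2 * ℓ = (h : ℝ) ^ 2 * (6 * q * ℓ) := by ring
        _ ≤ s ^ 2 * (6 * q * ℓ) := mul_le_mul_of_nonneg_right h9 hden.le
        _ = L := h10
    have h11 : 0 ≤ Real.log (2 * (h : ℝ) + 2) := Real.log_nonneg (by linarith)
    calc 6 * q * (h : ℝ) ^ 2 * Real.log (2 * h + 2) ≤ L / ℓ * Real.log (2 * h + 2) :=
          mul_le_mul_of_nonneg_right h8 h11
      _ < L / ℓ * ℓ := mul_lt_mul_of_pos_left h7 (by positivity)
      _ = L := by field_simp
  · have hlog2 : 1 / 2 ≤ Real.log 2 := by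
      have := Real.log_two_gt_d9
      linarith
    have h12 : (2 : ℝ) ^ ⌊s⌋₊ = Real.exp ((⌊s⌋₊ : ℝ) * Real.log 2) := by
      rw [mul_comm, ← Real.rpow_def_of_pos (by norm_num), Real.rpow_natCast]
    rw [h12]
    refine Real.exp_le_exp.2 ?_
    have h13 : 1 / (4 * √(6 * q)) * √(L / ℓ) = s / 4 := by
      rw [hsq]
      have : 0 < √(6 * (q : ℝ)) := by positivity
      field_simp
    rw [h13]
    have h14 : s / 2 ≤ (⌊s⌋₊ : ℝ) := by linarith
    nlinarith

end Pool.Agent.H85AK
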