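import Mathlib

/-!
# Patterns with many places, part 4: conjugate products

`J_I = ∏_{j ∈ I} (θ + j + 1)^2 ∏_{j ∈ range h, j ∉ I} (θ - j - 1)^2`, `I ⊆ {0, ..., h-1}`: `2^h` places
below `k` with `h` about `(log k / log log k)^(1/2)`. Pieces: CIR, DIS, CHT.
-/

set_option autoImplicit false

namespace Pool.Agent.H85AK

open Polynomial

/-- **CIR** (finite construction). Proof: `R` = the numbers `r = ∑_{j < 2T} g_j θ^j` with
`0 ≤ g_j < N` (different because `N ≤ θ`: `N^(2T)` of them). For such an `r` put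
`a = - J₀ ∑_j g_j (-θ)^j`. Let `G = ∑ g_j X^j` and `P = Z_i G`, a polynomial over `ℕ` of degree
`< 2T + h` with coefficients at most `(N - 1) H` (as `∑ coefficients of Z_i = Z_i(1) ≤ H`). Then
`a + J_i r = e_i (Z_i(θ) G(θ) - Z_i(-θ) G(-θ)) = e_i (P(θ) - P(-θ)) = e_i ∑_{l odd} 2 P_l θ^l`, and there
are at most `T + h` odd `l < 2T + h`, and `(N - 1) H < N H`. So `E_i` = the image of
`Fintype.piFinset (fun _ : Fin (T + h) => Finset.range (N * H))` under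
`c ↦ e_i * ∑_{l < T + h} 2 c_l θ^(2l+1)`. -/
def S_CIR : Prop := ∀ (m h H N T θ : ℕ) (Z : Fin m → ℕ[X]) (J e : Fin m → ℤ) (J₀ : ℤ),
  1 ≤ N → 1 ≤ H → N ≤ θ → (∀ i, (Z i).natDegree ≤ h) → (∀ i, (Z i).eval 1 ≤ H) →
  (∀ i, e i * (Z i).eval₂ (Nat.castRingHom ℤ) (-(θ : ℤ)) = J₀) →
  (∀ i, e i * (Z i).eval₂ (Nat.castRingHom ℤ) (θ : ℤ) = J i) →
  ∃ (R : Finset ℤ) (E : Fin m → Finset ℤ), R.card = N ^ (2 * T) ∧
    (∀ i, (E i).card ≤ (N * H) ^ (T + h)) ∧ ∀ r ∈ R, ∃ a : ℤ, ∀ i, a + J i * r ∈ E i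

/-- **DIS** (distinct products). Proof: the products are squares, so `S_I = S_I'` for
`S_I = ∏_{j ∈ I} (θ + j + 1) ∏_{j ∉ I} (θ - j - 1)`. Suppose `j ∈ I`, `j ∉ I'` (or the other way round).
Then `n = θ + j + 1` divides `S_I'`, none of whose `h` factors `f` is `n`, and `|n - f| ≤ 2h`, so
`gcd(n, f) ≤ 2h` (`gcd(n, f)` divides `|n - f| ≠ 0`). As `n` divides the product of the `gcd(n, f)`
(`Nat.gcd_mul_dvd_mul_gcd`, induction), `θ < n ≤ (2h)^h ≤ (2h+2)^h`, a contradiction. -/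
def S_DIS : Prop := ∀ (h θ : ℕ), (2 * h + 2) ^ h ≤ θ → h < θ → ∀ I I' : Finset ℕ,
  I ⊆ Finset.range h → I' ⊆ Finset.range h →
  (∏ j ∈ I, (θ + j + 1) ^ 2) * ∏ j ∈ Finset.range h \ I, (θ - (j + 1)) ^ 2 =
    (∏ j ∈ I', (θ + j + 1) ^ 2) * ∏ j ∈ Finset.range h \ I', (θ - (j + 1)) ^ 2 → I = I'

/-- **CHT** (choice of `h`). Proof: `h = ⌊(log k / (6 q log log k))^(1/2)⌋`; then
`6 q h^2 log (2h+2) ≤ (log k / log log k) log (2h+2) < log k` because `2h + 2 < log k` for large `k`, and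
`2^h ≥ exp (h/2) ≥ exp (c (log k / log log k)^(1/2))` with `c = 1 / (4 (6 q)^(1/2))` because
`h ≥ (log k / (6 q log log k))^(1/2) - 1 ≥ (1/2) (log k / (6 q log log k))^(1/2)` for large `k`. -/
def S_CHT : Prop := ∀ q : ℕ, 1 ≤ q → ∃ c : ℝ, 0 < c ∧ ∃ k₀ : ℕ, ∀ k : ℕ, k₀ ≤ k → ∃ h : ℕ, 1 ≤ h ∧
  (2 * h + 2) ^ (6 * q * h ^ 2) < k ∧
    Real.exp (c * √(Real.log k / Real.log (Real.log k))) ≤ 2 ^ h

end Pool.Agent.H85AK
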