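import Mathlib
import Pool.Agent.H85AK.Stm4

/-!
# CIR: digits and the odd part of a product of polynomials over the natural numbers
-/

set_option autoImplicit false

namespace Pool.Agent.H85AK

open Polynomial

namespace CIR

theorem odd_part (c : ℕ → ℤ) (θ : ℤ) (n : ℕ) :
    ∑ l ∈ Finset.range (2 * n + 1), c l * (θ ^ l - (-θ) ^ l) =
      ∑ l ∈ Finset.range n, 2 * c (2 * l + 1) * θ ^ (2 * l + 1) := by
  induction n with
  | zero => simp
  | succ n ih =>
    have h1 : 2 * (n + 1) + 1 = 2 * n + 1 + 1 + 1 := by ring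
    rw [h1, Finset.sum_range_succ, Finset.sum_range_succ, ih, Finset.sum_range_succ]
    have h2 : (-θ) ^ (2 * n + 1) = -θ ^ (2 * n + 1) := Odd.neg_pow ⟨n, rfl⟩ θ
    have h3 : (-θ) ^ (2 * n + 1 + 1) = θ ^ (2 * n + 1 + 1) := Even.neg_pow ⟨n + 1, by ring⟩ θ
    rw [h2, h3]
    ring

theorem val_inj {N θ k : ℕ} (hθ : N ≤ θ) :
    Function.Injective (fun f : Fin k → Fin N => ∑ j, ((f j : ℕ) : ℤ) * (θ : ℤ) ^ (j : ℕ)) := by
  intro f g hfg
  have h1 : finFunctionFinEquiv (fun j => Fin.castLE hθ (f j)) =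
      finFunctionFinEquiv (fun j => Fin.castLE hθ (g j)) := by
    apply Fin.ext
    rw [finFunctionFinEquiv_apply, finFunctionFinEquiv_apply]
    have h2 : ((∑ j, (f j : ℕ) * θ ^ (j : ℕ) : ℕ) : ℤ) = ((∑ j, (g j : ℕ) * θ ^ (j : ℕ) : ℕ) : ℤ) := by
      push_cast
      exact hfg
    exact_mod_cast h2
  have h3 := finFunctionFinEquiv.injective h1
  funext j
  exact Fin.castLE_injective hθ (congrFun h3 j)

/-- the polynomial with the coefficients `f j` -/
noncomputable def pol {N k : ℕ} (f : Fin k → Fin N) : ℕ[X] := ∑ j : Fin k, Polynomial.monomial (j : ℕ) ((f j : ℕ))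

theorem pol_coeff {N k : ℕ} (f : Fin k → Fin N) (b : ℕ) :
    (pol f).coeff b = if hb : b < k then ((f ⟨b, hb⟩ : Fin N) : ℕ) else 0 := by
  classical
  unfold pol
  rw [Polynomial.finsetSum_coeff]
  simp only [Polynomial.coeff_monomial]
  split_ifs with hb
  · rw [Finset.sum_eq_single (⟨b, hb⟩ : Fin k)]
    · simp
    · intro j _ hj
      rw [if_neg]
      intro h
      exact hj (Fin.ext h)
    · intro h
      exact absurd (Finset.mem_univ _) h
  · refine Finset.sum_eq_zero fun j _ => ?_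
    rw [if_neg]
    intro h
    exact hb (h ▸ j.2)

theorem pol_eval {N k : ℕ} (f : Fin k → Fin N) (x : ℤ) :
    (pol f).eval₂ (Nat.castRingHom ℤ) x = ∑ j, ((f j : ℕ) : ℤ) * x ^ (j : ℕ) := by
  unfold pol
  rw [Polynomial.eval₂_finsetSum]
  refine Finset.sum_congr rfl fun j _ => ?_
  rw [Polynomial.eval₂_monomial]
  rfl

theorem coeff_lt {N H k : ℕ} (hN : 1 ≤ N) (hH : 1 ≤ H) (f : Fin k → Fin N) (Z : ℕ[X]) (hZ : Z.eval 1 ≤ H)
    (l : ℕ) : (Z * pol f).coeff l < N * H := by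
  have h1 : ∀ b, (pol f).coeff b ≤ N - 1 := by
    intro b
    rw [pol_coeff]
    split_ifs with hb
    · have := (f ⟨b, hb⟩).2
      omega
    · omega
  have h2 : ∑ a ∈ Finset.range (l + 1), Z.coeff a ≤ Z.eval 1 := by
    rw [Polynomial.eval_eq_sum_range' (n := l + 1 + (Z.natDegree + 1)) (by omega) 1]
    simp only [one_pow, mul_one]
    exact Finset.sum_le_sum_of_subset (Finset.range_subset_range.2 (by omega))
  calc (Z * pol f).coeff l = ∑ a ∈ Finset.range (l + 1), Z.coeff a * (pol f).coeff (l - a) := by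
        rw [Polynomial.coeff_mul, Finset.Nat.sum_antidiagonal_eq_sum_range_succ_mk]
    _ ≤ ∑ a ∈ Finset.range (l + 1), Z.coeff a * (N - 1) :=
        Finset.sum_le_sum fun a _ => Nat.mul_le_mul_left _ (h1 _)
    _ = (∑ a ∈ Finset.range (l + 1), Z.coeff a) * (N - 1) := by rw [Finset.sum_mul]
    _ ≤ H * (N - 1) := Nat.mul_le_mul_right _ (h2.trans hZ)
    _ < H * N := Nat.mul_lt_mul_of_pos_left (by omega) (by omega)
    _ = N * H := Nat.mul_comm _ _

theorem deg_lt {N k h : ℕ} (f : Fin k → Fin N) (Z : ℕ[X]) (hZ : Z.natDegree ≤ h) :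
    (Z * pol f).natDegree ≤ h + k := by
  refine Polynomial.natDegree_mul_le.trans (Nat.add_le_add hZ ?_)
  rw [Polynomial.natDegree_le_iff_coeff_eq_zero]
  intro b hb
  rw [pol_coeff, dif_neg (by omega)]

theorem odd_eval {n : ℕ} (P : ℕ[X]) (hP : P.natDegree ≤ 2 * n) (θ : ℤ) :
    P.eval₂ (Nat.castRingHom ℤ) θ - P.eval₂ (Nat.castRingHom ℤ) (-θ) =
      ∑ l : Fin n, 2 * ((P.coeff (2 * (l : ℕ) + 1) : ℕ) : ℤ) * θ ^ (2 * (l : ℕ) + 1) := by
  rw [Polynomial.eval₂_eq_sum_range' (Nat.castRingHom ℤ) (n := 2 * n + 1) (by omega) θ,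
    Polynomial.eval₂_eq_sum_range' (Nat.castRingHom ℤ) (n := 2 * n + 1) (by omega) (-θ),
    ← Finset.sum_sub_distrib,
    Fin.sum_univ_eq_sum_range (fun l => 2 * ((P.coeff (2 * l + 1) : ℕ) : ℤ) * θ ^ (2 * l + 1)) n,
    ← odd_part (fun l => ((P.coeff l : ℕ) : ℤ)) θ n]
  refine Finset.sum_congr rfl fun l _ => ?_
  rw [mul_sub]
  rfl

end CIR

theorem t_CIR : S_CIR := by
  intro m h H N T θ Z J e J₀ hN hH hθ hdeg hev hJ0 hJ
  classical
  refine ⟨Finset.univ.image (fun f : Fin (2 * T) → Fin N => ∑ j, ((f j : ℕ) : ℤ) * (θ : ℤ) ^ (j : ℕ)),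
    fun i => (Fintype.piFinset (fun _ : Fin (T + h) => Finset.range (N * H))).image
      (fun c => e i * ∑ l : Fin (T + h), 2 * ((c l : ℕ) : ℤ) * (θ : ℤ) ^ (2 * (l : ℕ) + 1)), ?_, ?_, ?_⟩
  · rw [Finset.card_image_of_injective _ (CIR.val_inj hθ), Finset.card_univ, Fintype.card_fun,
      Fintype.card_fin, Fintype.card_fin]
  · intro i
    refine Finset.card_image_le.trans (le_of_eq ?_)
    rw [Fintype.card_piFinset, Finset.prod_const, Finset.card_range, Finset.card_univ, Fintype.card_fin]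
  · intro r hr
    obtain ⟨f, -, rfl⟩ := Finset.mem_image.1 hr
    refine ⟨-(J₀ * (CIR.pol f).eval₂ (Nat.castRingHom ℤ) (-(θ : ℤ))), fun i => ?_⟩
    rw [Finset.mem_image]
    refine ⟨fun l => (Z i * CIR.pol f).coeff (2 * (l : ℕ) + 1), ?_, ?_⟩
    · rw [Fintype.mem_piFinset]
      intro l
      rw [Finset.mem_range]
      exact CIR.coeff_lt hN hH f (Z i) (hev i) _
    · have h1 := CIR.deg_lt f (Z i) (hdeg i)
      rw [← CIR.odd_eval (n := T + h) (Z i * CIR.pol f) (by omega) (θ : ℤ), Polynomial.eval₂_mul,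
        Polynomial.eval₂_mul, mul_sub, ← mul_assoc, ← mul_assoc, hJ0 i, hJ i, CIR.pol_eval f (θ : ℤ)]
      ring

end Pool.Agent.H85AK
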