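import Pool.Agent.H85AK.Stm3

/-!
# Patterns with many places, part 3, piece CNT (helper55)
-/

set_option autoImplicit false

namespace Pool.Agent.H85AK

theorem t_CNT : S_CNT := by
  classical
  intro c u hc hu hpi
  obtain ⟨y, hy⟩ : ∃ y, y = u ^ (2 * c) := ⟨_, rfl⟩
  obtain ⟨Q, hQ⟩ : ∃ Q, Q = (Finset.range (y + 1)).filter Nat.Prime := ⟨_, rfl⟩
  have hQp : ∀ p ∈ Q, p.Prime := by
    intro p hp
    rw [hQ, Finset.mem_filter] at hp
    exact hp.2
  have hQy : ∀ p ∈ Q, p ≤ y := by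
    intro p hp
    rw [hQ, Finset.mem_filter, Finset.mem_range] at hp
    omega
  have hQc : Q.card = Nat.primeCounting y := by
    rw [hQ]
    unfold Nat.primeCounting Nat.primeCounting'
    rw [Nat.count_eq_card_filter_range]
  have hu0 : 0 < u := by omega
  obtain ⟨P, hP⟩ : ∃ P, P = Q.card := ⟨_, rfl⟩
  have hP1 : u ^ (2 * c - 1) ≤ P := by rw [hP, hQc, hy]; exact hpi
  -- the products
  obtain ⟨D, hD⟩ : ∃ D, D = (Finset.powersetCard u Q).image (fun s => ∏ p ∈ s, p) := ⟨_, rfl⟩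
  have hDc : D.card = P.choose u := by
    rw [hD, Finset.card_image_of_injOn, Finset.card_powersetCard, hP]
    intro s hs t ht hst
    rw [Finset.mem_coe, Finset.mem_powersetCard] at hs ht
    have h1 := Nat.primeFactors_prod (fun p hp => hQp p (hs.1 hp))
    have h2 := Nat.primeFactors_prod (fun p hp => hQp p (ht.1 hp))
    rw [← h1, ← h2]
    exact congrArg Nat.primeFactors hst
  have hD1 : ∀ d ∈ D, 1 ≤ d ∧ d ≤ y ^ u ∧ d ∣ primorial y := by
    intro d hd
    rw [hD, Finset.mem_image] at hd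
    obtain ⟨s, hs, rfl⟩ := hd
    rw [Finset.mem_powersetCard] at hs
    refine ⟨Finset.prod_pos fun p hp => (hQp p (hs.1 hp)).pos, ?_, ?_⟩
    · have h1 := Finset.prod_le_pow_card s (fun p => p) y fun p hp => hQy p (hs.1 hp)
      rw [hs.2] at h1
      exact h1
    · unfold primorial
      rw [← hQ]
      exact Finset.prod_dvd_prod_of_subset _ _ _ hs.1
  -- their number
  have hpow : ∀ a b : ℕ, a ≤ b → u ^ a ≤ u ^ b := fun a b h => Nat.pow_le_pow_right hu0 h
  have hP2 : u ^ (2 * c - 2) ≤ P + 1 - u := by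
    have h1 : u ^ (2 * c - 1) = u ^ (2 * c - 2) * u := by
      rw [← pow_succ]
      congr 1
      omega
    have h2 : u ≤ u ^ (2 * c - 2) := by
      calc u = u ^ 1 := (pow_one u).symm
        _ ≤ _ := hpow _ _ (by omega)
    have h3 : u ^ (2 * c - 2) * 4 ≤ u ^ (2 * c - 2) * u := Nat.mul_le_mul_left _ hu
    omega
  have hch : u ^ ((2 * c - 3) * u) ≤ P.choose u := by
    have h1 := Nat.pow_sub_le_descFactorial P u
    rw [Nat.descFactorial_eq_factorial_mul_choose] at h1
    have h2 : (u ^ (2 * c - 2)) ^ u ≤ (P + 1 - u) ^ u := Nat.pow_le_pow_left hP2 u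
    have h3 : u.factorial * P.choose u ≤ u ^ u * P.choose u :=
      Nat.mul_le_mul_right _ (Nat.factorial_le_pow u)
    have h4 : (u ^ (2 * c - 2)) ^ u = u ^ u * u ^ ((2 * c - 3) * u) := by
      rw [← pow_mul, ← pow_add]
      congr 1
      obtain ⟨e, he⟩ : ∃ e, c = e + 6 := ⟨c - 6, by omega⟩
      subst he
      have e1 : 2 * (e + 6) - 2 = 2 * e + 10 := by omega
      have e2 : 2 * (e + 6) - 3 = 2 * e + 9 := by omega
      rw [e1, e2]
      ring
    rw [h4] at h2
    exact Nat.le_of_mul_le_mul_left (h2.trans (h1.trans h3)) (pow_pos hu0 u)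
  -- the large ones
  obtain ⟨T, hT⟩ : ∃ T, T = D.filter (fun d => u ^ (c * u) < d) := ⟨_, rfl⟩
  have hTc : u ^ ((2 * c - 5) * u) * u ^ u ≤ T.card := by
    have h1 : (D.filter (fun d => ¬ u ^ (c * u) < d)).card ≤ u ^ (c * u) := by
      calc _ ≤ (Finset.Icc 1 (u ^ (c * u))).card := by
            apply Finset.card_le_card
            intro d hd
            rw [Finset.mem_filter] at hd
            rw [Finset.mem_Icc]
            exact ⟨(hD1 d hd.1).1, not_lt.mp hd.2⟩
        _ = u ^ (c * u) := by rw [Nat.card_Icc]; omega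
    have h2 : T.card + (D.filter (fun d => ¬ u ^ (c * u) < d)).card = D.card := by
      rw [hT]
      exact Finset.card_filter_add_card_filter_not _
    have h3 : u ^ ((2 * c - 3) * u) = u ^ ((2 * c - 4) * u) * u ^ u := by
      rw [← pow_add]
      congr 1
      obtain ⟨e, he⟩ : ∃ e, c = e + 6 := ⟨c - 6, by omega⟩
      subst he
      have e1 : 2 * (e + 6) - 3 = 2 * e + 9 := by omega
      have e2 : 2 * (e + 6) - 4 = 2 * e + 8 := by omega
      rw [e1, e2]
      ring
    have h4 : u ^ ((2 * c - 5) * u) * u ^ u = u ^ ((2 * c - 4) * u) := by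
      rw [← pow_add]
      congr 1
      obtain ⟨e, he⟩ : ∃ e, c = e + 6 := ⟨c - 6, by omega⟩
      subst he
      have e1 : 2 * (e + 6) - 5 = 2 * e + 7 := by omega
      have e2 : 2 * (e + 6) - 4 = 2 * e + 8 := by omega
      rw [e1, e2]
      ring
    have h5 : u ^ (c * u) ≤ u ^ ((2 * c - 4) * u) :=
      hpow _ _ (Nat.mul_le_mul_right _ (by omega))
    have h6 : 2 ≤ u ^ u := by
      calc 2 ≤ u ^ 1 := by rw [pow_one]; omega
        _ ≤ u ^ u := hpow _ _ (by omega)
    have h7 : u ^ ((2 * c - 4) * u) * 2 ≤ u ^ ((2 * c - 4) * u) * u ^ u :=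
      Nat.mul_le_mul_left _ h6
    rw [h4]
    rw [hDc] at h2
    omega
  obtain ⟨W, hW⟩ : ∃ W, W = u ^ (5 * u) := ⟨_, rfl⟩
  have hW0 : 0 < W := by rw [hW]; exact pow_pos hu0 _
  have hmaps : ∀ d ∈ T, (d - 1) / W ∈ Finset.range (u ^ ((2 * c - 5) * u)) := by
    intro d hd
    rw [hT, Finset.mem_filter] at hd
    obtain ⟨h1, h2, -⟩ := hD1 d hd.1
    rw [Finset.mem_range]
    apply Nat.div_lt_of_lt_mul
    have h3 : W * u ^ ((2 * c - 5) * u) = y ^ u := by
      rw [hW, hy, ← pow_mul, ← pow_add]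
      congr 1
      obtain ⟨e, he⟩ : ∃ e, c = e + 6 := ⟨c - 6, by omega⟩
      subst he
      have e1 : 2 * (e + 6) - 5 = 2 * e + 7 := by omega
      rw [e1]
      ring
    rw [h3]
    omega
  obtain ⟨j, -, hj⟩ := Finset.exists_le_card_fiber_of_mul_le_card_of_maps_to hmaps
    ⟨0, Finset.mem_range.mpr (pow_pos hu0 _)⟩ (n := u ^ u) (by
      rw [Finset.card_range]
      exact hTc)
  have hS : ∀ d ∈ T.filter (fun x => (x - 1) / W = j), j * W < d ∧ d ≤ j * W + W ∧
      u ^ (c * u) < d ∧ d ∣ primorial y := by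
    intro d hd
    rw [Finset.mem_filter] at hd
    obtain ⟨hd1, hd2⟩ := hd
    rw [hT, Finset.mem_filter] at hd1
    obtain ⟨h1, -, h2⟩ := hD1 d hd1.1
    have h3 := Nat.div_add_mod (d - 1) W
    have h4 := Nat.mod_lt (d - 1) hW0
    rw [hd2] at h3
    have h5 : W * j = j * W := mul_comm _ _
    exact ⟨by omega, by omega, hd1.2, h2⟩
  refine ⟨j * W, ?_, T.filter (fun x => (x - 1) / W = j), hj, ?_⟩
  · obtain ⟨d, hd⟩ : (T.filter (fun x => (x - 1) / W = j)).Nonempty :=
      Finset.card_pos.mp ((pow_pos hu0 u).trans_le hj)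
    obtain ⟨-, -, h3, -⟩ := hS d hd
    rw [Finset.mem_filter] at hd
    have h4 : u ^ (c * u) = u ^ ((c - 5) * u) * W := by
      rw [hW, ← pow_add]
      congr 1
      obtain ⟨e, he⟩ : ∃ e, c = e + 6 := ⟨c - 6, by omega⟩
      subst he
      have e1 : e + 6 - 5 = e + 1 := by omega
      rw [e1]
      ring
    have h5 : u ^ ((c - 5) * u) ≤ j := by
      rw [← hd.2, Nat.le_div_iff_mul_le hW0, ← h4]
      omega
    rw [h4]
    exact Nat.mul_le_mul_right _ h5
  · intro d hd
    obtain ⟨h1, h2, -, h3⟩ := hS d hd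
    rw [← hy, ← hW]
    exact ⟨h1, h2, h3⟩

end Pool.Agent.H85AK
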