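import Pool.Agent.H85AK.Stm4

set_option autoImplicit false

namespace Pool.Agent.H85AK

namespace DISx

/-- the factors -/
def g (θ : ℕ) (I : Finset ℕ) (i : ℕ) : ℕ := if i ∈ I then θ + i + 1 else θ - (i + 1)

theorem sq_eq (h θ : ℕ) (I : Finset ℕ) (hI : I ⊆ Finset.range h) :
    (∏ j ∈ I, (θ + j + 1) ^ 2) * ∏ j ∈ Finset.range h \ I, (θ - (j + 1)) ^ 2 =
      (∏ i ∈ Finset.range h, g θ I i) ^ 2 := by
  rw [Finset.prod_pow, Finset.prod_pow, ← mul_pow, ← Finset.prod_sdiff hI]
  congr 1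
  rw [mul_comm]
  congr 1
  · refine Finset.prod_congr rfl fun i hi => ?_
    rw [g, if_neg (Finset.mem_sdiff.1 hi).2]
  · refine Finset.prod_congr rfl fun i hi => ?_
    rw [g, if_pos hi]

theorem gcd_prod (n : ℕ) (f : ℕ → ℕ) (s : Finset ℕ) :
    Nat.gcd n (∏ i ∈ s, f i) ∣ ∏ i ∈ s, Nat.gcd n (f i) := by
  classical
  induction s using Finset.induction_on with
  | empty => simp
  | insert a s ha ih =>
    rw [Finset.prod_insert ha, Finset.prod_insert ha]
    exact (Nat.gcd_mul_right_dvd_mul_gcd _ _ _).trans (Nat.mul_dvd_mul_left _ ih)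

theorem gcd_le_sub {n f d : ℕ} (h : n ≠ f) (h1 : n ≤ f + d) (h2 : f ≤ n + d) :
    Nat.gcd n f ≤ d := by
  rcases lt_or_gt_of_ne h with h3 | h3
  · have h4 : Nat.gcd n f ∣ f - n := Nat.dvd_sub (Nat.gcd_dvd_right _ _) (Nat.gcd_dvd_left _ _)
    have := Nat.le_of_dvd (by omega) h4
    omega
  · have h4 : Nat.gcd n f ∣ n - f := Nat.dvd_sub (Nat.gcd_dvd_left _ _) (Nat.gcd_dvd_right _ _)
    have := Nat.le_of_dvd (by omega) h4
    omega

theorem main (h θ : ℕ) (hθ : (2 * h + 2) ^ h ≤ θ) (hh : h < θ) (I I' : Finset ℕ)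
    (hI : I ⊆ Finset.range h)
    (he : ∏ i ∈ Finset.range h, g θ I i = ∏ i ∈ Finset.range h, g θ I' i) : I ⊆ I' := by
  intro j hj
  by_contra hj'
  have hjh : j < h := Finset.mem_range.1 (hI hj)
  have hd : θ + j + 1 ∣ ∏ i ∈ Finset.range h, g θ I' i := by
    rw [← he]
    have := Finset.dvd_prod_of_mem (g θ I) (hI hj)
    rwa [g, if_pos hj] at this
  have h1 : θ + j + 1 ∣ ∏ i ∈ Finset.range h, Nat.gcd (θ + j + 1) (g θ I' i) := by
    have := gcd_prod (θ + j + 1) (g θ I') (Finset.range h)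
    rwa [Nat.gcd_eq_left hd] at this
  have h2 : ∏ i ∈ Finset.range h, Nat.gcd (θ + j + 1) (g θ I' i) ≤ (2 * h + 2) ^ h := by
    calc ∏ i ∈ Finset.range h, Nat.gcd (θ + j + 1) (g θ I' i)
        ≤ ∏ _i ∈ Finset.range h, (2 * h + 2) := by
          refine Finset.prod_le_prod' fun i hi => ?_
          have hih := Finset.mem_range.1 hi
          by_cases hiI : i ∈ I'
          · rw [g, if_pos hiI]
            refine gcd_le_sub ?_ (by omega) (by omega)
            intro h3
            have : i = j := by omega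
            exact hj' (this ▸ hiI)
          · rw [g, if_neg hiI]
            exact gcd_le_sub (by omega) (by omega) (by omega)
      _ = (2 * h + 2) ^ h := by rw [Finset.prod_const, Finset.card_range]
  have h3 : 0 < ∏ i ∈ Finset.range h, Nat.gcd (θ + j + 1) (g θ I' i) :=
    Finset.prod_pos fun i _ => Nat.gcd_pos_of_pos_left _ (by omega)
  have h4 := Nat.le_of_dvd h3 h1
  omega

end DISx

open DISx in
theorem t_DIS : S_DIS := by
  intro h θ hθ hh I I' hI hI' he
  rw [sq_eq h θ I hI, sq_eq h θ I' hI'] at he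
  have he' := Nat.pow_left_injective (n := 2) (by norm_num) he
  exact Finset.Subset.antisymm (main h θ hθ hh I I' hI he') (main h θ hθ hh I' I hI' he'.symm)

end Pool.Agent.H85AK
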