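import Pool.Agent.H85AK.Stm

/-!
# EX: the configuration of exponent `1/2 + ε` for independent places
-/

set_option autoImplicit false

noncomputable section

namespace Pool.Agent.H85AK

open Finset

/-- coefficient vectors with entries in `{0, ..., N-1}` -/
def box (l D N : ℕ) : Finset ((Fin l → Fin D) → ℤ) := Fintype.piFinset fun _ => Finset.Ico 0 (N : ℤ)

theorem box_card (l D N : ℕ) : (box l D N).card = N ^ (D ^ l) := by
  rw [box, Fintype.card_piFinset, Finset.prod_const, Int.card_Ico, Finset.card_univ,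
    Fintype.card_fun, Fintype.card_fin, Fintype.card_fin]
  simp

theorem mem_box {l D N : ℕ} {c : (Fin l → Fin D) → ℤ} :
    c ∈ box l D N ↔ ∀ α, 0 ≤ c α ∧ c α < N := by
  simp [box, Fintype.mem_piFinset]

/-- the linear combination of the monomials -/
def comb {l D : ℕ} (p q u : ℤ) (x : Fin l → ℤ) (c : (Fin l → Fin D) → ℤ) : ℤ :=
  ∑ α, c α * mon p q u x α

theorem lin_eq {l D : ℕ} (p q u : ℤ) (x : Fin l → ℤ) (e f : (Fin l → Fin D) → ℤ) :
    lin p q u x e f = (u - q) * comb p q u x e - (u - p) * comb p q u x f := rfl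

theorem comb_sub {l D : ℕ} (p q u : ℤ) (x : Fin l → ℤ) (c c' : (Fin l → Fin D) → ℤ) :
    comb p q u x (c - c') = comb p q u x c - comb p q u x c' := by
  simp [comb, sub_mul, Finset.sum_sub_distrib]

/-- a set of the form `{∑_β e_β m_β}`, `e_β` in an interval of `2N` integers -/
theorem card_forms {ι : Type} [Fintype ι] [DecidableEq ι] (N : ℕ) (lo : ℤ)
    (m : ι → ℤ) (S : Finset ℤ)
    (hS : ∀ z ∈ S, ∃ e : ι → ℤ, (∀ β, lo ≤ e β ∧ e β < lo + 2 * N) ∧ z = ∑ β, e β * m β) :
    S.card ≤ (2 * N) ^ (Fintype.card ι) := by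
  classical
  have h1 : S ⊆ (Fintype.piFinset fun _ : ι => Finset.Ico lo (lo + 2 * N)).image
      fun e => ∑ β, e β * m β := by
    intro z hz
    obtain ⟨e, he, rfl⟩ := hS z hz
    refine Finset.mem_image.2 ⟨e, Fintype.mem_piFinset.2 fun β => Finset.mem_Ico.2 (he β), rfl⟩
  refine (Finset.card_le_card h1).trans (Finset.card_image_le.trans ?_)
  rw [Fintype.card_piFinset, Finset.prod_const, Int.card_Ico, Finset.card_univ]
  have : (lo + 2 * (N : ℤ) - lo).toNat = 2 * N := by omega
  rw [this]

/-- fibre sums for an injective map -/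
theorem fiber_bound {α κ : Type} [Fintype α] [DecidableEq κ] {g : α → κ}
    (hg : Function.Injective g) {N : ℕ} (hN : 1 ≤ N) {c : α → ℤ} (hc : ∀ a, 0 ≤ c a ∧ c a < N)
    (β : κ) : 0 ≤ ∑ a ∈ Finset.univ.filter (fun a => g a = β), c a ∧
      ∑ a ∈ Finset.univ.filter (fun a => g a = β), c a < N := by
  classical
  by_cases h : ∃ a, g a = β
  · obtain ⟨a, rfl⟩ := h
    have e : (Finset.univ.filter fun a' => g a' = g a) = {a} := by
      ext a'
      simp only [Finset.mem_filter, Finset.mem_univ, true_and, Finset.mem_singleton]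
      exact ⟨fun h => hg h, fun h => by rw [h]⟩
    rw [e, Finset.sum_singleton]
    exact hc a
  · have e : (Finset.univ.filter fun a' => g a' = β) = ∅ := by
      ext a'
      simp only [Finset.mem_filter, Finset.mem_univ, true_and, Finset.notMem_empty, iff_false]
      exact fun h' => h ⟨a', h'⟩
    rw [e, Finset.sum_empty]
    exact ⟨le_rfl, by exact_mod_cast hN⟩

/-- the two families of monomials overlap -/
theorem card_two {α κ : Type} [Fintype α] [DecidableEq κ] (T : Finset κ)
    {g h : α → κ} (hg : Function.Injective g) (hh : Function.Injective h)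
    (hgT : ∀ a, g a ∈ T) (hhT : ∀ a, h a ∈ T) {N : ℕ} (hN : 1 ≤ N) (m : κ → ℤ) (S : Finset ℤ)
    (hS : ∀ z ∈ S, ∃ c d : α → ℤ, (∀ a, 0 ≤ c a ∧ c a < N) ∧ (∀ a, 0 ≤ d a ∧ d a < N) ∧
      z = ∑ a, c a * m (g a) + ∑ a, d a * m (h a)) :
    S.card ≤ (2 * N) ^ T.card := by
  classical
  rw [← Fintype.card_coe T]
  refine card_forms (ι := T) N 0 (fun β => m β) S fun z hz => ?_
  obtain ⟨c, d, hc, hd, rfl⟩ := hS z hz
  refine ⟨fun β => ∑ a ∈ Finset.univ.filter (fun a => g a = β), c a +
    ∑ a ∈ Finset.univ.filter (fun a => h a = β), d a, fun β => ?_, ?_⟩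
  · have h1 := fiber_bound hg hN hc (β : κ)
    have h2 := fiber_bound hh hN hd (β : κ)
    constructor <;> linarith [h1.1, h1.2, h2.1, h2.2]
  · have h3 : ∀ (k : α → κ) (e : α → ℤ), (∀ a, k a ∈ T) →
        ∑ a, e a * m (k a) = ∑ β : T, (∑ a ∈ Finset.univ.filter (fun a => k a = β), e a) * m β := by
      intro k e hk
      rw [Finset.sum_coe_sort T (fun β => (∑ a ∈ Finset.univ.filter (fun a => k a = β), e a) * m β),
        ← Finset.sum_fiberwise_of_maps_to (t := T) (g := k) (fun a _ => hk a)]
      refine Finset.sum_congr rfl fun β _ => ?_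
      rw [Finset.sum_mul]
      refine Finset.sum_congr rfl fun a ha => ?_
      rw [(Finset.mem_filter.1 ha).2]
    rw [h3 g c hgT, h3 h d hhT, ← Finset.sum_add_distrib]
    refine Finset.sum_congr rfl fun β _ => ?_
    ring

/-- the bound for the place `x i` -/
theorem card_place {l D N : ℕ} (hN : 1 ≤ N) (p q u : ℤ) (x : Fin l → ℤ) (i : Fin l)
    (S : Finset ℤ) (hS : ∀ z ∈ S, ∃ c ∈ box l D N, ∃ d ∈ box l D N,
      z = ((q - x i) * (u - p)) * comb p q u x c + ((x i - p) * (u - q)) * comb p q u x d) :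
    S.card ≤ (2 * N) ^ ((D + 1) * D ^ (l - 1)) := by
  classical
  set T : Finset (Fin l → ℕ) := Fintype.piFinset fun j => Finset.range (if j = i then D + 1 else D)
    with hT
  have hTc : T.card = (D + 1) * D ^ (l - 1) := by
    rw [hT, Fintype.card_piFinset]
    simp only [Finset.card_range]
    rw [← Finset.mul_prod_erase Finset.univ _ (Finset.mem_univ i), if_pos rfl]
    congr 1
    rw [Finset.prod_congr rfl (g := fun _ => D) (fun j hj => if_neg (Finset.ne_of_mem_erase hj)),
      Finset.prod_const, Finset.card_erase_of_mem (Finset.mem_univ i), Finset.card_univ,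
      Fintype.card_fin]
  rw [← hTc]
  set m : (Fin l → ℕ) → ℤ := fun β => ∏ j, (((q - x j) * (u - p)) ^ (β j) *
    ((x j - p) * (u - q)) ^ ((if j = i then D else D - 1) - β j)) with hm
  refine card_two (α := Fin l → Fin D) T
    (g := fun α j => if j = i then (α j : ℕ) + 1 else (α j : ℕ)) (h := fun α j => (α j : ℕ))
    ?_ ?_ ?_ ?_ hN m S ?_
  · intro α α' h
    funext j
    have := congrFun h j
    dsimp only at this
    split_ifs at this with hj
    · exact Fin.ext (by omega)
    · exact Fin.ext this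
  · intro α α' h
    funext j
    exact Fin.ext (congrFun h j)
  · intro α
    rw [hT, Fintype.mem_piFinset]
    intro j
    rw [Finset.mem_range]
    have := (α j).2
    split_ifs <;> omega
  · intro α
    rw [hT, Fintype.mem_piFinset]
    intro j
    rw [Finset.mem_range]
    have := (α j).2
    split_ifs <;> omega
  · intro z hz
    obtain ⟨c, hc, d, hd, rfl⟩ := hS z hz
    refine ⟨c, d, mem_box.1 hc, mem_box.1 hd, ?_⟩
    rw [comb, comb, Finset.mul_sum, Finset.mul_sum]
    congr 1
    · refine Finset.sum_congr rfl fun α _ => ?_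
      rw [mon, hm]
      dsimp only
      rw [← Finset.mul_prod_erase Finset.univ _ (Finset.mem_univ i),
        ← Finset.mul_prod_erase Finset.univ _ (Finset.mem_univ i), if_pos rfl, if_pos rfl]
      have e1 : ∏ j ∈ Finset.univ.erase i, (((q - x j) * (u - p)) ^
            (if j = i then (α j : ℕ) + 1 else (α j : ℕ)) * ((x j - p) * (u - q)) ^
            ((if j = i then D else D - 1) - (if j = i then (α j : ℕ) + 1 else (α j : ℕ)))) =
          ∏ j ∈ Finset.univ.erase i, (((q - x j) * (u - p)) ^ (α j : ℕ) *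
            ((x j - p) * (u - q)) ^ (D - 1 - (α j : ℕ))) := by
        refine Finset.prod_congr rfl fun j hj => ?_
        rw [if_neg (Finset.ne_of_mem_erase hj), if_neg (Finset.ne_of_mem_erase hj)]
      rw [e1]
      have e2 : D - ((α i : ℕ) + 1) = D - 1 - (α i : ℕ) := by omega
      rw [e2, pow_succ]
      ring
    · refine Finset.sum_congr rfl fun α _ => ?_
      rw [mon, hm]
      dsimp only
      rw [← Finset.mul_prod_erase Finset.univ _ (Finset.mem_univ i),
        ← Finset.mul_prod_erase Finset.univ _ (Finset.mem_univ i), if_pos rfl]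
      have e1 : ∏ j ∈ Finset.univ.erase i, (((q - x j) * (u - p)) ^ (α j : ℕ) *
            ((x j - p) * (u - q)) ^ ((if j = i then D else D - 1) - (α j : ℕ))) =
          ∏ j ∈ Finset.univ.erase i, (((q - x j) * (u - p)) ^ (α j : ℕ) *
            ((x j - p) * (u - q)) ^ (D - 1 - (α j : ℕ))) := by
        refine Finset.prod_congr rfl fun j hj => ?_
        rw [if_neg (Finset.ne_of_mem_erase hj)]
      rw [e1]
      have e2 : D - (α i : ℕ) = (D - 1 - (α i : ℕ)) + 1 := by
        have := (α i).2
        omega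
      rw [e2, pow_succ]
      ring

theorem t_EX : S_EX := by
  classical
  intro l D N J hD hN hI
  set p : ℤ := ((J 0 : ℕ) : ℤ) with hp
  set q : ℤ := ((J 1 : ℕ) : ℤ) with hq
  set u : ℤ := ((J 2 : ℕ) : ℤ) with hu
  set x : Fin l → ℤ := fun i => ((J ⟨i + 3, by omega⟩ : ℕ) : ℤ) with hx
  -- pairs of coefficient vectors
  set P := box l D N ×ˢ box l D N with hP
  set r : ((Fin l → Fin D) → ℤ) × ((Fin l → Fin D) → ℤ) → ℤ := fun cd =>
    (u - q) * comb p q u x cd.2 - (u - p) * comb p q u x cd.1 with hr
  set a : ((Fin l → Fin D) → ℤ) × ((Fin l → Fin D) → ℤ) → ℤ := fun cd =>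
    (q - p) * (u - p) * comb p q u x cd.1 - p * r cd with ha
  have hval : ∀ cd (j : ℤ), a cd + j * r cd = (u - p) * (q - j) * comb p q u x cd.1 +
      (j - p) * (u - q) * comb p q u x cd.2 := by
    intro cd j
    rw [ha, hr]
    ring
  have hinj : Set.InjOn r P := by
    rintro ⟨c, d⟩ hcd ⟨c', d'⟩ hcd' h
    rw [Finset.mem_coe, hP, Finset.mem_product] at hcd hcd'
    have h1 := mem_box.1 hcd.1
    have h2 := mem_box.1 hcd.2
    have h3 := mem_box.1 hcd'.1
    have h4 := mem_box.1 hcd'.2
    have h5 : lin p q u x (d - d') (c - c') = 0 := by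
      rw [lin_eq, comb_sub, comb_sub]
      simp only [hr] at h
      linear_combination h
    obtain ⟨h6, h7⟩ := hI (d - d') (c - c') (fun α => by
      rw [Pi.sub_apply, abs_lt]
      have := h2 α
      have := h4 α
      constructor <;> linarith) (fun α => by
      rw [Pi.sub_apply, abs_lt]
      have := h1 α
      have := h3 α
      constructor <;> linarith) h5
    rw [sub_eq_zero] at h6 h7
    rw [h6, h7]
  -- the exponent
  obtain ⟨b, hb1, hb2, hb3⟩ : ∃ b : ℕ, D * b ≤ (D + 1) * D ^ l ∧ D ^ l ≤ b ∧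
      (∀ _ : Fin l, (D + 1) * D ^ (l - 1) ≤ b) := by
    rcases Nat.eq_zero_or_pos l with h0 | hl
    · refine ⟨1, ?_, ?_, ?_⟩
      · rw [h0]; simp
      · rw [h0]; simp
      · intro i
        exact absurd i.2 (by omega)
    · obtain ⟨l', rfl⟩ : ∃ l', l = l' + 1 := ⟨l - 1, by omega⟩
      refine ⟨(D + 1) * D ^ l', ?_, ?_, fun _ => by simp⟩
      · rw [pow_succ]
        apply le_of_eq
        ring
      · rw [pow_succ]
        nlinarith [Nat.pos_of_ne_zero (pow_ne_zero l' (by omega : D ≠ 0))]
  have h2N : 1 ≤ 2 * N := by omega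
  have hcard : Fintype.card (Fin l → Fin D) = D ^ l := by
    rw [Fintype.card_fun, Fintype.card_fin, Fintype.card_fin]
  refine ⟨P.image r, fun i => P.image fun cd => a cd + (J i : ℤ) * r cd, b, ?_, ?_, ?_, hb1⟩
  · rw [Finset.card_image_of_injOn hinj, hP, Finset.card_product, box_card, ← pow_add]
    congr 1
    ring
  · intro z hz
    obtain ⟨cd, hcd, rfl⟩ := Finset.mem_image.1 hz
    exact ⟨a cd, fun i => Finset.mem_image.2 ⟨cd, hcd, rfl⟩⟩
  · intro i
    have h3 : (i : ℕ) = 0 ∨ (i : ℕ) = 1 ∨ (i : ℕ) = 2 ∨ 3 ≤ (i : ℕ) := by omega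
    rcases h3 with h3 | h3 | h3 | h3
    · have e : i = 0 := Fin.ext h3
      subst e
      refine (card_forms (ι := Fin l → Fin D) N 0 (fun α => (u - p) * (q - p) * mon p q u x α) _ ?_).trans ?_
      · intro z hz
        obtain ⟨cd, hcd, rfl⟩ := Finset.mem_image.1 hz
        rw [hP, Finset.mem_product] at hcd
        have h1 := mem_box.1 hcd.1
        refine ⟨cd.1, fun β => ?_, ?_⟩
        · have := h1 β
          constructor <;> linarith
        · rw [← hp, hval, sub_self, zero_mul, zero_mul, add_zero, comb, Finset.mul_sum]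
          refine Finset.sum_congr rfl fun α _ => ?_
          ring
      · rw [hcard]
        exact Nat.pow_le_pow_right h2N hb2
    · have e : i = 1 := Fin.ext h3
      subst e
      refine (card_forms (ι := Fin l → Fin D) N 0 (fun α => (q - p) * (u - q) * mon p q u x α) _ ?_).trans ?_
      · intro z hz
        obtain ⟨cd, hcd, rfl⟩ := Finset.mem_image.1 hz
        rw [hP, Finset.mem_product] at hcd
        have h1 := mem_box.1 hcd.2
        refine ⟨cd.2, fun β => ?_, ?_⟩
        · have := h1 β
          constructor <;> linarith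
        · rw [← hq, hval, sub_self, mul_zero, zero_mul, zero_add, comb, Finset.mul_sum]
          refine Finset.sum_congr rfl fun α _ => ?_
          ring
      · rw [hcard]
        exact Nat.pow_le_pow_right h2N hb2
    · have e : i = 2 := Fin.ext h3
      subst e
      refine (card_forms (ι := Fin l → Fin D) N (-(N : ℤ)) (fun α => (u - p) * (u - q) * mon p q u x α) _ ?_).trans ?_
      · intro z hz
        obtain ⟨cd, hcd, rfl⟩ := Finset.mem_image.1 hz
        rw [hP, Finset.mem_product] at hcd
        have h1 := mem_box.1 hcd.1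
        have h2 := mem_box.1 hcd.2
        refine ⟨cd.2 - cd.1, fun β => ?_, ?_⟩
        · have := h1 β
          have := h2 β
          rw [Pi.sub_apply]
          constructor <;> linarith
        · have e1 : ∑ β, (cd.2 - cd.1) β * ((u - p) * (u - q) * mon p q u x β) =
              (u - p) * (u - q) * comb p q u x (cd.2 - cd.1) := by
            rw [comb, Finset.mul_sum]
            refine Finset.sum_congr rfl fun α _ => ?_
            ring
          rw [← hu, hval, e1, comb_sub]
          ring
      · rw [hcard]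
        exact Nat.pow_le_pow_right h2N hb2
    · have hi := i.2
      set i' : Fin l := ⟨i - 3, by omega⟩ with hi'
      have e : ((J i : ℕ) : ℤ) = x i' := by
        have h4 : i = (⟨(i' : ℕ) + 3, by have := i'.2; omega⟩ : Fin (l + 3)) :=
          Fin.ext (show (i : ℕ) = ((i : ℕ) - 3) + 3 by omega)
        exact congrArg (fun t => ((J t : ℕ) : ℤ)) h4
      refine (card_place (by omega : 1 ≤ N) p q u x i' _ ?_).trans
        (Nat.pow_le_pow_right h2N (hb3 i'))
      intro z hz
      obtain ⟨cd, hcd, rfl⟩ := Finset.mem_image.1 hz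
      rw [hP, Finset.mem_product] at hcd
      refine ⟨cd.1, hcd.1, cd.2, hcd.2, ?_⟩
      rw [e, hval]
      ring

end Pool.Agent.H85AK
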