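import Pool.Agent.H85AK.Stm2
import Pool.Agent.Results.MP_4b405e_nt.ExactExponent

/-!
# Patterns with many places: assembly
-/

set_option autoImplicit false

namespace Pool.Agent.H85AK

/-- independent places give the exponent `1/2 + ε` -/
theorem small_of_indep (hL : S_LIFT) (hG : S_GEO) (hE : S_EX) {ε : ℝ} (hε : 0 < ε) {D N : ℕ}
    (hD : 1 ≤ D) (hN : 2 ≤ N)
    (hDN : (1 + 1 / (D : ℝ)) * Real.log (2 * N) ≤ (1 + ε) * Real.log N) {l : ℕ}
    (J : Fin (l + 3) → ℕ) (hI : Indep D N (J 0 : ℕ) (J 1 : ℕ) (J 2 : ℕ)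
      (fun i : Fin l => ((J ⟨i + 3, by omega⟩ : ℕ) : ℤ))) : Small J (1 / 2 + ε) := by
  intro n
  obtain ⟨R, E, b, hR, hRE, hEc, hb⟩ := hE l D N J hD hN hI
  have hN0 : (0 : ℝ) < N := by exact_mod_cast (by omega : 0 < N)
  have hD0 : (0 : ℝ) < D := by exact_mod_cast hD
  have hR2 : 2 ≤ R.card := by
    rw [hR]
    have h1 : 1 ≤ 2 * D ^ l := by
      have := Nat.pos_of_ne_zero (pow_ne_zero l (by omega : D ≠ 0))
      omega
    calc 2 ≤ N := hN
      _ = N ^ 1 := (pow_one N).symm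
      _ ≤ N ^ (2 * D ^ l) := Nat.pow_le_pow_right (by omega) h1
  have hb' : (b : ℝ) ≤ (1 + 1 / (D : ℝ)) * (D : ℝ) ^ l := by
    have h1 : (D : ℝ) * b ≤ (D + 1) * (D : ℝ) ^ l := by exact_mod_cast hb
    have h2 : (1 + 1 / (D : ℝ)) * (D : ℝ) ^ l = ((D + 1) * (D : ℝ) ^ l) / D := by
      field_simp
    rw [h2, le_div_iff₀ hD0]
    linarith
  have hcard : ∀ i, ((E i).card : ℝ) ≤ (R.card : ℝ) ^ (1 / 2 + ε / 2) := by
    intro i
    have h1 : ((E i).card : ℝ) ≤ (2 * (N : ℝ)) ^ b := by exact_mod_cast hEc i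
    refine h1.trans ?_
    rw [hR]
    push_cast
    rw [← Real.log_le_log_iff (by positivity) (by positivity), Real.log_pow,
      Real.log_rpow (by positivity), Real.log_pow]
    have h2 : 0 ≤ Real.log (2 * N) := Real.log_nonneg (by
      have : (2 : ℝ) ≤ N := by exact_mod_cast hN
      linarith)
    have hDl : (0 : ℝ) < (D : ℝ) ^ l := by positivity
    calc (b : ℝ) * Real.log (2 * N) ≤ ((1 + 1 / (D : ℝ)) * (D : ℝ) ^ l) * Real.log (2 * N) :=
          mul_le_mul_of_nonneg_right hb' h2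
      _ = (D : ℝ) ^ l * ((1 + 1 / (D : ℝ)) * Real.log (2 * N)) := by ring
      _ ≤ (D : ℝ) ^ l * ((1 + ε) * Real.log N) := mul_le_mul_of_nonneg_left hDN hDl.le
      _ = (1 / 2 + ε / 2) * (((2 * D ^ l : ℕ) : ℝ) * Real.log N) := by
          push_cast
          ring
  obtain ⟨M, hM, Δ, hΔ, hΔc⟩ := hL (l + 3) J (1 / 2 + ε / 2) (1 / 2 + ε) R E
    (by omega) (by positivity) (by linarith) hR2 hRE hcard
  exact hG n (l + 3) J M Δ (1 / 2 + ε) (n * (1 / 2 + ε)) (by omega) hM hΔ (by positivity) le_rfl hΔc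

/-- (A) almost all patterns with few places -/
theorem almost_all (hL : S_LIFT) (hG : S_GEO) (hE : S_EX) (hS : S_SZB) (hA : S_ASY) {ε : ℝ}
    (hε : 0 < ε) : ∃ c : ℝ, 0 < c ∧ ∃ k₀ : ℕ, ∀ k : ℕ, k₀ ≤ k → ∀ m : ℕ, 3 ≤ m →
      (m : ℝ) ≤ c * Real.log (Real.log k) →
      ({J : Fin m → Fin k | ¬ Small (fun i => (J i : ℕ)) (1 / 2 + ε)}.ncard : ℝ) ≤
        (k : ℝ) ^ ((m : ℝ) - 1 / 2) := by
  obtain ⟨D, N, hD, hN, hDN⟩ := choose_DN hε
  obtain ⟨c, hc, k₀, hk₀⟩ := hA D N hD (by omega)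
  refine ⟨c, hc, max k₀ 1, fun k hk m hm hmc => ?_⟩
  have hk1 : 1 ≤ k := (le_max_right _ _).trans hk
  obtain ⟨l, rfl⟩ : ∃ l, m = l + 3 := ⟨m - 3, by omega⟩
  have h1 := hk₀ k ((le_max_left _ _).trans hk) l (by
    push_cast at hmc
    linarith)
  have h2 : {J : Fin (l + 3) → Fin k | ¬ Small (fun i => (J i : ℕ)) (1 / 2 + ε)}.ncard ≤
      (2 * N) ^ (2 * D ^ l) * (2 * l * D + 1) * k ^ (l + 2) := by
    refine (Set.ncard_le_ncard ?_ (Set.toFinite _)).trans (hS l D N hD (by omega) k hk1)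
    intro J hJ hI
    exact hJ (small_of_indep hL hG hE hε hD hN hDN (fun i => (J i : ℕ)) hI)
  have hk0 : (0 : ℝ) < k := by exact_mod_cast hk1
  calc ({J : Fin (l + 3) → Fin k | ¬ Small (fun i => (J i : ℕ)) (1 / 2 + ε)}.ncard : ℝ)
      ≤ (((2 * N) ^ (2 * D ^ l) * (2 * l * D + 1) * k ^ (l + 2) : ℕ) : ℝ) := by exact_mod_cast h2
    _ = (((2 * N) ^ (2 * D ^ l) * (2 * l * D + 1) : ℕ) : ℝ) * (k : ℝ) ^ (l + 2) := by
        push_cast
        ring
    _ ≤ (k : ℝ) ^ (1 / 2 : ℝ) * (k : ℝ) ^ (l + 2) :=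
        mul_le_mul_of_nonneg_right h1 (by positivity)
    _ = (k : ℝ) ^ (((l + 3 : ℕ) : ℝ) - 1 / 2) := by
        rw [← Real.rpow_natCast (k : ℝ) (l + 2), ← Real.rpow_add hk0]
        congr 1
        push_cast
        ring

open Results.MP_4b405e_nt.ExactExponent in
/-- two different places give at least the exponent `1/2` -/
theorem lower_half {n m : ℕ} (J : Fin m → ℕ) {i₀ i₁ : Fin m} (h01 : J i₀ < J i₁)
    {B : Set (E n)} (hB : Bornology.IsBounded B)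
    (h : ∀ r : E n, (∀ i, r i ∈ Set.Icc (0 : ℝ) 1) → ∃ a : E n, ∀ i, a + (J i : ℝ) • r ∈ B) :
    ((n / 2 : ℝ) : EReal) ≤ lowerMinkowski B := by
  obtain ⟨f, w, h1, h2, h3, h4, h5, h6, -⟩ := (result).1 2 le_rfl
  have h7 : HasProgressions 2 B := by
    intro r hr
    have hd : (1 : ℝ) ≤ (J i₁ : ℝ) - J i₀ := by
      have : ((J i₀ : ℕ) : ℝ) + 1 ≤ J i₁ := by exact_mod_cast h01
      linarith
    have hd0 : (0 : ℝ) < (J i₁ : ℝ) - J i₀ := by linarith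
    obtain ⟨a, ha⟩ := h ((1 / ((J i₁ : ℝ) - J i₀)) • r) (by
      intro i
      have h8 := hr i
      have e : ((1 / ((J i₁ : ℝ) - J i₀)) • r) i = r i / ((J i₁ : ℝ) - J i₀) := by
        simp [div_eq_inv_mul]
      rw [e]
      exact ⟨div_nonneg h8.1 hd0.le, (div_le_one hd0).2 (h8.2.trans hd)⟩)
    refine ⟨a + (J i₀ : ℝ) • ((1 / ((J i₁ : ℝ) - J i₀)) • r), fun j hj => ?_⟩
    have h9 : j = 0 ∨ j = 1 := by omega
    rcases h9 with rfl | rfl
    · rw [Nat.cast_zero, zero_smul, add_zero]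
      exact ha i₀
    · have e : a + (J i₀ : ℝ) • ((1 / ((J i₁ : ℝ) - J i₀)) • r) + ((1 : ℕ) : ℝ) • r =
          a + (J i₁ : ℝ) • ((1 / ((J i₁ : ℝ) - J i₀)) • r) := by
        rw [Nat.cast_one, one_smul, smul_smul, smul_smul, add_assoc]
        congr 1
        have e2 : r = (((J i₁ : ℝ) - J i₀) * (1 / ((J i₁ : ℝ) - J i₀))) • r := by
          rw [mul_one_div_cancel hd0.ne', one_smul]
        nth_rewrite 2 [e2]
        rw [← add_smul]
        congr 1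
        ring
      rw [e]
      exact ha i₁
  have h8 : infDim n 2 lowerMinkowski ≤ lowerMinkowski B :=
    iInf_le_of_le B (iInf_le_of_le hB (iInf_le_of_le h7 le_rfl))
  rw [(h6 n).1] at h8
  refine le_trans ?_ h8
  rw [EReal.coe_le_coe_iff]
  have : (0 : ℝ) ≤ n := Nat.cast_nonneg n
  nlinarith

end Pool.Agent.H85AK
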