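import Mathlib

/-!
# Patterns with many places, part 3: divisors of primorials in short intervals

Pieces: CHB, CNT, CHO (numbers only, Mathlib only).
-/

set_option autoImplicit false

namespace Pool.Agent.H85AK

/-- **CHB** (Chebyshev). Proof: Mathlib has `Chebyshev.pi_ge (n : ℕ) :
(n * log 2 - log (n + 1)) / log n ≤ π n` (Mathlib/NumberTheory/Chebyshev.lean, line 812). With
`n = u^C`, `log n = C log u`: it suffices that `u^(C-1) * (C log u) + log (u^C + 1) ≤ u^C log 2`, true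
for large `u` because `C log u / u → 0` and `log (u^C + 1) ≤ log 2 + C log u`. -/
def S_CHB : Prop := ∀ C : ℕ, 1 ≤ C → ∃ u₀ : ℕ, ∀ u : ℕ, u₀ ≤ u →
  u ^ (C - 1) ≤ Nat.primeCounting (u ^ C)

/-- **CNT** (many divisors of the primorial in a short interval). Proof: `y = u^(2c)`, `Q` = the primes
`≤ y`, `Q.card = π(y) ≥ u^(2c-1)`. The products of the `u`-element subsets of `Q`
(`Finset.powersetCard u Q`) are different (`Nat.primeFactors` of the product is the subset), divide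
`primorial y` and are at most `y^u = u^(2cu)`. Their number is `choose (π y) u ≥
(π y + 1 - u)^u / u! ≥ (u^(2c-2))^u / u^u = u^((2c-3)u)` (`Nat.pow_le_choose`, `Nat.factorial_le_pow`).
Let `T` be the set of those which are `> u^(cu)`: `T.card ≥ u^((2c-3)u) - u^(cu) ≥
u^((2c-5)u) * u^u` (as `u^(2u) - 1 ≥ u^u` and `c ≤ 2c - 5`). With `W = u^(5u)` the map
`d ↦ (d - 1) / W` sends `T` to `range (u^((2c-5)u))`; some fibre has at least `u^u` elements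
(`Finset.exists_le_card_fiber_of_mul_le_card_of_maps_to`). Take `X = j W` for this `j` and `S` = the
fibre: `X < d ≤ X + W`; and `X ≥ u^(cu)` because `u^(cu) = u^((c-5)u) W` is a multiple of `W` and
`d > u^(cu)`. -/
def S_CNT : Prop := ∀ c u : ℕ, 6 ≤ c → 4 ≤ u → u ^ (2 * c - 1) ≤ Nat.primeCounting (u ^ (2 * c)) →
  ∃ X : ℕ, u ^ (c * u) ≤ X ∧ ∃ S : Finset ℕ, u ^ u ≤ S.card ∧
    ∀ d ∈ S, X < d ∧ d ≤ X + u ^ (5 * u) ∧ d ∣ primorial (u ^ (2 * c))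

/-- **CHO** (choice of `u`). Proof: `δ = 1 / (3 c)`, `u = ⌊((log k) / (2 log 4))^(1 / (2 c))⌋`; then
`u^(2c) log 4 ≤ (log k) / 2`, so `4^(u^(2c)) ≤ k^(1/2) < k`, and for large `k`
`u ≥ ((log k) / (2 log 4))^(1 / (2c)) - 1 ≥ (log k)^δ`, `u ≥ 3`, so `u^u ≥ e^u ≥ exp ((log k)^δ)`. -/
def S_CHO : Prop := ∀ c : ℕ, 1 ≤ c → ∃ δ : ℝ, 0 < δ ∧ ∀ u₀ : ℕ, ∃ k₀ : ℕ, ∀ k : ℕ, k₀ ≤ k →
  ∃ u : ℕ, u₀ ≤ u ∧ 4 ^ (u ^ (2 * c)) < k ∧ Real.exp ((Real.log k) ^ δ) ≤ (u : ℝ) ^ u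

end Pool.Agent.H85AK
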