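import Pool.Agent.H85AK.HRG
import Pool.Agent.H85AK.Stm3

/-!
# Patterns with many places: assembly of part 3
-/

set_option autoImplicit false

namespace Pool.Agent.H85AK

/-- patterns with `exp ((log k)^δ)` places `< k` and the exponent `1/2 + ε` -/
theorem many_places (hL : S_LIFT) (hG : S_GEO) (hB : S_CHB) (hN : S_CNT) (hO : S_CHO) {ε : ℝ}
    (hε : 0 < ε) : ∃ δ : ℝ, 0 < δ ∧ ∃ k₀ : ℕ, ∀ k : ℕ, k₀ ≤ k → ∃ m : ℕ,
      Real.exp ((Real.log k) ^ δ) ≤ m ∧ ∃ J : Fin m → ℕ, Function.Injective J ∧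
        (∀ t, J t < k) ∧ Small J (1 / 2 + ε) := by
  obtain ⟨c₀, hc₀⟩ := exists_nat_gt (3 / ε)
  set c : ℕ := max 6 c₀ with hc
  have hc6 : 6 ≤ c := le_max_left _ _
  have hcε : 3 / ε < c := hc₀.trans_le (by exact_mod_cast le_max_right 6 c₀)
  have hc0 : (0 : ℝ) < c := by exact_mod_cast (by omega : 0 < c)
  obtain ⟨u₁, hu₁⟩ := hB (2 * c) (by omega)
  obtain ⟨δ, hδ, h⟩ := hO c (by omega)
  obtain ⟨k₀, hk₀⟩ := h (max u₁ 4)
  refine ⟨δ, hδ, k₀, fun k hk => ?_⟩
  obtain ⟨u, hu, hlt, hexp⟩ := hk₀ k hk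
  have hu4 : 4 ≤ u := (le_max_right _ _).trans hu
  obtain ⟨X, hX, S, hS, hSd⟩ := hN c u hc6 hu4 (hu₁ u ((le_max_left _ _).trans hu))
  have hupos : 0 < u := by omega
  have hX2 : 2 ≤ X := by
    refine le_trans ?_ hX
    calc 2 ≤ u := by omega
      _ = u ^ 1 := (pow_one u).symm
      _ ≤ u ^ (c * u) := Nat.pow_le_pow_right hupos (Nat.mul_pos (by omega) hupos)
  set L : ℕ := primorial (u ^ (2 * c)) with hL'
  have hLpos : 0 < L := primorial_pos _
  have hLk : L < k := (primorial_le_four_pow _).trans_lt hlt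
  set e := S.equivFin.symm with he
  have hd : ∀ i : Fin S.card, X < (e i : ℕ) ∧ (e i : ℕ) ≤ X + u ^ (5 * u) ∧ (e i : ℕ) ∣ L :=
    fun i => hSd _ (e i).2
  set t : Fin S.card → ℕ := fun i => (e i : ℕ) - X - 1 with ht
  have ht2 : ∀ i, X + t i + 1 = (e i : ℕ) := fun i => by
    have := (hd i).1
    simp only [ht]
    omega
  have hm1 : 1 ≤ S.card := (Nat.pos_of_ne_zero (pow_ne_zero u (by omega))).trans_le hS
  refine ⟨S.card, hexp.trans (by exact_mod_cast hS), fun i => L / (X + t i + 1), ?_, ?_, ?_⟩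
  · intro i j hij
    simp only [ht2] at hij
    have h1 : L / (e i : ℕ) * (e i : ℕ) = L := Nat.div_mul_cancel (hd i).2.2
    have h2 : L / (e j : ℕ) * (e j : ℕ) = L := Nat.div_mul_cancel (hd j).2.2
    rw [hij] at h1
    have h3 : 0 < L / (e j : ℕ) := Nat.div_pos (Nat.le_of_dvd hLpos (hd j).2.2)
      (by have := (hd j).1; omega)
    have h4 : (e i : ℕ) = (e j : ℕ) := Nat.eq_of_mul_eq_mul_left h3 (h1.trans h2.symm)
    exact e.injective (Subtype.ext h4)
  · intro i
    exact (Nat.div_le_self _ _).trans_lt hLk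
  · refine small_harmonic hL hG t (W := u ^ (5 * u)) hm1 hX2 (fun i => ?_) (fun i => ?_) ?_
    · have h1 := (hd i).2.1
      have h2 := ht2 i
      omega
    · rw [ht2]
      exact (hd i).2.2
    · have hlu : 0 < Real.log (u : ℝ) := Real.log_pos (by exact_mod_cast (by omega : 1 < u))
      have hu0 : (0 : ℝ) < u := by exact_mod_cast hupos
      have hlX : (c * u : ℝ) * Real.log u ≤ Real.log X := by
        have h1 : Real.log ((u : ℝ) ^ (c * u)) ≤ Real.log X := by
          refine Real.log_le_log (by positivity) ?_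
          exact_mod_cast hX
        rw [Real.log_pow] at h1
        push_cast at h1
        exact h1
      have hlW : Real.log ((u ^ (5 * u) : ℕ) + 1 : ℝ) ≤ (6 * u : ℝ) * Real.log u := by
        have h1 : ((u ^ (5 * u) : ℕ) + 1 : ℝ) ≤ (u : ℝ) ^ (6 * u) := by
          have h2 : u ^ (5 * u) + 1 ≤ u ^ (6 * u) := by
            have h3 : 0 < u ^ (5 * u) := Nat.pos_of_ne_zero (pow_ne_zero _ (by omega))
            calc u ^ (5 * u) + 1 ≤ u ^ (5 * u) * 2 := by omega
              _ ≤ u ^ (5 * u) * u := Nat.mul_le_mul_left _ (by omega)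
              _ = u ^ (5 * u + 1) := (pow_succ u _).symm
              _ ≤ u ^ (6 * u) := Nat.pow_le_pow_right hupos (by omega)
          exact_mod_cast h2
        have h4 := Real.log_le_log (by positivity) h1
        rw [Real.log_pow] at h4
        push_cast at h4 ⊢
        exact h4
      have hcu : 0 < (c * u : ℝ) * Real.log u := by positivity
      have hq : Real.log ((u ^ (5 * u) : ℕ) + 1 : ℝ) / (2 * Real.log X) ≤ 3 / c := by
        rw [div_le_div_iff₀ (by linarith) hc0]
        have h5 : Real.log ((u ^ (5 * u) : ℕ) + 1 : ℝ) * c ≤ (6 * u : ℝ) * Real.log u * c :=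
          mul_le_mul_of_nonneg_right hlW hc0.le
        nlinarith
      have hq2 : 3 / (c : ℝ) < ε := by
        rw [div_lt_iff₀ hε] at hcε
        rw [div_lt_iff₀ hc0]
        linarith
      linarith

end Pool.Agent.H85AK
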