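import Pool.Agent.H85AK.Stm2
import Pool.Agent.H85AK.Stm4

/-!
# Patterns with many places: assembly of part 4
-/

set_option autoImplicit false

namespace Pool.Agent.H85AK

open Polynomial

namespace CJ

/-- `∏_{j ∈ I} (X + j + 1)^2` -/
noncomputable def Z (I : Finset ℕ) : ℕ[X] := ∏ j ∈ I, (X + C (j + 1)) ^ 2

theorem Z_deg {h : ℕ} {I : Finset ℕ} (hI : I ⊆ Finset.range h) : (Z I).natDegree ≤ 2 * h := by
  have h1 : (Z I).natDegree ≤ ∑ j ∈ I, ((X + C (j + 1) : ℕ[X]) ^ 2).natDegree :=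
    natDegree_prod_le _ _
  refine h1.trans ?_
  have h2 : ∀ j ∈ I, ((X + C (j + 1) : ℕ[X]) ^ 2).natDegree ≤ 2 := by
    intro j _
    refine natDegree_pow_le.trans ?_
    rw [natDegree_X_add_C]
  calc _ ≤ ∑ j ∈ I, 2 := Finset.sum_le_sum h2
    _ = I.card * 2 := by simp
    _ ≤ 2 * h := by
        have := Finset.card_le_card hI
        rw [Finset.card_range] at this
        omega

theorem Z_one {h : ℕ} {I : Finset ℕ} (hI : I ⊆ Finset.range h) :
    (Z I).eval 1 ≤ (2 * h + 2) ^ (2 * h) := by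
  rw [Z, eval_prod]
  calc ∏ j ∈ I, eval 1 ((X + C (j + 1) : ℕ[X]) ^ 2) ≤ ∏ j ∈ I, (2 * h + 2) ^ 2 := by
        refine Finset.prod_le_prod' fun j hj => ?_
        have hj' := Finset.mem_range.1 (hI hj)
        rw [eval_pow, eval_add, eval_X, eval_C]
        exact Nat.pow_le_pow_left (by omega) 2
    _ = ((2 * h + 2) ^ 2) ^ I.card := by rw [Finset.prod_const]
    _ ≤ ((2 * h + 2) ^ 2) ^ h := Nat.pow_le_pow_right (by positivity) (by
        have := Finset.card_le_card hI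
        rwa [Finset.card_range] at this)
    _ = _ := by rw [← pow_mul]

theorem Z_eval (I : Finset ℕ) (x : ℤ) : (Z I).eval₂ (Nat.castRingHom ℤ) x =
    ∏ j ∈ I, (x + ((j : ℤ) + 1)) ^ 2 := by
  rw [Z, eval₂_finsetProd]
  refine Finset.prod_congr rfl fun j _ => ?_
  rw [eval₂_pow, eval₂_add, eval₂_X, eval₂_C]
  simp

/-- `e_I` -/
def e (h θ : ℕ) (I : Finset ℕ) : ℕ := ∏ j ∈ Finset.range h \ I, (θ - (j + 1)) ^ 2

/-- the place `J_I` -/
def P (h θ : ℕ) (I : Finset ℕ) : ℕ := (∏ j ∈ I, (θ + j + 1) ^ 2) * e h θ I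

theorem e_neg {h θ : ℕ} (hθ : h ≤ θ) {I : Finset ℕ} (hI : I ⊆ Finset.range h) :
    (e h θ I : ℤ) * (Z I).eval₂ (Nat.castRingHom ℤ) (-(θ : ℤ)) =
      ((∏ j ∈ Finset.range h, (θ - (j + 1)) ^ 2 : ℕ) : ℤ) := by
  rw [Z_eval, ← Finset.prod_sdiff hI, e]
  push_cast
  congr 1
  refine Finset.prod_congr rfl fun j hj => ?_
  have hj' := Finset.mem_range.1 (hI hj)
  rw [Nat.cast_sub (by omega)]
  push_cast
  ring

theorem e_pos {h θ : ℕ} {I : Finset ℕ} :
    (e h θ I : ℤ) * (Z I).eval₂ (Nat.castRingHom ℤ) (θ : ℤ) = (P h θ I : ℤ) := by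
  rw [Z_eval, P]
  push_cast
  rw [mul_comm]
  congr 1

theorem P_le {h θ : ℕ} (hθ : h ≤ θ) {I : Finset ℕ} (hI : I ⊆ Finset.range h) :
    P h θ I ≤ (2 * θ) ^ (2 * h) := by
  have h1 : ∏ j ∈ I, (θ + j + 1) ^ 2 ≤ ((2 * θ) ^ 2) ^ I.card := by
    rw [← Finset.prod_const]
    refine Finset.prod_le_prod' fun j hj => ?_
    have hj' := Finset.mem_range.1 (hI hj)
    exact Nat.pow_le_pow_left (by omega) 2
  have h2 : e h θ I ≤ ((2 * θ) ^ 2) ^ (Finset.range h \ I).card := by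
    rw [← Finset.prod_const]
    refine Finset.prod_le_prod' fun j _ => ?_
    exact Nat.pow_le_pow_left (by omega) 2
  have h3 : (Finset.range h \ I).card + I.card = h := by
    rw [Finset.card_sdiff_add_card_eq_card hI, Finset.card_range]
  calc P h θ I ≤ ((2 * θ) ^ 2) ^ I.card * ((2 * θ) ^ 2) ^ (Finset.range h \ I).card :=
        Nat.mul_le_mul h1 h2
    _ = ((2 * θ) ^ 2) ^ h := by rw [← pow_add, add_comm, h3]
    _ = _ := by rw [← pow_mul]

end CJ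

/-- patterns with `exp (c (log k / log log k)^(1/2))` places `< k` and the exponent `1/2 + ε` -/
theorem more_places (hL : S_LIFT) (hG : S_GEO) (hC : S_CIR) (hD : S_DIS) (hT : S_CHT) {ε : ℝ}
    (hε : 0 < ε) : ∃ c : ℝ, 0 < c ∧ ∃ k₀ : ℕ, ∀ k : ℕ, k₀ ≤ k → ∃ m : ℕ,
      Real.exp (c * √(Real.log k / Real.log (Real.log k))) ≤ m ∧
        ∃ J : Fin m → ℕ, Function.Injective J ∧ (∀ t, J t < k) ∧ Small J (1 / 2 + ε) := by
  obtain ⟨q₀, hq₀⟩ := exists_nat_gt (3 / (2 * ε))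
  set q : ℕ := max 1 q₀ with hq
  have hq1 : 1 ≤ q := le_max_left _ _
  have hqε : 3 / (2 * ε) < q := hq₀.trans_le (by exact_mod_cast le_max_right 1 q₀)
  have hq0 : (0 : ℝ) < q := by exact_mod_cast hq1
  have hq1' : (1 : ℝ) ≤ q := by exact_mod_cast hq1
  obtain ⟨c, hc, k₀, h⟩ := hT q hq1
  refine ⟨c, hc, k₀, fun k hk => ?_⟩
  obtain ⟨h, hh1, hlt, hexp⟩ := h k hk
  set b : ℕ := 2 * h + 2 with hb
  have hb1 : 1 ≤ b := by omega
  set H : ℕ := b ^ (2 * h) with hH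
  set θ : ℕ := b ^ (2 * h * q) with hθ
  set T : ℕ := 2 * h * q with hTT
  have hT1 : 1 ≤ T := Nat.mul_pos (by omega) hq1
  have hbθ : b ^ h ≤ θ := Nat.pow_le_pow_right hb1 (by nlinarith)
  have hbθ2 : b ≤ θ := by
    calc b = b ^ 1 := (pow_one b).symm
      _ ≤ θ := Nat.pow_le_pow_right hb1 hT1
  have hhθ : h < θ := by omega
  set F := Finset.powerset (Finset.range h) with hF
  have hFc : F.card = 2 ^ h := by rw [hF, Finset.card_powerset, Finset.card_range]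
  set φ := F.equivFin.symm with hφ
  have hsub : ∀ i : Fin F.card, (φ i : Finset ℕ) ⊆ Finset.range h := fun i =>
    Finset.mem_powerset.1 (φ i).2
  obtain ⟨R, E, hR, hEc, hRE⟩ := hC F.card (2 * h) H θ T θ (fun i => CJ.Z (φ i))
    (fun i => (CJ.P h θ (φ i) : ℤ)) (fun i => (CJ.e h θ (φ i) : ℤ))
    ((∏ j ∈ Finset.range h, (θ - (j + 1)) ^ 2 : ℕ) : ℤ) (by omega)
    (Nat.one_le_pow _ _ (by omega)) le_rfl (fun i => CJ.Z_deg (hsub i))
    (fun i => CJ.Z_one (hsub i)) (fun i => CJ.e_neg hhθ.le (hsub i)) (fun i => CJ.e_pos)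
  refine ⟨F.card, ?_, fun i => CJ.P h θ (φ i), ?_, fun i => ?_, ?_⟩
  · rw [hFc]
    push_cast
    exact hexp
  · intro i j hij
    have h1 := hD h θ hbθ hhθ _ _ (hsub i) (hsub j) hij
    exact φ.injective (Subtype.ext h1)
  · refine (CJ.P_le hhθ.le (hsub i)).trans_lt (lt_of_le_of_lt ?_ hlt)
    have h1 : 2 * θ ≤ b ^ (2 * h * q + 1) := by
      rw [pow_succ, mul_comm]
      exact Nat.mul_le_mul_left _ (by omega)
    calc (2 * θ) ^ (2 * h) ≤ (b ^ (2 * h * q + 1)) ^ (2 * h) := Nat.pow_le_pow_left h1 _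
      _ = b ^ ((2 * h * q + 1) * (2 * h)) := (pow_mul _ _ _).symm
      _ ≤ b ^ (6 * q * h ^ 2) := Nat.pow_le_pow_right hb1 (by nlinarith [Nat.mul_le_mul hh1 hq1, Nat.mul_le_mul (Nat.mul_le_mul hh1 hq1) (le_refl h)])
  · set s' : ℝ := ((q : ℝ) + 1) ^ 2 / (2 * q ^ 2) with hs'
    have hs'0 : 0 ≤ s' := by positivity
    have hs's : s' < 1 / 2 + ε := by
      rw [hs', div_lt_iff₀ (by positivity)]
      rw [div_lt_iff₀ (by positivity)] at hqε
      nlinarith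
    have hR2 : 2 ≤ R.card := by
      rw [hR]
      calc 2 ≤ θ := by omega
        _ = θ ^ 1 := (pow_one θ).symm
        _ ≤ θ ^ (2 * T) := Nat.pow_le_pow_right (by omega) (by omega)
    have hcard : ∀ i, ((E i).card : ℝ) ≤ (R.card : ℝ) ^ s' := by
      intro i
      have h1 : ((E i).card : ℝ) ≤ (((θ * H) ^ (T + 2 * h) : ℕ) : ℝ) := by exact_mod_cast hEc i
      refine h1.trans ?_
      rw [hR]
      have hb0 : (0 : ℝ) < b := by exact_mod_cast (by omega : 0 < b)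
      have e1 : (((θ * H) ^ (T + 2 * h) : ℕ) : ℝ) =
          (b : ℝ) ^ (((2 * h * q + 2 * h) * (2 * h * q + 2 * h) : ℕ) : ℝ) := by
        rw [Real.rpow_natCast, hθ, hH, hTT]
        push_cast
        rw [← pow_add, ← pow_mul]
      have e2 : (((θ ^ (2 * T) : ℕ) : ℝ)) ^ s' =
          (b : ℝ) ^ ((2 * h * q * (2 * (2 * h * q)) : ℕ) * s') := by
        rw [Real.rpow_mul hb0.le, Real.rpow_natCast, hθ, hTT]
        push_cast
        rw [← pow_mul]
      rw [e1, e2]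
      refine le_of_eq ?_
      congr 1
      rw [hs']
      push_cast
      field_simp
    obtain ⟨M, hM, Δ, hΔ, hΔc⟩ := hL F.card (fun i => CJ.P h θ (φ i)) s' (1 / 2 + ε) R E
      (by rw [hFc]; exact Nat.one_le_two_pow) hs'0 hs's hR2 hRE hcard
    intro n
    exact hG n F.card (fun i => CJ.P h θ (φ i)) M Δ (1 / 2 + ε) (n * (1 / 2 + ε))
      (by rw [hFc]; exact Nat.one_le_two_pow) hM hΔ (by positivity) le_rfl hΔc

end Pool.Agent.H85AK
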