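import Pool.Agent.H85AK.Stm

/-!
# Patterns: the self-similar sets (piece GEO)
-/

set_option autoImplicit false

namespace Pool.Agent.H85AK

open Helper66x.AK

/-- patterns in the self-similar set -/
theorem K_pat {M m : ℕ} (hM : 2 ≤ M) (hm : 1 ≤ m) {Δ : Finset ℤ} {J : Fin m → ℕ}
    (hΔ : PatZ J M Δ) {x : ℝ} (h0 : 0 ≤ x) (h1 : x ≤ 1) :
    ∃ a : ℝ, ∀ i : Fin m, a + (J i : ℝ) * x ∈ K M Δ := by
  obtain ⟨L, hL⟩ := exists_L Δ
  obtain ⟨r, hr, rfl⟩ := exists_digits hM h0 h1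
  let i₀ : Fin m := ⟨0, hm⟩
  unfold PatZ at hΔ
  choose! α hα using hΔ
  refine ⟨val M fun i => α (r i), fun j => ⟨fun i => α (r i) + (J j : ℤ) * r i,
    fun i => hα (r i) (hr i).1 (hr i).2 j, ?_⟩⟩
  have s1 := summable_val hM (L := L + J i₀ * M) (d := fun i => α (r i)) fun i => by
    have h1 := hL _ (hα (r i) (hr i).1 (hr i).2 i₀)
    have h2 : 0 ≤ (J i₀ : ℤ) * r i := mul_nonneg (by positivity) (hr i).1
    have h3 : (J i₀ : ℤ) * r i ≤ J i₀ * M :=
      mul_le_mul_of_nonneg_left (hr i).2.le (by positivity)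
    rw [abs_le] at h1 ⊢
    push_cast
    constructor <;> linarith [h1.1, h1.2]
  have s2 := summable_val hM (L := M) (d := r) fun i => by
    rw [abs_of_nonneg (hr i).1]
    exact (hr i).2.le
  unfold val
  rw [← tsum_mul_left, ← s1.tsum_add (s2.mul_left (J j : ℝ))]
  refine tsum_congr fun i => ?_
  push_cast
  ring

theorem t_GEO : S_GEO := by
  intro n m J M Δ τ s hm hM hP hτ hs hΔ
  refine ⟨cubeOf n (K M Δ), cubeOf_compact n (K_compact hM Δ), ?_, assouad_K n hM hτ hs hΔ⟩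
  intro r hr
  have h : ∀ x : ℝ, 0 ≤ x → x ≤ 1 → ∃ a : ℝ, ∀ i : Fin m, a + (J i : ℝ) * x ∈ K M Δ :=
    fun x h0 h1 => K_pat hM hm hP h0 h1
  choose! a ha using h
  refine ⟨WithLp.toLp 2 fun i => a (r i), fun j i => ?_⟩
  have := ha (r i) (hr i).1 (hr i).2 j
  simpa using this

end Pool.Agent.H85AK
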