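import Pool.Agent.H85AK.Stm2

/-!
# Piece HAR (helper75): harmonic patterns
-/

set_option autoImplicit false

noncomputable section

namespace Pool.Agent.H85AK

namespace HAR

/-- `L`, the product of the numbers `X + s + 1`, `s < m` -/
def L (m X : ℕ) : ℕ := ∏ s ∈ Finset.range m, (X + s + 1)

theorem J_mul (m X : ℕ) (t : Fin m) : L m X / (X + (t : ℕ) + 1) * (X + (t : ℕ) + 1) = L m X := by
  apply Nat.div_mul_cancel
  exact Finset.dvd_prod_of_mem (fun s => X + s + 1) (Finset.mem_range.mpr t.2)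

theorem card_R (X : ℕ) (hX : 1 ≤ X) : (Finset.Ico (-((X : ℤ) * (X - 1))) (X : ℤ)).card = X ^ 2 := by
  rw [Int.card_Ico]
  have : (X : ℤ) - -((X : ℤ) * (X - 1)) = ((X ^ 2 : ℕ) : ℤ) := by push_cast; ring
  rw [this, Int.toNat_natCast]

end HAR

theorem t_HAR (hL : S_LIFT) (hG : S_GEO) : S_HAR := by
  intro m X s hm hX hs
  set J : Fin m → ℕ := fun t : Fin m => (∏ s ∈ Finset.range m, (X + s + 1)) / (X + (t : ℕ) + 1) with hJ
  have hJm : ∀ t : Fin m, J t * (X + (t : ℕ) + 1) = HAR.L m X := fun t => HAR.J_mul m X t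
  have hlogX : 0 < Real.log X := Real.log_pos (by exact_mod_cast (by omega : 1 < X))
  have hlogm : 0 ≤ Real.log (m + 1) := Real.log_nonneg (by
    have : (0 : ℝ) ≤ m := Nat.cast_nonneg m
    linarith)
  set s' : ℝ := 1 / 2 + Real.log (m + 1) / (2 * Real.log X) with hs'
  have hs'0 : 0 ≤ s' := by positivity
  have hs0 : 0 ≤ s := hs'0.trans hs.le
  have hXpos : (0 : ℤ) < X := by exact_mod_cast (by omega : 0 < X)
  have hR : 2 ≤ (Finset.Ico (-((X : ℤ) * (X - 1))) (X : ℤ)).card := by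
    rw [HAR.card_R X (by omega)]
    nlinarith
  have h1 : ∀ r ∈ Finset.Ico (-((X : ℤ) * (X - 1))) (X : ℤ), ∃ a : ℤ, ∀ i : Fin m,
      a + (J i : ℤ) * r ∈ (Finset.range ((m + 1) * X)).image (fun n : ℕ => (J i : ℤ) * n) := by
    intro r hr
    rw [Finset.mem_Ico] at hr
    have hy0 : 0 ≤ r % X := Int.emod_nonneg _ hXpos.ne'
    have hy1 : r % X < X := Int.emod_lt_of_pos _ hXpos
    have hdm : r % X + X * (r / X) = r := Int.emod_add_mul_ediv r X
    have hx1 : r / X ≤ 0 := by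
      by_contra hcon
      push Not at hcon
      nlinarith
    have hx2 : -((X : ℤ) - 1) ≤ r / X := by
      by_contra hcon
      push Not at hcon
      nlinarith
    refine ⟨(HAR.L m X : ℤ) * (-(r / X)), fun i => ?_⟩
    rw [Finset.mem_image]
    have hi : (i : ℕ) < m := i.2
    have hi' : ((i : ℕ) : ℤ) + 1 ≤ m := by exact_mod_cast hi
    have hi0 : (0 : ℤ) ≤ ((i : ℕ) : ℤ) := Int.natCast_nonneg _
    have hv0 : 0 ≤ (((i : ℕ) : ℤ) + 1) * (-(r / X)) + r % X := by nlinarith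
    have hv1 : (((i : ℕ) : ℤ) + 1) * (-(r / X)) + r % X < ((m + 1) * X : ℕ) := by
      push_cast
      nlinarith
    refine ⟨((((i : ℕ) : ℤ) + 1) * (-(r / X)) + r % X).toNat, ?_, ?_⟩
    · rw [Finset.mem_range]
      omega
    · rw [Int.toNat_of_nonneg hv0]
      have hc : (J i : ℤ) * ((X : ℤ) + (i : ℕ) + 1) = (HAR.L m X : ℤ) := by exact_mod_cast hJm i
      rw [← hc]
      linear_combination (J i : ℤ) * hdm
  have h2 : ∀ i : Fin m, ((((Finset.range ((m + 1) * X)).image (fun n : ℕ => (J i : ℤ) * n)).card : ℕ) : ℝ) ≤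
      ((Finset.Ico (-((X : ℤ) * (X - 1))) (X : ℤ)).card : ℝ) ^ s' := by
    intro i
    rw [HAR.card_R X (by omega)]
    have hX0 : (0 : ℝ) < X := by exact_mod_cast (by omega : 0 < X)
    have hm0 : (0 : ℝ) < (m : ℝ) + 1 := by positivity
    have e1 : (((X ^ 2 : ℕ) : ℝ)) ^ s' = ((m : ℝ) + 1) * X := by
      push_cast
      rw [← Real.rpow_natCast, ← Real.rpow_mul hX0.le]
      have e2 : ((2 : ℕ) : ℝ) * s' = 1 + Real.log (m + 1) / Real.log X := by
        rw [hs']
        push_cast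
        field_simp
      rw [e2, Real.rpow_add hX0, Real.rpow_one, Real.rpow_def_of_pos hX0]
      have e3 : Real.log X * (Real.log (m + 1) / Real.log X) = Real.log (m + 1) := by
        field_simp
      rw [e3, Real.exp_log hm0]
      ring
    rw [e1]
    calc ((((Finset.range ((m + 1) * X)).image (fun n : ℕ => (J i : ℤ) * n)).card : ℕ) : ℝ)
        ≤ (((m + 1) * X : ℕ) : ℝ) := by
          exact_mod_cast (Finset.card_image_le.trans (by rw [Finset.card_range]))
      _ = ((m : ℝ) + 1) * X := by push_cast; ring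
  obtain ⟨M, hM, Δ, hP, hΔ⟩ := hL m J s' s _ _ hm hs'0 hs hR h1 h2
  intro n
  exact hG n m J M Δ s (n * s) hm hM hP hs0 le_rfl hΔ

end Pool.Agent.H85AK
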