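import Pool.Agent.H85AK.PAT

/-!
# Patterns with many places

(A) almost all `m`-tuples of places `< k`, `m ≤ c log log k`; (B) harmonic patterns with
`m ≥ c log k / log log k` places `< k`. Pieces: SZB, ASY, HAR, HAS.
-/

set_option autoImplicit false

namespace Pool.Agent.H85AK

/-- there are compact sets in `ℝ^n` of Assouad dimension at most `n s` which contain `a + J_i r`, `i < m`,
for every `r ∈ [0,1]^n` -/
def Small {m : ℕ} (J : Fin m → ℕ) (s : ℝ) : Prop :=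
  ∀ n : ℕ, ∃ B : Set (EuclideanSpace ℝ (Fin n)), IsCompact B ∧
    (∀ r : EuclideanSpace ℝ (Fin n), (∀ i, r i ∈ Set.Icc (0 : ℝ) 1) →
      ∃ a : EuclideanSpace ℝ (Fin n), ∀ i, a + (J i : ℝ) • r ∈ B) ∧
    Helper66x.AK.AssouadLE (n * s) B

/-- **SZB** (explicit constant in t_SZ of SZ.lean). In the proof of `t_SZ` the set `T` has at most
`(2N)^(2 D^l)` elements and `(SZx_lin e f).totalDegree ≤ 2 l D + 1` (`totalDegree_sub`,
`totalDegree_mul`, `totalDegree_finset_prod`, `totalDegree_X`, ...). -/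
def S_SZB : Prop := ∀ (l D N : ℕ), 1 ≤ D → 1 ≤ N → ∀ k : ℕ, 1 ≤ k →
  {J : Fin (l + 3) → Fin k | ¬ Indep D N (J 0 : ℕ) (J 1 : ℕ) (J 2 : ℕ)
    (fun i : Fin l => ((J ⟨i + 3, by omega⟩ : ℕ) : ℤ))}.ncard ≤
    (2 * N) ^ (2 * D ^ l) * (2 * l * D + 1) * k ^ (l + 2)

/-- **ASY** (calculus). Proof: `c = 1 / (2 (1 + log D))`, so `D^l ≤ (log k)^(1/2)`; then
`(2N)^(2 D^l) ≤ exp (2 log (2N) (log k)^(1/2)) ≤ k^(1/4)` and `2 l D + 1 ≤ k^(1/4)` for large `k`. -/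
def S_ASY : Prop := ∀ (D N : ℕ), 1 ≤ D → 1 ≤ N → ∃ c : ℝ, 0 < c ∧ ∃ k₀ : ℕ, ∀ k : ℕ, k₀ ≤ k →
  ∀ l : ℕ, (l : ℝ) ≤ c * Real.log (Real.log k) →
    (((2 * N) ^ (2 * D ^ l) * (2 * l * D + 1) : ℕ) : ℝ) ≤ (k : ℝ) ^ (1 / 2 : ℝ)

/-- **HAR** (harmonic patterns). `L = ∏_{s<m} (X + s + 1)`, `J t = L / (X + t + 1)`, `t < m`.
Proof: `R = {y - X x : 0 ≤ x, y < X}` has `X^2` elements (`X ≥ 2`), and with `a = L x`
`a + J_t (y - X x) = J_t ((t + 1) x + y)` because `J_t (X + t + 1) = L`; there are at most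
`(t + 2) X ≤ (m + 1) X` such values, and `(m + 1) X ≤ (X^2)^s'` for
`s' = 1/2 + log (m + 1) / (2 log X) < s`. Then LIFT (with `s' < s`) and GEO with `τ = s`. -/
def S_HAR : Prop := ∀ (m X : ℕ) (s : ℝ), 1 ≤ m → 2 ≤ X →
  1 / 2 + Real.log (m + 1) / (2 * Real.log X) < s →
  Small (fun t : Fin m => (∏ s ∈ Finset.range m, (X + s + 1)) / (X + (t : ℕ) + 1)) s

/-- **HAS** (choice of the parameters). Proof: given `ε`, `0 < ε`; `X = ⌈(m + 1)^(1/ε)⌉ + 1`, so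
`log (m + 1) / (2 log X) ≤ ε / 2 < ε` (for `m ≥ 1`); all `J t ≤ L ≤ (X + m)^m ≤ exp (C m log (m + 1))`
for a constant `C = C(ε)` (`m ≥ 2`), which is `< k` for `m = ⌊c log k / log log k⌋`, `c` small, `k`
large; `J` is injective (strictly decreasing since `J t (X + t + 1) = L > 0`). -/
def S_HAS : Prop := ∀ ε : ℝ, 0 < ε → ∃ c : ℝ, 0 < c ∧ ∃ k₀ : ℕ, ∀ k : ℕ, k₀ ≤ k → ∃ m : ℕ, 1 ≤ m ∧
  c * Real.log k / Real.log (Real.log k) ≤ m ∧ ∃ X : ℕ, 2 ≤ X ∧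
    1 / 2 + Real.log (m + 1) / (2 * Real.log X) < 1 / 2 + ε ∧
    Function.Injective (fun t : Fin m => (∏ s ∈ Finset.range m, (X + s + 1)) / (X + (t : ℕ) + 1)) ∧
    ∀ t : Fin m, (∏ s ∈ Finset.range m, (X + s + 1)) / (X + (t : ℕ) + 1) < k

end Pool.Agent.H85AK
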