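import Mathlib
import Pool.Agent.H85AK.Stm2

/-!
# Piece HAS of project AKP (helper85), written by helper74: choice of the parameters of harmonic patterns
-/

set_option autoImplicit false

namespace Pool.Agent.H85AK

namespace HAS

open Filter Topology

theorem ev (c : ℝ) (hc : 0 < c) : ∀ᶠ k : ℕ in atTop, 2 ≤ Real.log k ∧ 1 ≤ Real.log (Real.log k) ∧
    Real.log (Real.log k) ≤ c * Real.log k := by
  have h1 : ∀ᶠ y : ℝ in atTop, 2 ≤ y ∧ 1 ≤ Real.log y ∧ Real.log y ≤ c * y := by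
    have h2 : ∀ᶠ y : ℝ in atTop, ‖Real.log y‖ ≤ c * ‖y‖ :=
      (Real.isLittleO_log_id_atTop).def hc
    filter_upwards [h2, eventually_ge_atTop (2 : ℝ), Real.tendsto_log_atTop.eventually_ge_atTop 1] with y h3 h4 h5
    refine ⟨h4, h5, ?_⟩
    rw [Real.norm_eq_abs, Real.norm_eq_abs, abs_of_nonneg (by linarith), abs_of_nonneg (by linarith)] at h3
    exact h3
  exact (Real.tendsto_log_atTop.comp tendsto_natCast_atTop_atTop).eventually h1

end HAS

open Filter Topology in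
/-- **HAS.** -/
theorem t_HAS : S_HAS := by
  intro ε hε
  obtain ⟨p, hp⟩ := exists_nat_ge (1 / ε)
  have hε' : 0 < 1 / ε := by positivity
  have hp0 : (0 : ℝ) < p := lt_of_lt_of_le hε' hp
  have hc : (0 : ℝ) < 1 / (2 * ((p : ℝ) + 1)) := by positivity
  obtain ⟨k₀, hk₀⟩ := eventually_atTop.1 (HAS.ev _ hc)
  refine ⟨1 / (2 * ((p : ℝ) + 1)), hc, k₀, fun k hk => ?_⟩
  obtain ⟨h1, h2, h3⟩ := hk₀ k hk
  obtain ⟨y, hy⟩ : ∃ y, y = Real.log k := ⟨_, rfl⟩
  rw [← hy] at h1 h2 h3 ⊢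
  obtain ⟨z, hz⟩ : ∃ z, z = Real.log y := ⟨_, rfl⟩
  rw [← hz] at h2 h3 ⊢
  obtain ⟨c, hcc⟩ : ∃ c, c = 1 / (2 * ((p : ℝ) + 1)) := ⟨_, rfl⟩
  rw [← hcc] at h3 hc ⊢
  have hz0 : 0 < z := by linarith
  have hy0 : 0 < y := by linarith
  have hq1 : 1 ≤ c * y / z := by
    rw [le_div_iff₀ hz0]
    linarith
  obtain ⟨m, hm⟩ : ∃ m : ℕ, m = ⌈c * y / z⌉₊ := ⟨_, rfl⟩
  have hm1 : c * y / z ≤ m := by
    rw [hm]
    exact Nat.le_ceil _
  have hm2 : (m : ℝ) < c * y / z + 1 := by
    rw [hm]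
    exact Nat.ceil_lt_add_one (by positivity)
  have hm0 : 1 ≤ m := by
    have : (1 : ℝ) ≤ m := hq1.trans hm1
    exact_mod_cast this
  have hm3 : (m : ℝ) ≤ 2 * (c * y / z) := by linarith
  have hc2 : c ≤ 1 / 4 := by
    have hp1 : (1 : ℝ) ≤ p := by
      have : 0 < p := by exact_mod_cast hp0
      exact_mod_cast this
    rw [hcc]
    apply one_div_le_one_div_of_le (by norm_num)
    linarith
  have hm4 : (m : ℝ) + 1 ≤ y := by
    have h4 : c * y / z ≤ c * y := div_le_self (by positivity) h2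
    have h5 : c * y ≤ 1 / 4 * y := mul_le_mul_of_nonneg_right hc2 hy0.le
    linarith
  have hm5 : Real.log (m + 1) ≤ z := by
    rw [hz]
    exact Real.log_le_log (by positivity) hm4
  refine ⟨m, hm0, hm1, (m + 1) ^ p, ?_, ?_, ?_, ?_⟩
  · have hp1 : 1 ≤ p := by
      have : 0 < p := by exact_mod_cast hp0
      omega
    calc 2 ≤ m + 1 := by omega
      _ = (m + 1) ^ 1 := (pow_one _).symm
      _ ≤ (m + 1) ^ p := Nat.pow_le_pow_right (by omega) hp1
  · have hl : 0 < Real.log ((m : ℝ) + 1) := Real.log_pos (by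
      have : (1 : ℝ) ≤ m := by exact_mod_cast hm0
      linarith)
    have h4 : Real.log (((m + 1) ^ p : ℕ) : ℝ) = p * Real.log ((m : ℝ) + 1) := by
      push_cast
      rw [Real.log_pow]
    rw [h4]
    have h5 : Real.log ((m : ℝ) + 1) / (2 * (p * Real.log ((m : ℝ) + 1))) = 1 / (2 * p) := by
      field_simp
    rw [h5]
    have h6 : 1 / (2 * (p : ℝ)) ≤ ε / 2 := by
      rw [div_le_iff₀ (by positivity)]
      rw [div_le_iff₀ hε] at hp
      linarith
    linarith
  · intro t t' h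
    have hd : ∀ t : Fin m, ((m + 1) ^ p + (t : ℕ) + 1) ∣ ∏ s ∈ Finset.range m, ((m + 1) ^ p + s + 1) := fun t =>
      Finset.dvd_prod_of_mem (fun s => (m + 1) ^ p + s + 1) (Finset.mem_range.2 t.2)
    have hL : 0 < ∏ s ∈ Finset.range m, ((m + 1) ^ p + s + 1) := Finset.prod_pos fun s _ => by omega
    have e1 := Nat.div_mul_cancel (hd t)
    have e2 := Nat.div_mul_cancel (hd t')
    have h' : (∏ s ∈ Finset.range m, ((m + 1) ^ p + s + 1)) / ((m + 1) ^ p + (t : ℕ) + 1) =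
        (∏ s ∈ Finset.range m, ((m + 1) ^ p + s + 1)) / ((m + 1) ^ p + (t' : ℕ) + 1) := h
    rw [← h'] at e2
    have hpos : 0 < (∏ s ∈ Finset.range m, ((m + 1) ^ p + s + 1)) / ((m + 1) ^ p + (t : ℕ) + 1) := by
      rcases Nat.eq_zero_or_pos ((∏ s ∈ Finset.range m, ((m + 1) ^ p + s + 1)) / ((m + 1) ^ p + (t : ℕ) + 1)) with h0 | h0
      · rw [h0, zero_mul] at e1
        omega
      · exact h0
    have e3 := Nat.eq_of_mul_eq_mul_left hpos (e1.trans e2.symm)
    exact Fin.ext (by omega)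
  · intro t
    have hL : 0 < ∏ s ∈ Finset.range m, ((m + 1) ^ p + s + 1) := Finset.prod_pos fun s _ => by omega
    have hX : 1 ≤ (m + 1) ^ p := Nat.one_le_pow _ _ (by omega)
    refine lt_of_lt_of_le (Nat.div_lt_self hL (by omega)) ?_
    have h4 : ∏ s ∈ Finset.range m, ((m + 1) ^ p + s + 1) ≤ ((m + 1) ^ (p + 1)) ^ m := by
      have h5 : ∏ s ∈ Finset.range m, ((m + 1) ^ p + s + 1) ≤ ∏ _s ∈ Finset.range m, (m + 1) ^ (p + 1) := by
        refine Finset.prod_le_prod' fun s hs => ?_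
        rw [Finset.mem_range] at hs
        rw [pow_succ]
        nlinarith
      rwa [Finset.prod_const, Finset.card_range] at h5
    refine h4.trans ?_
    have hk0 : (0 : ℝ) < k := by
      rcases Nat.eq_zero_or_pos k with h0 | h0
      · exfalso
        rw [h0, Nat.cast_zero, Real.log_zero] at hy
        linarith
      · exact_mod_cast h0
    have h6 : (((m + 1) ^ (p + 1)) ^ m : ℝ) ≤ k := by
      rw [← Real.log_le_log_iff (by positivity) hk0, Real.log_pow, Real.log_pow, ← hy]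
      push_cast
      have hl0 : 0 ≤ Real.log ((m : ℝ) + 1) := Real.log_nonneg (by
        have : (0 : ℝ) ≤ m := Nat.cast_nonneg m
        linarith)
      calc (m : ℝ) * (((p : ℝ) + 1) * Real.log ((m : ℝ) + 1))
          ≤ (2 * (c * y / z)) * (((p : ℝ) + 1) * z) :=
            mul_le_mul hm3 (mul_le_mul_of_nonneg_left hm5 (by positivity)) (by positivity) (by positivity)
        _ = y * (c * (2 * ((p : ℝ) + 1))) := by
          field_simp
        _ = y := by
          rw [hcc]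
          field_simp
    exact_mod_cast h6

end Pool.Agent.H85AK
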