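import Pool.Agent.H85AK.Stm2

/-!
# Harmonic patterns: divisors of a number in a short interval
-/

set_option autoImplicit false

noncomputable section

namespace Pool.Agent.H85AK

namespace HRG

theorem card_R (X : ℕ) (hX : 1 ≤ X) : (Finset.Ico (-((X : ℤ) * (X - 1))) (X : ℤ)).card = X ^ 2 := by
  rw [Int.card_Ico]
  have : (X : ℤ) - -((X : ℤ) * (X - 1)) = ((X ^ 2 : ℕ) : ℤ) := by push_cast; ring
  rw [this, Int.toNat_natCast]

end HRG

/-- the pattern `L / (X + t_i + 1)`, `t_i < W`, for divisors `X + t_i + 1` of `L` -/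
theorem small_harmonic (hL : S_LIFT) (hG : S_GEO) {m L X W : ℕ} (t : Fin m → ℕ) {s : ℝ} (hm : 1 ≤ m)
    (hX : 2 ≤ X) (ht : ∀ i, t i < W) (hd : ∀ i, X + t i + 1 ∣ L)
    (hs : 1 / 2 + Real.log (W + 1) / (2 * Real.log X) < s) :
    Small (fun i => L / (X + t i + 1)) s := by
  set J : Fin m → ℕ := fun i => L / (X + t i + 1) with hJ
  have hJm : ∀ i : Fin m, J i * (X + t i + 1) = L := fun i => Nat.div_mul_cancel (hd i)
  have hlogX : 0 < Real.log X := Real.log_pos (by exact_mod_cast (by omega : 1 < X))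
  have hlogm : 0 ≤ Real.log (W + 1) := Real.log_nonneg (by
    have : (0 : ℝ) ≤ W := Nat.cast_nonneg W
    linarith)
  set s' : ℝ := 1 / 2 + Real.log (W + 1) / (2 * Real.log X) with hs'
  have hs'0 : 0 ≤ s' := by positivity
  have hs0 : 0 ≤ s := hs'0.trans hs.le
  have hXpos : (0 : ℤ) < X := by exact_mod_cast (by omega : 0 < X)
  have hR : 2 ≤ (Finset.Ico (-((X : ℤ) * (X - 1))) (X : ℤ)).card := by
    rw [HRG.card_R X (by omega)]
    nlinarith
  have h1 : ∀ r ∈ Finset.Ico (-((X : ℤ) * (X - 1))) (X : ℤ), ∃ a : ℤ, ∀ i : Fin m,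
      a + (J i : ℤ) * r ∈ (Finset.range ((W + 1) * X)).image (fun n : ℕ => (J i : ℤ) * n) := by
    intro r hr
    rw [Finset.mem_Ico] at hr
    have hy0 : 0 ≤ r % X := Int.emod_nonneg _ hXpos.ne'
    have hy1 : r % X < X := Int.emod_lt_of_pos _ hXpos
    have hdm : r % X + X * (r / X) = r := Int.emod_add_mul_ediv r X
    have hx1 : r / X ≤ 0 := by
      by_contra hcon
      push Not at hcon
      nlinarith
    have hx2 : -((X : ℤ) - 1) ≤ r / X := by
      by_contra hcon
      push Not at hcon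
      nlinarith
    refine ⟨(L : ℤ) * (-(r / X)), fun i => ?_⟩
    rw [Finset.mem_image]
    have hi' : ((t i : ℕ) : ℤ) + 1 ≤ W := by exact_mod_cast ht i
    have hi0 : (0 : ℤ) ≤ ((t i : ℕ) : ℤ) := Int.natCast_nonneg _
    have hv0 : 0 ≤ (((t i : ℕ) : ℤ) + 1) * (-(r / X)) + r % X := by nlinarith
    have hv1 : (((t i : ℕ) : ℤ) + 1) * (-(r / X)) + r % X < ((W + 1) * X : ℕ) := by
      push_cast
      nlinarith
    refine ⟨((((t i : ℕ) : ℤ) + 1) * (-(r / X)) + r % X).toNat, ?_, ?_⟩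
    · rw [Finset.mem_range]
      omega
    · rw [Int.toNat_of_nonneg hv0]
      have hc : (J i : ℤ) * ((X : ℤ) + (t i : ℕ) + 1) = (L : ℤ) := by exact_mod_cast hJm i
      rw [← hc]
      linear_combination (J i : ℤ) * hdm
  have h2 : ∀ i : Fin m, ((((Finset.range ((W + 1) * X)).image (fun n : ℕ => (J i : ℤ) * n)).card : ℕ) : ℝ) ≤
      ((Finset.Ico (-((X : ℤ) * (X - 1))) (X : ℤ)).card : ℝ) ^ s' := by
    intro i
    rw [HRG.card_R X (by omega)]
    have hX0 : (0 : ℝ) < X := by exact_mod_cast (by omega : 0 < X)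
    have hm0 : (0 : ℝ) < (W : ℝ) + 1 := by positivity
    have e1 : (((X ^ 2 : ℕ) : ℝ)) ^ s' = ((W : ℝ) + 1) * X := by
      push_cast
      rw [← Real.rpow_natCast, ← Real.rpow_mul hX0.le]
      have e2 : ((2 : ℕ) : ℝ) * s' = 1 + Real.log (W + 1) / Real.log X := by
        rw [hs']
        push_cast
        field_simp
      rw [e2, Real.rpow_add hX0, Real.rpow_one, Real.rpow_def_of_pos hX0]
      have e3 : Real.log X * (Real.log (W + 1) / Real.log X) = Real.log (W + 1) := by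
        field_simp
      rw [e3, Real.exp_log hm0]
      ring
    rw [e1]
    calc ((((Finset.range ((W + 1) * X)).image (fun n : ℕ => (J i : ℤ) * n)).card : ℕ) : ℝ)
        ≤ (((W + 1) * X : ℕ) : ℝ) := by
          exact_mod_cast (Finset.card_image_le.trans (by rw [Finset.card_range]))
      _ = ((W : ℝ) + 1) * X := by push_cast; ring
  obtain ⟨M, hM, Δ, hP, hΔ⟩ := hL m J s' s _ _ hm hs'0 hs hR h1 h2
  intro n
  exact hG n m J M Δ s (n * s) hm hM hP hs0 le_rfl hΔ

end Pool.Agent.H85AK
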