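import Pool.Agent.H85AK.Stm

/-!
# Piece LIFT (helper58): patterns of integers

Port of `Pool/Agent/Helper66x/AK/Hash.lean` (lift_prog) and `Pool/Agent/Helper66x/AK/Tensor.lean`
(power_step, tensor) from progressions to patterns.
-/

set_option autoImplicit false

namespace Pool.Agent.H85AK

open Finset Filter Topology Helper66x.AK

namespace LIFT

/-- from patterns modulo `p` to patterns of integers -/
theorem lift_pat {p : ℕ} [NeZero p] {m k : ℕ} (J : Fin m → ℕ) (hJ : ∀ i, J i < k)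
    (A D' T : Finset (ZMod p))
    (hprog : ∀ y ∈ A, ∃ b : ZMod p, ∀ i, b + (J i : ℕ) * y ∈ D')
    (hcov : ∀ x : ZMod p, ∃ u ∈ T, x - u ∈ A) :
    ∃ Δ : Finset ℤ, PatZ J p Δ ∧ Δ.card ≤ k * (T.card * (k * D'.card)) := by
  classical
  have hp0 : 0 < p := Nat.pos_of_ne_zero (NeZero.ne p)
  set D'' : Finset (ZMod p) := (T ×ˢ (Finset.range k ×ˢ D')).image fun q =>
    q.2.2 + (q.2.1 : ℕ) * q.1 with hD''
  refine ⟨(Finset.range k ×ˢ D'').image fun q => (q.2.val : ℤ) + (q.1 : ℕ) * (p : ℤ), ?_, ?_⟩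
  · intro r hr0 hrp
    obtain ⟨n, rfl⟩ := Int.eq_ofNat_of_zero_le hr0
    have hn : n < p := by exact_mod_cast hrp
    obtain ⟨u, hu, hxu⟩ := hcov (n : ZMod p)
    obtain ⟨b, hb⟩ := hprog _ hxu
    refine ⟨b.val, fun i => ?_⟩
    obtain ⟨j, hji⟩ : ∃ j, j = J i := ⟨_, rfl⟩
    have hj : j < k := by rw [hji]; exact hJ i
    have hbj : b + (j : ℕ) * ((n : ZMod p) - u) ∈ D' := by rw [hji]; exact hb i
    rw [← hji]
    have h1 : ((b.val + j * n : ℕ) : ZMod p) ∈ D'' := by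
      refine Finset.mem_image.mpr ⟨(u, (j, b + j * ((n : ZMod p) - u))),
        Finset.mem_product.mpr ⟨hu, Finset.mem_product.mpr ⟨Finset.mem_range.mpr hj,
          hbj⟩⟩, ?_⟩
      push_cast
      rw [ZMod.natCast_zmod_val]
      ring
    have h2 : (b.val + j * n) / p < k := by
      rw [Nat.div_lt_iff_lt_mul hp0]
      have h3 : b.val < p := ZMod.val_lt b
      obtain ⟨k', rfl⟩ : ∃ k', k = k' + 1 := ⟨k - 1, by omega⟩
      have h4 : j * n ≤ k' * p := Nat.mul_le_mul (by omega) hn.le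
      calc b.val + j * n < p + k' * p := by omega
        _ = (k' + 1) * p := by ring
    refine Finset.mem_image.mpr ⟨((b.val + j * n) / p, ((b.val + j * n : ℕ) : ZMod p)),
      Finset.mem_product.mpr ⟨Finset.mem_range.mpr h2, h1⟩, ?_⟩
    dsimp only
    rw [ZMod.val_natCast]
    have h3 := Nat.mod_add_div (b.val + j * n) p
    have h4 : (((b.val + j * n) % p : ℕ) : ℤ) + (((b.val + j * n) / p : ℕ) : ℤ) * (p : ℤ) =
        ((b.val + j * n : ℕ) : ℤ) := by
      rw [← Nat.cast_mul, ← Nat.cast_add, mul_comm ((b.val + j * n) / p) p, h3]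
    rw [h4]
    push_cast
    rfl
  · refine Finset.card_image_le.trans ?_
    rw [Finset.card_product, Finset.card_range]
    refine Nat.mul_le_mul_left _ (Finset.card_image_le.trans ?_)
    rw [Finset.card_product, Finset.card_product, Finset.card_range]

/-- the inequality for one power -/
theorem power_step {n k : ℕ} (J : Fin n → ℕ) (hJ : ∀ i, J i < k) {f : ℝ} (hf0 : 0 ≤ f)
    (hf : ∀ M : ℕ, 2 ≤ M → ∀ Δ : Finset ℤ, PatZ J M Δ → (M : ℝ) ^ f ≤ Δ.card)
    {ι : Type} [Fintype ι] [DecidableEq ι] (R D : Finset (ι → ℤ)) (hR : R.Nonempty)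
    (h : ∀ r ∈ R, ∃ a : ι → ℤ, ∀ s, a + (J s) • r ∈ D) {L : ℕ}
    (hL : ∀ x ∈ R, ∀ i, |x i| ≤ L) (m : ℕ) (hm : 2 * L ≤ R.card ^ m) :
    ((R.card : ℝ) ^ f) ^ m ≤ k * (3 * (m * R.card + 2) * (k * (D.card : ℝ) ^ m)) := by
  classical
  set N := R.card with hN
  have hN0 : 0 < N := Finset.card_pos.mpr hR
  have hNm : 0 < N ^ m := pow_pos hN0 m
  obtain ⟨p, hp, hp1, hp2⟩ := Nat.exists_prime_lt_and_le_two_mul (N ^ m) hNm.ne'
  have hpf : Fact p.Prime := ⟨hp⟩
  have hp0 : NeZero p := ⟨hp.ne_zero⟩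
  -- powers of the sets
  set Rm : Finset (Fin m × ι → ℤ) := (Fintype.piFinset fun _ : Fin m => R).image un with hRm
  set Dm : Finset (Fin m × ι → ℤ) := (Fintype.piFinset fun _ : Fin m => D).image un with hDm
  have hRc : Rm.card = N ^ m := by
    rw [hRm, Finset.card_image_of_injective _ un_injective, Fintype.card_piFinset,
      Finset.prod_const, Finset.card_univ, Fintype.card_fin]
  have hDc : Dm.card = D.card ^ m := by
    rw [hDm, Finset.card_image_of_injective _ un_injective, Fintype.card_piFinset,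
      Finset.prod_const, Finset.card_univ, Fintype.card_fin]
  obtain ⟨l, hl⟩ := exists_functional (p := p) Rm (by rw [hRc]; exact hp1.le) (L := L) (by
    intro x hx j
    obtain ⟨ρ, hρ, rfl⟩ := Finset.mem_image.mp hx
    exact hL _ (Fintype.mem_piFinset.mp hρ j.1) j.2) (by omega)
  set φ : (Fin m × ι → ℤ) → ZMod p := fun x => ∑ j, l j * (x j : ZMod p) with hφ
  choose! a ha using h
  have hcov : p ≤ 4 * (Rm.image φ).card := by
    rw [hRc] at hl
    have : N ^ m ≤ 2 * (Rm.image φ).card := hl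
    omega
  obtain ⟨T, hT, hT2⟩ := cover_log (Rm.image φ) hcov
  obtain ⟨Δ, hΔ, hΔc⟩ := lift_pat J hJ (Rm.image φ) (Dm.image φ) T (by
    intro y hy
    obtain ⟨x, hx, rfl⟩ := Finset.mem_image.mp hy
    obtain ⟨ρ, hρ, rfl⟩ := Finset.mem_image.mp hx
    rw [Fintype.mem_piFinset] at hρ
    refine ⟨φ (un fun i => a (ρ i)), fun s => ?_⟩
    refine Finset.mem_image.mpr ⟨un fun i => a (ρ i) + (J s) • ρ i, Finset.mem_image.mpr
      ⟨fun i => a (ρ i) + (J s) • ρ i, Fintype.mem_piFinset.mpr fun i => ha _ (hρ i) s, rfl⟩, ?_⟩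
    rw [hφ]
    dsimp only
    rw [Finset.mul_sum, ← Finset.sum_add_distrib]
    refine Finset.sum_congr rfl fun q _ => ?_
    have e1 : (un fun i => a (ρ i) + (J s) • ρ i) q =
        a (ρ q.1) q.2 + ((J s : ℕ) : ℤ) * ρ q.1 q.2 := by
      change (a (ρ q.1) + (J s) • ρ q.1) q.2 = _
      rw [Pi.add_apply, Pi.smul_apply, nsmul_eq_mul]
    have e2 : (un fun i => a (ρ i)) q = a (ρ q.1) q.2 := rfl
    have e3 : (un ρ) q = ρ q.1 q.2 := rfl
    rw [e1, e2, e3]
    push_cast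
    ring) hT2
  have h1 := hf p hp.two_le Δ hΔ
  have h2 : ((N : ℝ) ^ f) ^ m ≤ (p : ℝ) ^ f := by
    have h3 : ((N : ℝ) ^ f) ^ m = ((N : ℝ) ^ m) ^ f := by
      rw [← Real.rpow_natCast ((N : ℝ) ^ f) m, ← Real.rpow_mul (Nat.cast_nonneg _), mul_comm,
        Real.rpow_mul (Nat.cast_nonneg _), Real.rpow_natCast]
    rw [h3]
    refine Real.rpow_le_rpow (by positivity) ?_ hf0
    exact_mod_cast hp1.le
  have h3 : T.card ≤ 3 * (m * N + 2) := by
    refine hT.trans (Nat.mul_le_mul_left _ ?_)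
    have h4 : p ≤ 2 ^ (1 + m * N) := by
      have h5 : N ^ m ≤ 2 ^ (m * N) := by
        rw [mul_comm, pow_mul]
        exact Nat.pow_le_pow_left Nat.lt_two_pow_self.le m
      calc p ≤ 2 * N ^ m := hp2
        _ ≤ 2 * 2 ^ (m * N) := Nat.mul_le_mul_left _ h5
        _ = 2 ^ (1 + m * N) := by rw [pow_add, pow_one]
    have h5 := Nat.log_mono_right (b := 2) h4
    rw [Nat.log_pow (by norm_num)] at h5
    omega
  have h4 : Δ.card ≤ k * (3 * (m * N + 2) * (k * D.card ^ m)) := by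
    refine hΔc.trans (Nat.mul_le_mul_left _ (Nat.mul_le_mul h3 (Nat.mul_le_mul_left _ ?_)))
    rw [← hDc]
    exact Finset.card_image_le
  have h5 : (Δ.card : ℝ) ≤ k * (3 * (m * N + 2) * (k * (D.card : ℝ) ^ m)) := by
    exact_mod_cast h4
  exact h2.trans (h1.trans h5)

/-- the exact inequality for vectors of integers -/
theorem tensor {n : ℕ} (hn : 1 ≤ n) (J : Fin n → ℕ) {f : ℝ} (hf0 : 0 ≤ f)
    (hf : ∀ M : ℕ, 2 ≤ M → ∀ Δ : Finset ℤ, PatZ J M Δ → (M : ℝ) ^ f ≤ Δ.card)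
    {ι : Type} [Fintype ι] [DecidableEq ι] (R D : Finset (ι → ℤ)) (hR : R.Nonempty)
    (h : ∀ r ∈ R, ∃ a : ι → ℤ, ∀ s, a + (J s) • r ∈ D) :
    (R.card : ℝ) ^ f ≤ D.card := by
  classical
  obtain ⟨k, hk, hJ⟩ : ∃ k : ℕ, 1 ≤ k ∧ ∀ i, J i < k := by
    refine ⟨∑ i, J i + 1, by omega, fun i => Nat.lt_succ_of_le ?_⟩
    exact Finset.single_le_sum (f := J) (fun _ _ => Nat.zero_le _) (Finset.mem_univ i)
  have hD1 : 1 ≤ D.card := by
    obtain ⟨r, hr⟩ := hR
    obtain ⟨a, ha⟩ := h r hr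
    exact Finset.card_pos.mpr ⟨_, ha ⟨0, hn⟩⟩
  have hD1' : (1 : ℝ) ≤ D.card := by exact_mod_cast hD1
  rcases Nat.lt_or_ge R.card 2 with hN | hN
  · have h1 : R.card = 1 := by
      have := Finset.card_pos.mpr hR
      omega
    rw [h1, Nat.cast_one, Real.one_rpow]
    exact hD1'
  · by_contra hcon
    push Not at hcon
    obtain ⟨L, hL⟩ : ∃ L : ℕ, ∀ x ∈ R, ∀ i, |x i| ≤ (L : ℤ) := by
      refine ⟨∑ x ∈ R, ∑ i, (x i).natAbs, fun x hx i => ?_⟩
      have h1 : (x i).natAbs ≤ ∑ i, (x i).natAbs :=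
        Finset.single_le_sum (f := fun i => (x i).natAbs) (fun _ _ => Nat.zero_le _)
          (Finset.mem_univ i)
      have h2 : ∑ i, (x i).natAbs ≤ ∑ x ∈ R, ∑ i, (x i).natAbs :=
        Finset.single_le_sum (f := fun x : ι → ℤ => ∑ i, (x i).natAbs)
          (fun _ _ => Nat.zero_le _) hx
      rw [Int.abs_eq_natAbs]
      exact_mod_cast h1.trans h2
    set N := R.card with hNd
    set x : ℝ := (N : ℝ) ^ f / D.card with hx
    have hDpos : (0 : ℝ) < D.card := by linarith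
    have hx1 : 1 < x := by
      rw [hx, one_lt_div hDpos]
      exact hcon
    have hx0 : 0 < x := by linarith
    set c : ℝ := 3 * (k : ℝ) ^ 2 * (N + 2) with hc
    have hk' : (1 : ℝ) ≤ k := by exact_mod_cast hk
    have hc0 : 0 < c := by positivity
    have h1 := tendsto_pow_const_div_const_pow_of_one_lt 1 hx1
    have h2 : ∀ᶠ m : ℕ in atTop, (m : ℝ) ^ 1 / x ^ m < 1 / c :=
      h1.eventually_lt_const (by positivity)
    have h3 : ∀ᶠ m : ℕ in atTop, 2 * L ≤ N ^ m :=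
      (tendsto_pow_atTop_atTop_of_one_lt (by omega : 1 < N)).eventually_ge_atTop _
    obtain ⟨m, h2, h3, h4⟩ := (h2.and (h3.and (eventually_ge_atTop 1))).exists
    have h5 := power_step J hJ hf0 hf R D hR h hL m h3
    rw [← hNd] at h5
    have hm1 : (1 : ℝ) ≤ m := by exact_mod_cast h4
    have h6 : x ^ m ≤ c * m := by
      rw [hx, div_pow, div_le_iff₀ (by positivity)]
      refine h5.trans ?_
      have h7 : (m : ℝ) * N + 2 ≤ m * (N + 2) := by nlinarith
      calc (k : ℝ) * (3 * (m * N + 2) * (k * (D.card : ℝ) ^ m)) =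
            (3 * (k : ℝ) ^ 2 * (D.card : ℝ) ^ m) * (m * N + 2) := by ring
        _ ≤ (3 * (k : ℝ) ^ 2 * (D.card : ℝ) ^ m) * (m * (N + 2)) :=
            mul_le_mul_of_nonneg_left h7 (by positivity)
        _ = c * m * (D.card : ℝ) ^ m := by rw [hc]; ring
    rw [pow_one, div_lt_div_iff₀ (by positivity) hc0, one_mul] at h2
    linarith

end LIFT

theorem t_LIFT : S_LIFT := by
  classical
  intro m J s s' R D hm hs hss' hR hprog hD
  by_contra hcon
  have hs' : 0 ≤ s' := hs.trans hss'.le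
  have hf : ∀ M : ℕ, 2 ≤ M → ∀ Δ : Finset ℤ, PatZ J M Δ → (M : ℝ) ^ s' ≤ Δ.card := by
    intro M hM Δ hΔ
    by_contra h
    rw [not_le] at h
    exact hcon ⟨M, hM, Δ, hΔ, h.le⟩
  choose! a ha using hprog
  obtain ⟨N, hN⟩ : ∃ N, N = R.card := ⟨_, rfl⟩
  rw [← hN] at hR hD
  have hN1 : (1 : ℝ) < N := by exact_mod_cast hR
  have hN0 : (0 : ℝ) < N := by linarith
  have hRne : R.Nonempty := Finset.card_pos.1 (by omega)
  have key : ∀ t : ℕ, ((N : ℝ) ^ (s' - s)) ^ t ≤ m := by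
    intro t
    have h1 := LIFT.tensor hm J hs' hf (ι := Fin t) (Fintype.piFinset fun _ : Fin t => R)
      (Finset.univ.biUnion fun i => Fintype.piFinset fun _ : Fin t => D i)
      (Fintype.piFinset_nonempty.2 fun _ => hRne) (by
        intro r hr
        rw [Fintype.mem_piFinset] at hr
        refine ⟨fun q => a (r q), fun i => ?_⟩
        rw [Finset.mem_biUnion]
        refine ⟨i, Finset.mem_univ _, ?_⟩
        rw [Fintype.mem_piFinset]
        intro q
        have h2 := ha (r q) (hr q) i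
        rw [Pi.add_apply, Pi.smul_apply, nsmul_eq_mul]
        exact h2)
    rw [Fintype.card_piFinset, Finset.prod_const, Finset.card_univ, Fintype.card_fin, ← hN] at h1
    have h2 : ((Finset.univ.biUnion fun i => Fintype.piFinset fun _ : Fin t => D i).card : ℝ) ≤
        m * ((N : ℝ) ^ s) ^ t := by
      have h3 : ((Finset.univ.biUnion fun i => Fintype.piFinset fun _ : Fin t => D i).card : ℝ) ≤
          ∑ i : Fin m, ((Fintype.piFinset fun _ : Fin t => D i).card : ℝ) := by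
        exact_mod_cast Finset.card_biUnion_le
      refine h3.trans ?_
      have h4 : ∀ i ∈ (Finset.univ : Finset (Fin m)),
          ((Fintype.piFinset fun _ : Fin t => D i).card : ℝ) ≤ ((N : ℝ) ^ s) ^ t := by
        intro i _
        rw [Fintype.card_piFinset, Finset.prod_const, Finset.card_univ, Fintype.card_fin,
          Nat.cast_pow]
        exact pow_le_pow_left₀ (Nat.cast_nonneg _) (hD i) t
      refine (Finset.sum_le_sum h4).trans ?_
      rw [Finset.sum_const, Finset.card_univ, Fintype.card_fin, nsmul_eq_mul]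
    have h3 := h1.trans h2
    have h4 : ((N ^ t : ℕ) : ℝ) ^ s' = ((N : ℝ) ^ (s' - s)) ^ t * ((N : ℝ) ^ s) ^ t := by
      rw [← mul_pow, ← Real.rpow_add hN0, sub_add_cancel, Nat.cast_pow,
        ← Real.rpow_natCast ((N : ℝ) ^ s') t, ← Real.rpow_mul hN0.le, mul_comm s',
        Real.rpow_mul hN0.le, Real.rpow_natCast]
    rw [h4] at h3
    exact le_of_mul_le_mul_right h3 (by positivity)
  have hx : 1 < (N : ℝ) ^ (s' - s) := Real.one_lt_rpow hN1 (by linarith)
  obtain ⟨t, ht⟩ := pow_unbounded_of_one_lt (m : ℝ) hx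
  exact absurd (key t) (not_le.2 ht)

end Pool.Agent.H85AK
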