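import Pool.Agent.H85AK.Stm

/-!
# Almost all patterns have exponent `1/2 + ε`: assembly
-/

set_option autoImplicit false

namespace Pool.Agent.H85AK

open Filter

/-- all but at most `C k^(l+2)` of the `(l+3)`-tuples of integers `< k` -/
def S_PAT : Prop := ∀ (l : ℕ) (ε : ℝ), 0 < ε → ∃ C : ℕ, ∀ k : ℕ, 1 ≤ k →
  {J : Fin (l + 3) → Fin k | ¬ ∀ n : ℕ, ∃ B : Set (EuclideanSpace ℝ (Fin n)), IsCompact B ∧
    (∀ r : EuclideanSpace ℝ (Fin n), (∀ i, r i ∈ Set.Icc (0 : ℝ) 1) →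
      ∃ a : EuclideanSpace ℝ (Fin n), ∀ i, a + (((J i : ℕ)) : ℝ) • r ∈ B) ∧
    Helper66x.AK.AssouadLE (n * (1 / 2 + ε)) B}.ncard ≤ C * k ^ (l + 2)

theorem choose_DN {ε : ℝ} (hε : 0 < ε) : ∃ D N : ℕ, 1 ≤ D ∧ 2 ≤ N ∧
    (1 + 1 / (D : ℝ)) * Real.log (2 * N) ≤ (1 + ε) * Real.log N := by
  obtain ⟨D, hD⟩ := exists_nat_gt (2 / ε)
  have hD0 : (0 : ℝ) < D := lt_trans (by positivity) hD
  have hD1 : 1 ≤ D := by exact_mod_cast hD0
  have h1 : Tendsto (fun N : ℕ => Real.log N) atTop atTop :=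
    Real.tendsto_log_atTop.comp tendsto_natCast_atTop_atTop
  obtain ⟨N, hN, hN2⟩ := ((h1.eventually_ge_atTop ((1 + ε / 2) * Real.log 2 / (ε / 2))).and
    (eventually_ge_atTop 2)).exists
  refine ⟨D, N, hD1, hN2, ?_⟩
  have hN0 : (0 : ℝ) < N := by exact_mod_cast (by omega : 0 < N)
  have h2 : 1 / (D : ℝ) ≤ ε / 2 := by
    rw [div_le_div_iff₀ hD0 (by norm_num)]
    rw [div_lt_iff₀ hε] at hD
    linarith
  have h3 : 0 ≤ Real.log N := Real.log_nonneg (by exact_mod_cast (by omega : 1 ≤ N))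
  have h4 : 0 < Real.log 2 := Real.log_pos (by norm_num)
  rw [div_le_iff₀ (by positivity)] at hN
  rw [Real.log_mul (by norm_num) hN0.ne']
  have h5 : (1 + 1 / (D : ℝ)) * (Real.log 2 + Real.log N) ≤
      (1 + ε / 2) * (Real.log 2 + Real.log N) :=
    mul_le_mul_of_nonneg_right (by linarith) (by linarith)
  nlinarith

theorem t_PAT (hL : S_LIFT) (hG : S_GEO) (hS : S_SZ) (hE : S_EX) : S_PAT := by
  intro l ε hε
  obtain ⟨D, N, hD, hN, hDN⟩ := choose_DN hε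
  obtain ⟨C, hC⟩ := hS l D N
  refine ⟨C, fun k hk => (Set.ncard_le_ncard ?_ (Set.toFinite _)).trans (hC k hk)⟩
  intro J hJ hI
  refine hJ fun n => ?_
  obtain ⟨R, E, b, hR, hRE, hEc, hb⟩ := hE l D N (fun i => (J i : ℕ)) hD hN hI
  have hN0 : (0 : ℝ) < N := by exact_mod_cast (by omega : 0 < N)
  have hD0 : (0 : ℝ) < D := by exact_mod_cast hD
  have hR2 : 2 ≤ R.card := by
    rw [hR]
    have h1 : 1 ≤ 2 * D ^ l := by
      have := Nat.pos_of_ne_zero (pow_ne_zero l (by omega : D ≠ 0))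
      omega
    calc 2 ≤ N := hN
      _ = N ^ 1 := (pow_one N).symm
      _ ≤ N ^ (2 * D ^ l) := Nat.pow_le_pow_right (by omega) h1
  have hb' : (b : ℝ) ≤ (1 + 1 / (D : ℝ)) * (D : ℝ) ^ l := by
    have h1 : (D : ℝ) * b ≤ (D + 1) * (D : ℝ) ^ l := by exact_mod_cast hb
    have h2 : (1 + 1 / (D : ℝ)) * (D : ℝ) ^ l = ((D + 1) * (D : ℝ) ^ l) / D := by
      field_simp
    rw [h2, le_div_iff₀ hD0]
    linarith
  have hcard : ∀ i, ((E i).card : ℝ) ≤ (R.card : ℝ) ^ (1 / 2 + ε / 2) := by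
    intro i
    have h1 : ((E i).card : ℝ) ≤ (2 * (N : ℝ)) ^ b := by exact_mod_cast hEc i
    refine h1.trans ?_
    rw [hR]
    push_cast
    rw [← Real.log_le_log_iff (by positivity) (by positivity), Real.log_pow,
      Real.log_rpow (by positivity), Real.log_pow]
    have h2 : 0 ≤ Real.log (2 * N) := Real.log_nonneg (by
      have : (2 : ℝ) ≤ N := by exact_mod_cast hN
      linarith)
    have hDl : (0 : ℝ) < (D : ℝ) ^ l := by positivity
    calc (b : ℝ) * Real.log (2 * N) ≤ ((1 + 1 / (D : ℝ)) * (D : ℝ) ^ l) * Real.log (2 * N) :=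
          mul_le_mul_of_nonneg_right hb' h2
      _ = (D : ℝ) ^ l * ((1 + 1 / (D : ℝ)) * Real.log (2 * N)) := by ring
      _ ≤ (D : ℝ) ^ l * ((1 + ε) * Real.log N) := mul_le_mul_of_nonneg_left hDN hDl.le
      _ = (1 / 2 + ε / 2) * (((2 * D ^ l : ℕ) : ℝ) * Real.log N) := by
          push_cast
          ring
  obtain ⟨M, hM, Δ, hΔ, hΔc⟩ := hL (l + 3) (fun i => (J i : ℕ)) (1 / 2 + ε / 2) (1 / 2 + ε) R E
    (by omega) (by positivity) (by linarith) hR2 hRE hcard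
  obtain ⟨B, hB1, hB2, hB3⟩ := hG n (l + 3) (fun i => (J i : ℕ)) M Δ (1 / 2 + ε)
    (n * (1 / 2 + ε)) (by omega) hM hΔ (by positivity) le_rfl hΔc
  exact ⟨B, hB1, hB2, hB3⟩

end Pool.Agent.H85AK
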