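import Pool.Agent.H85AK.Stm

/-!
# PT: a nonzero pair `(e, f)` gives a nonzero value at some integer point
-/

set_option autoImplicit false

namespace Pool.Agent.H85AK

open Finset MvPolynomial

/-- with `p = 0`, `q = 1` -/
theorem PTx_lin01 {l D : ℕ} (u : ℤ) (x : Fin l → ℤ) (e f : (Fin l → Fin D) → ℤ) :
    lin 0 1 u x e f = ∑ α, ((u - 1) * e α - u * f α) * mon 0 1 u x α := by
  unfold lin
  rw [Finset.mul_sum, Finset.mul_sum, ← Finset.sum_sub_distrib]
  refine Finset.sum_congr rfl fun α _ => ?_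
  ring

/-- the exponent vector -/
noncomputable def PTx_fs {l D : ℕ} (α : Fin l → Fin D) : Fin l →₀ ℕ :=
  Finsupp.equivFunOnFinite.symm (fun i => (α i : ℕ))

theorem PTx_fs_inj {l D : ℕ} : Function.Injective (PTx_fs (l := l) (D := D)) := by
  intro α β h
  funext i
  have := DFunLike.congr_fun h i
  simp [PTx_fs] at this
  exact Fin.ext this

theorem PTx_eval {l D : ℕ} (c : (Fin l → Fin D) → ℚ) (t : Fin l → ℚ) :
    eval t (∑ α, monomial (PTx_fs α) (c α)) = ∑ α, c α * ∏ i, t i ^ (α i : ℕ) := by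
  rw [map_sum]
  refine Finset.sum_congr rfl fun α _ => ?_
  rw [eval_monomial, Finsupp.prod_fintype _ _ (fun i => pow_zero _)]
  rfl

theorem PTx_coeff {l D : ℕ} (c : (Fin l → Fin D) → ℚ) (β : Fin l → Fin D) :
    coeff (PTx_fs β) (∑ α, monomial (PTx_fs α) (c α)) = c β := by
  classical
  rw [coeff_sum, Finset.sum_eq_single β]
  · rw [coeff_monomial, if_pos rfl]
  · intro α _ hα
    rw [coeff_monomial, if_neg]
    intro h
    exact hα (PTx_fs_inj h)
  · intro h
    exact absurd (Finset.mem_univ β) h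

/-- a polynomial vanishing at all integer points has value zero at rational points -/
theorem PTx_rat {l D : ℕ} (u : ℤ) (g : (Fin l → Fin D) → ℤ)
    (h : ∀ x : Fin l → ℤ, ∑ α, g α * mon 0 1 u x α = 0) (y : Fin l → ℚ) :
    ∑ α, (g α : ℚ) * ∏ i, (((1 - y i) * u) ^ (α i : ℕ) *
      (y i * (u - 1)) ^ (D - 1 - (α i : ℕ))) = 0 := by
  classical
  let P : MvPolynomial (Fin l) ℤ := ∑ α, C (g α) * ∏ i, (((1 - X i) * C u) ^ (α i : ℕ) *
      (X i * C (u - 1)) ^ (D - 1 - (α i : ℕ)))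
  have hP : P = 0 := by
    apply MvPolynomial.funext
    intro x
    have := h x
    simp only [P, map_sum, map_mul, map_prod, map_pow, map_sub, map_one, eval_X, eval_C, map_zero]
    rw [← this]
    refine Finset.sum_congr rfl fun α _ => ?_
    simp only [mon, sub_zero]
  have h2 : eval₂ (Int.castRingHom ℚ) y P = 0 := by rw [hP, eval₂_zero]
  rw [← h2]
  simp only [P]
  rw [eval₂_sum]
  refine Finset.sum_congr rfl fun α _ => ?_
  have hu : eval₂ (Int.castRingHom ℚ) y ((u : ℤ) : MvPolynomial (Fin l) ℤ) = u := by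
    rw [← coe_eval₂Hom, map_intCast]
  rw [eval₂_mul, eval₂_C, eval₂_prod]
  simp [hu]

theorem t_PT : S_PT := by
  classical
  intro l D e f hef
  by_contra hcon
  push Not at hcon
  -- a place where the pair is not zero
  obtain ⟨α₀, hα₀⟩ : ∃ α₀, e α₀ ≠ 0 ∨ f α₀ ≠ 0 := by
    rcases hef with h | h
    · obtain ⟨a, ha⟩ := Function.ne_iff.1 h
      exact ⟨a, Or.inl ha⟩
    · obtain ⟨a, ha⟩ := Function.ne_iff.1 h
      exact ⟨a, Or.inr ha⟩
  obtain ⟨u, hu2, hg⟩ : ∃ u : ℤ, 2 ≤ u ∧ (u - 1) * e α₀ - u * f α₀ ≠ 0 := by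
    by_contra hno
    push Not at hno
    have h2 := hno 2 le_rfl
    have h3 := hno 3 (by norm_num)
    rcases hα₀ with h | h <;> omega
  set g : (Fin l → Fin D) → ℤ := fun α => (u - 1) * e α - u * f α with hgdef
  have hall : ∀ x : Fin l → ℤ, ∑ α, g α * mon 0 1 u x α = 0 := by
    intro x
    rw [← PTx_lin01]
    exact hcon 0 1 u x
  have hrat := PTx_rat u g hall
  let c : (Fin l → Fin D) → ℚ := fun α =>
    (g α : ℚ) * ∏ i, ((u : ℚ) ^ (α i : ℕ) * ((u : ℚ) - 1) ^ (D - 1 - (α i : ℕ)))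
  have hQ : (∑ α, monomial (PTx_fs α) (c α) : MvPolynomial (Fin l) ℚ) = 0 := by
    have hs : ∀ i : Fin l, (Set.range (fun n : ℕ => (n : ℚ))).Infinite := fun i =>
      Set.infinite_range_of_injective Nat.cast_injective
    apply MvPolynomial.funext_set (fun _ : Fin l => Set.range (fun n : ℕ => (n : ℚ))) hs
    intro t ht
    rw [map_zero, PTx_eval]
    have ht0 : ∀ i, (0 : ℚ) < 1 + t i := by
      intro i
      obtain ⟨n, hn⟩ := ht i (Set.mem_univ i)
      rw [← hn]
      positivity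
    have h1 := hrat (fun i => (1 + t i)⁻¹)
    have hkey : ∀ α : Fin l → Fin D,
        (g α : ℚ) * ∏ i, (((1 - (1 + t i)⁻¹) * u) ^ (α i : ℕ) *
          ((1 + t i)⁻¹ * (u - 1)) ^ (D - 1 - (α i : ℕ))) =
        (∏ i, ((1 + t i)⁻¹) ^ (D - 1)) * (c α * ∏ i, t i ^ (α i : ℕ)) := by
      intro α
      have h3 : ∀ i : Fin l, ((1 - (1 + t i)⁻¹) * (u : ℚ)) ^ (α i : ℕ) *
          ((1 + t i)⁻¹ * ((u : ℚ) - 1)) ^ (D - 1 - (α i : ℕ)) =
          ((1 + t i)⁻¹) ^ (D - 1) * (((u : ℚ) ^ (α i : ℕ) *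
            ((u : ℚ) - 1) ^ (D - 1 - (α i : ℕ))) * t i ^ (α i : ℕ)) := by
        intro i
        have h4 : 1 - (1 + t i)⁻¹ = (1 + t i)⁻¹ * t i := by
          have := (ht0 i).ne'
          field_simp
          ring
        have h5 : ((1 + t i)⁻¹) ^ (D - 1) =
            ((1 + t i)⁻¹) ^ (α i : ℕ) * ((1 + t i)⁻¹) ^ (D - 1 - (α i : ℕ)) := by
          rw [← pow_add]
          congr 1
          have := (α i).isLt
          omega
        rw [h4, h5, mul_pow, mul_pow, mul_pow]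
        ring
      rw [Finset.prod_congr rfl (fun i _ => h3 i), Finset.prod_mul_distrib,
        Finset.prod_mul_distrib]
      simp only [c]
      ring
    rw [Finset.sum_congr rfl (fun α _ => hkey α), ← Finset.mul_sum] at h1
    rcases mul_eq_zero.1 h1 with h6 | h6
    · exfalso
      have : (0 : ℚ) < ∏ i, ((1 + t i)⁻¹) ^ (D - 1) :=
        Finset.prod_pos fun i _ => pow_pos (inv_pos.2 (ht0 i)) _
      exact this.ne' h6
    · exact h6
  have h7 := PTx_coeff c α₀
  rw [hQ, coeff_zero] at h7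
  have h8 : c α₀ ≠ 0 := by
    have hu : (2 : ℚ) ≤ u := by exact_mod_cast hu2
    have h9 : (0 : ℚ) < u := by linarith
    have h10 : (0 : ℚ) < (u : ℚ) - 1 := by linarith
    have h11 : (g α₀ : ℚ) ≠ 0 := by exact_mod_cast hg
    refine mul_ne_zero h11 (Finset.prod_pos fun i _ => ?_).ne'
    positivity
  exact h8 h7.symm

end Pool.Agent.H85AK
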