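import Pool.Agent.Results.MP_4b405e_nt.ExactExponent

/-!
# MP_4b405e_nt: one explicit family of progressions

The progressions with common differences `s`, `0 ≤ s < M`, whose terms at the places `i + d t` are
`d s (M - l + t - s)`: for fixed `t` this value does not change when `s` is replaced by
`M - l + t - s`, so that at most `(M + l) / 2` values occur.
-/

set_option autoImplicit false

namespace Pool.Agent.H85AK

/-- the values at the place `t` -/
def D (M l t : ℕ) : Finset ℤ :=
  (Finset.Ico ((M - l + t + 1) / 2) M).image fun s : ℕ => (s : ℤ) * ((M - l + t : ℕ) - s)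

theorem D_card (M l t : ℕ) (hM : l ≤ M) (_ht : t < l) : 2 * (D M l t).card ≤ M + l := by
  have h1 : (D M l t).card ≤ (Finset.Ico ((M - l + t + 1) / 2) M).card := Finset.card_image_le
  rw [Nat.card_Ico] at h1
  omega

theorem D_mem (M l t s : ℕ) (hM : l ≤ M) (ht : t < l) (hs : s < M) :
    (s : ℤ) * ((M - l : ℕ) - s) + t * s ∈ D M l t := by
  rw [D, Finset.mem_image]
  by_cases h : (M - l + t + 1) / 2 ≤ s
  · refine ⟨s, Finset.mem_Ico.2 ⟨h, hs⟩, ?_⟩
    push_cast
    ring
  · push Not at h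
    have h2 : s ≤ M - l + t := by omega
    refine ⟨M - l + t - s, Finset.mem_Ico.2 ⟨by omega, by omega⟩, ?_⟩
    rw [Nat.cast_sub h2]
    push_cast
    ring

/-- the inequality `|R|^f ≤ ∏ |D_j|^(w_j)` for finite sets of integers -/
def Ineq (k : ℕ) (f : ℝ) (w : Fin k → ℝ) : Prop :=
  ∀ (R : Finset ℤ) (D : Fin k → Finset ℤ), R.Nonempty →
    (∀ r ∈ R, ∃ a : ℤ, ∀ j : Fin k, a + (j : ℕ) * r ∈ D j) →
    (R.card : ℝ) ^ f ≤ ∏ j, ((D j).card : ℝ) ^ w j

open Classical in
theorem weight_le {k M l i d : ℕ} (hl : l ≤ M) (hM2 : 2 ≤ M) {f : ℝ} {w : Fin k → ℝ}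
    (hw0 : ∀ j, 0 ≤ w j) (hw1 : ∑ j, w j = 1) (h : Ineq k f w) :
    (∑ j ∈ Finset.univ.filter (fun j : Fin k => ∃ t < l, (j : ℕ) = i + d * t), w j) *
      Real.log (2 * M / (M + l)) ≤ (1 - f) * Real.log M := by
  have hM1 : (1 : ℝ) < M := by exact_mod_cast (by omega : 1 < M)
  have hM0 : (0 : ℝ) < M := by linarith
  set I := Finset.univ.filter (fun j : Fin k => ∃ t < l, (j : ℕ) = i + d * t) with hI
  set A : ℕ → ℤ := fun s => d * ((s : ℤ) * ((M - l : ℕ) - s)) - i * s with hA
  set E : Fin k → Finset ℤ := fun j => (Finset.range M).image fun s : ℕ => A s + (j : ℕ) * s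
    with hE
  have hEM : ∀ j, ((E j).card : ℝ) ≤ M := by
    intro j
    have h1 : (E j).card ≤ (Finset.range M).card := Finset.card_image_le
    rw [Finset.card_range] at h1
    exact_mod_cast h1
  have hEI : ∀ j ∈ I, ((E j).card : ℝ) ≤ ((M : ℝ) + l) / 2 := by
    intro j hj
    rw [hI, Finset.mem_filter] at hj
    obtain ⟨-, t, ht, hjt⟩ := hj
    have h1 : E j ⊆ (D M l t).image fun x => (d : ℤ) * x := by
      intro x hx
      rw [hE, Finset.mem_image] at hx
      obtain ⟨s, hs, rfl⟩ := hx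
      rw [Finset.mem_range] at hs
      rw [Finset.mem_image]
      refine ⟨_, D_mem M l t s hl ht hs, ?_⟩
      rw [hA, hjt]
      push_cast
      ring
    have h2 : (E j).card ≤ (D M l t).card := (Finset.card_le_card h1).trans Finset.card_image_le
    have h3 := D_card M l t hl ht
    have h4 : (2 : ℝ) * ((E j).card : ℝ) ≤ M + l := by
      exact_mod_cast (by omega : 2 * (E j).card ≤ M + l)
    linarith
  have h1 := h ((Finset.range M).image fun s : ℕ => (s : ℤ)) E
    ⟨0, Finset.mem_image.2 ⟨0, Finset.mem_range.2 (by omega), rfl⟩⟩ (by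
      intro r hr
      rw [Finset.mem_image] at hr
      obtain ⟨s, hs, rfl⟩ := hr
      exact ⟨A s, fun j => Finset.mem_image.2 ⟨s, hs, rfl⟩⟩)
  rw [Finset.card_image_of_injective _ Nat.cast_injective, Finset.card_range] at h1
  have h4 : (0 : ℝ) < ((M : ℝ) + l) / 2 := by positivity
  have h2 : ∏ j : Fin k, ((E j).card : ℝ) ^ w j ≤
      (((M : ℝ) + l) / 2) ^ (∑ j ∈ I, w j) * (M : ℝ) ^ (1 - ∑ j ∈ I, w j) := by
    rw [← Finset.prod_mul_prod_compl I]
    have e : 1 - ∑ j ∈ I, w j = ∑ j ∈ Iᶜ, w j := by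
      rw [← hw1, ← Finset.sum_add_sum_compl I]
      ring
    rw [e, Real.rpow_sum_of_pos h4, Real.rpow_sum_of_pos hM0]
    refine mul_le_mul ?_ ?_ (Finset.prod_nonneg fun j _ => by positivity)
      (Finset.prod_nonneg fun j _ => by positivity)
    · exact Finset.prod_le_prod (fun j _ => by positivity) (fun j hj =>
        Real.rpow_le_rpow (by positivity) (hEI j hj) (hw0 j))
    · exact Finset.prod_le_prod (fun j _ => by positivity) (fun j hj =>
        Real.rpow_le_rpow (by positivity) (hEM j) (hw0 j))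
  have h5 := Real.log_le_log (by positivity) (h1.trans h2)
  rw [Real.log_rpow hM0, Real.log_mul (by positivity) (by positivity), Real.log_rpow h4,
    Real.log_rpow hM0] at h5
  have h7 : Real.log (2 * M / (M + l)) = Real.log M - Real.log (((M : ℝ) + l) / 2) := by
    rw [← Real.log_div (by positivity) (by positivity)]
    congr 1
    field_simp
  rw [h7]
  nlinarith [h5]

/-- one place: the progressions `(j - i) s` -/
theorem weight_one {k : ℕ} (i : Fin k) {f : ℝ} {w : Fin k → ℝ}
    (hw0 : ∀ j, 0 ≤ w j) (hw1 : ∑ j, w j = 1) (h : Ineq k f w) : w i ≤ 1 - f := by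
  set E : Fin k → Finset ℤ := fun j => (Finset.range 2).image fun s : ℕ =>
    (-((i : ℕ) : ℤ)) * s + (j : ℕ) * s with hE
  have hE2 : ∀ j, ((E j).card : ℝ) ≤ 2 := by
    intro j
    have h1 : (E j).card ≤ (Finset.range 2).card := Finset.card_image_le
    rw [Finset.card_range] at h1
    exact_mod_cast h1
  have hEi : ((E i).card : ℝ) ≤ 1 := by
    have : E i ⊆ {0} := by
      intro x hx
      rw [hE, Finset.mem_image] at hx
      obtain ⟨s, hs, rfl⟩ := hx
      rw [Finset.mem_singleton]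
      ring
    have h1 := Finset.card_le_card this
    rw [Finset.card_singleton] at h1
    exact_mod_cast h1
  have h1 := h ((Finset.range 2).image fun s : ℕ => (s : ℤ)) E
    ⟨0, Finset.mem_image.2 ⟨0, Finset.mem_range.2 (by omega), rfl⟩⟩ (by
      intro r hr
      rw [Finset.mem_image] at hr
      obtain ⟨s, hs, rfl⟩ := hr
      exact ⟨(-((i : ℕ) : ℤ)) * s, fun j => Finset.mem_image.2 ⟨s, hs, rfl⟩⟩)
  rw [Finset.card_image_of_injective _ Nat.cast_injective, Finset.card_range] at h1
  have h2 : ∏ j : Fin k, ((E j).card : ℝ) ^ w j ≤ (2 : ℝ) ^ (1 - w i) := by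
    rw [← Finset.mul_prod_erase Finset.univ _ (Finset.mem_univ i)]
    have e : 1 - w i = ∑ j ∈ Finset.univ.erase i, w j := by
      rw [← hw1, ← Finset.add_sum_erase Finset.univ w (Finset.mem_univ i)]
      ring
    rw [e, Real.rpow_sum_of_pos (by norm_num)]
    rw [← one_mul (∏ j ∈ Finset.univ.erase i, (2 : ℝ) ^ w j)]
    refine mul_le_mul ?_ ?_ (Finset.prod_nonneg fun j _ => by positivity) zero_le_one
    · exact Real.rpow_le_one (by positivity) hEi (hw0 i)
    · exact Finset.prod_le_prod (fun j _ => by positivity) (fun j hj =>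
        Real.rpow_le_rpow (by positivity) (hE2 j) (hw0 j))
  have h3 : (2 : ℝ) ^ f ≤ (2 : ℝ) ^ (1 - w i) := by
    refine le_trans ?_ h2
    exact_mod_cast h1
  have h4 := (Real.rpow_le_rpow_left_iff (by norm_num : (1 : ℝ) < 2)).1 h3
  linarith

/-- the whole progression -/
theorem rate {k M : ℕ} (hM : k ≤ M) (hM2 : 2 ≤ M) {f : ℝ} {w : Fin k → ℝ}
    (hw0 : ∀ j, 0 ≤ w j) (hw1 : ∑ j, w j = 1) (h : Ineq k f w) :
    f ≤ 1 - Real.log (2 * M / (M + k)) / Real.log M := by
  have h1 := weight_le (i := 0) (d := 1) hM hM2 hw0 hw1 h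
  have e : (Finset.univ.filter fun j : Fin k => ∃ t < k, (j : ℕ) = 0 + 1 * t) = Finset.univ := by
    ext j
    simp only [Finset.mem_filter, Finset.mem_univ, true_and, iff_true]
    exact ⟨j, j.2, by ring⟩
  have e2 : (∑ j ∈ (Finset.univ.filter fun j : Fin k => ∃ t < k, (j : ℕ) = 0 + 1 * t), w j) = 1 := by
    rw [e, hw1]
  rw [e2, one_mul] at h1
  have h6 : 0 < Real.log M := Real.log_pos (by exact_mod_cast (by omega : 1 < M))
  have h7 : Real.log (2 * M / (M + k)) / Real.log M ≤ 1 - f := by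
    rw [div_le_iff₀ h6]
    exact h1
  linarith

end Pool.Agent.H85AK
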