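import Pool.Agent.H85AK.Stm
import Mathlib.Algebra.MvPolynomial.SchwartzZippel

/-!
# SZ: the number of dependent configurations is at most `C k ^ (l + 2)`
-/

set_option autoImplicit false

namespace Pool.Agent.H85AK

open Finset MvPolynomial

/-- the coordinates `x` -/
def SZx_ix {l : ℕ} (i : Fin l) : Fin (l + 3) := ⟨i + 3, by omega⟩

/-- `mon` as a polynomial -/
noncomputable def SZx_mon {l D : ℕ} (α : Fin l → Fin D) : MvPolynomial (Fin (l + 3)) ℤ :=
  ∏ i, (((X 1 - X (SZx_ix i)) * (X 2 - X 0)) ^ (α i : ℕ) *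
    ((X (SZx_ix i) - X 0) * (X 2 - X 1)) ^ (D - 1 - (α i : ℕ)))

/-- `lin` as a polynomial -/
noncomputable def SZx_lin {l D : ℕ} (e f : (Fin l → Fin D) → ℤ) :
    MvPolynomial (Fin (l + 3)) ℤ :=
  (X 2 - X 1) * ∑ α, C (e α) * SZx_mon α - (X 2 - X 0) * ∑ α, C (f α) * SZx_mon α

theorem SZx_eval {l D : ℕ} (e f : (Fin l → Fin D) → ℤ) (J : Fin (l + 3) → ℤ) :
    eval J (SZx_lin e f) = lin (J 0) (J 1) (J 2) (fun i => J (SZx_ix i)) e f := by
  simp [SZx_lin, SZx_mon, lin, mon, map_sum, map_prod]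

theorem SZx_ne {l D : ℕ} (h : S_PT) (e f : (Fin l → Fin D) → ℤ) (hef : e ≠ 0 ∨ f ≠ 0) :
    SZx_lin e f ≠ 0 := by
  intro h0
  obtain ⟨p, q, u, x, hx⟩ := h l D e f hef
  apply hx
  let J : Fin (l + 3) → ℤ := fun i =>
    if i.val = 0 then p else if i.val = 1 then q else if i.val = 2 then u else
      if hi : i.val - 3 < l then x ⟨i.val - 3, hi⟩ else 0
  have h1 := SZx_eval e f J
  rw [h0, map_zero] at h1
  have e0 : J 0 = p := by simp [J]
  have e1 : J 1 = q := by simp [J]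
  have e2 : J 2 = u := by
    have h2 : ((2 : Fin (l + 3)) : ℕ) = 2 := by
      rw [Fin.val_two]
    have h3 : ¬ ((2 : ℕ) = 0) := by decide
    have h4 : ¬ ((2 : ℕ) = 1) := by decide
    simp only [J, h2, if_neg h3, if_neg h4, if_true]
  have e3 : (fun i => J (SZx_ix i)) = x := by
    funext i
    simp [J, SZx_ix]
  rw [e0, e1, e2, e3] at h1
  exact h1.symm

/-- the number of zeros in a box -/
theorem SZx_count {n : ℕ} (P : MvPolynomial (Fin (n + 1)) ℤ) (hP : P ≠ 0) (k : ℕ) (hk : 1 ≤ k) :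
    {J : Fin (n + 1) → Fin k | eval (fun i => ((J i : ℕ) : ℤ)) P = 0}.ncard ≤
      P.totalDegree * k ^ n := by
  classical
  let S : Finset ℤ := (Finset.range k).image (fun j : ℕ => (j : ℤ))
  have hS : S.card = k := by
    rw [Finset.card_image_of_injective _ Nat.cast_injective, Finset.card_range]
  have hsz := MvPolynomial.schwartz_zippel_totalDegree hP S
  rw [hS] at hsz
  set Z := {f ∈ Fintype.piFinset fun _ : Fin (n + 1) => S | eval f P = 0} with hZ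
  have hk0 : (0 : ℚ≥0) < k := by exact_mod_cast hk
  have h1 : (Z.card : ℚ≥0) ≤ P.totalDegree * (k : ℚ≥0) ^ n := by
    rw [div_le_div_iff₀ (by positivity) hk0] at hsz
    have h2 : (Z.card : ℚ≥0) * k ≤ (P.totalDegree * (k : ℚ≥0) ^ n) * k := by
      calc (Z.card : ℚ≥0) * k ≤ P.totalDegree * (k : ℚ≥0) ^ (n + 1) := hsz
        _ = (P.totalDegree * (k : ℚ≥0) ^ n) * k := by rw [pow_succ]; ring
    exact le_of_mul_le_mul_right h2 hk0
  have h3 : Z.card ≤ P.totalDegree * k ^ n := by exact_mod_cast h1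
  refine le_trans ?_ h3
  rw [← Set.ncard_coe_finset Z]
  refine Set.ncard_le_ncard_of_injOn (fun J i => ((J i : ℕ) : ℤ)) ?_ ?_ (Finset.finite_toSet _)
  · intro J hJ
    simp only [hZ, Finset.coe_filter, Set.mem_ofPred_eq, Fintype.mem_piFinset]
    refine ⟨fun i => ?_, hJ⟩
    simp only [S, Finset.mem_image, Finset.mem_range]
    exact ⟨J i, (J i).isLt, rfl⟩
  · intro J _ J' _ h
    funext i
    have := congrFun h i
    simp only [Nat.cast_inj] at this
    exact Fin.ext this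

theorem t_SZ (h : S_PT) : S_SZ := by
  classical
  intro l D N
  let T : Finset (((Fin l → Fin D) → ℤ) × ((Fin l → Fin D) → ℤ)) :=
    ((Fintype.piFinset fun _ => Finset.Ioo (-(N : ℤ)) N) ×ˢ
      (Fintype.piFinset fun _ => Finset.Ioo (-(N : ℤ)) N)).filter
        (fun ef => ef.1 ≠ 0 ∨ ef.2 ≠ 0)
  refine ⟨∑ ef ∈ T, (SZx_lin ef.1 ef.2).totalDegree, fun k hk => ?_⟩
  have hsub : {J : Fin (l + 3) → Fin k | ¬ Indep D N (J 0 : ℕ) (J 1 : ℕ) (J 2 : ℕ)
      (fun i : Fin l => ((J ⟨i + 3, by omega⟩ : ℕ) : ℤ))} ⊆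
      ⋃ ef ∈ T, {J : Fin (l + 2 + 1) → Fin k |
        eval (fun i => ((J i : ℕ) : ℤ)) (SZx_lin ef.1 ef.2) = 0} := by
    intro J hJ
    simp only [Set.mem_ofPred_eq, Indep] at hJ
    push Not at hJ
    obtain ⟨e, f, he, hf, hlin, hne⟩ := hJ
    refine Set.mem_iUnion₂.2 ⟨(e, f), ?_, ?_⟩
    · simp only [T, Finset.mem_filter, Finset.mem_product, Fintype.mem_piFinset, Finset.mem_Ioo]
      refine ⟨⟨fun α => abs_lt.1 (he α), fun α => abs_lt.1 (hf α)⟩, ?_⟩
      by_cases h0 : e = 0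
      · exact Or.inr (hne h0)
      · exact Or.inl h0
    · show eval (fun i => ((J i : ℕ) : ℤ)) (SZx_lin e f) = 0
      rw [SZx_eval]
      exact hlin
  calc
    {J : Fin (l + 3) → Fin k | ¬ Indep D N (J 0 : ℕ) (J 1 : ℕ) (J 2 : ℕ)
      (fun i : Fin l => ((J ⟨i + 3, by omega⟩ : ℕ) : ℤ))}.ncard
      ≤ (⋃ ef ∈ T, {J : Fin (l + 2 + 1) → Fin k |
        eval (fun i => ((J i : ℕ) : ℤ)) (SZx_lin ef.1 ef.2) = 0}).ncard :=
        Set.ncard_le_ncard hsub (Set.toFinite _)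
    _ ≤ ∑ ef ∈ T, {J : Fin (l + 2 + 1) → Fin k |
        eval (fun i => ((J i : ℕ) : ℤ)) (SZx_lin ef.1 ef.2) = 0}.ncard :=
        Finset.set_ncard_biUnion_le _ _
    _ ≤ ∑ ef ∈ T, (SZx_lin ef.1 ef.2).totalDegree * k ^ (l + 2) := by
        refine Finset.sum_le_sum fun ef hef => ?_
        have hne : ef.1 ≠ 0 ∨ ef.2 ≠ 0 := (Finset.mem_filter.1 hef).2
        exact SZx_count _ (SZx_ne h _ _ hne) k hk
    _ = (∑ ef ∈ T, (SZx_lin ef.1 ef.2).totalDegree) * k ^ (l + 2) := by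
        rw [Finset.sum_mul]

end Pool.Agent.H85AK
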