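import Pool.Agent.H85AK.Stm2
import Pool.Agent.H85AK.SZ

/-!
# SZB: the number of dependent configurations with an explicit constant
-/

set_option autoImplicit false

namespace Pool.Agent.H85AK

open Finset MvPolynomial

theorem SZB_X {n : ℕ} (i j : Fin n) :
    ((X i - X j : MvPolynomial (Fin n) ℤ)).totalDegree ≤ 1 := by
  refine le_trans (totalDegree_sub _ _) ?_
  simp [totalDegree_X]

theorem SZB_XX {n : ℕ} (i j k l : Fin n) (m : ℕ) :
    (((X i - X j) * (X k - X l) : MvPolynomial (Fin n) ℤ) ^ m).totalDegree ≤ 2 * m := by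
  have h1 := totalDegree_pow ((X i - X j) * (X k - X l) : MvPolynomial (Fin n) ℤ) m
  have h2 := totalDegree_mul (X i - X j : MvPolynomial (Fin n) ℤ) (X k - X l)
  have h3 := SZB_X i j
  have h4 := SZB_X k l
  calc _ ≤ m * ((X i - X j) * (X k - X l) : MvPolynomial (Fin n) ℤ).totalDegree := h1
    _ ≤ m * 2 := Nat.mul_le_mul_left _ (by omega)
    _ = 2 * m := mul_comm _ _

theorem SZB_mon {l D : ℕ} (α : Fin l → Fin D) :
    (SZx_mon α).totalDegree ≤ 2 * l * D := by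
  unfold SZx_mon
  refine le_trans (totalDegree_finsetProd _ _) ?_
  have h : ∀ i ∈ (Finset.univ : Finset (Fin l)),
      ((((X 1 - X (SZx_ix i)) * (X 2 - X 0)) ^ (α i : ℕ) *
        ((X (SZx_ix i) - X 0) * (X 2 - X 1)) ^ (D - 1 - (α i : ℕ)) :
          MvPolynomial (Fin (l + 3)) ℤ)).totalDegree ≤ 2 * D := by
    intro i _
    refine le_trans (totalDegree_mul _ _) ?_
    have h1 := SZB_XX (1 : Fin (l + 3)) (SZx_ix i) 2 0 (α i : ℕ)
    have h2 := SZB_XX (SZx_ix i) (0 : Fin (l + 3)) 2 1 (D - 1 - (α i : ℕ))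
    have h3 := (α i).2
    omega
  refine le_trans (Finset.sum_le_sum h) ?_
  rw [Finset.sum_const, Finset.card_univ, Fintype.card_fin, smul_eq_mul]
  apply le_of_eq
  ring

theorem SZB_sum {l D : ℕ} (e : (Fin l → Fin D) → ℤ) :
    (∑ α, C (e α) * SZx_mon α : MvPolynomial (Fin (l + 3)) ℤ).totalDegree ≤ 2 * l * D := by
  refine totalDegree_finsetSum_le ?_
  intro α _
  refine le_trans (totalDegree_mul _ _) ?_
  rw [totalDegree_C, zero_add]
  exact SZB_mon α

theorem SZB_lin {l D : ℕ} (e f : (Fin l → Fin D) → ℤ) :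
    (SZx_lin e f).totalDegree ≤ 2 * l * D + 1 := by
  unfold SZx_lin
  refine le_trans (totalDegree_sub _ _) (max_le ?_ ?_)
  · refine le_trans (totalDegree_mul _ _) ?_
    have h1 := SZB_X (2 : Fin (l + 3)) 1
    have h2 := SZB_sum e
    omega
  · refine le_trans (totalDegree_mul _ _) ?_
    have h1 := SZB_X (2 : Fin (l + 3)) 0
    have h2 := SZB_sum f
    omega

theorem t_SZB (h : S_PT) : S_SZB := by
  classical
  intro l D N _ hN k hk
  let T : Finset (((Fin l → Fin D) → ℤ) × ((Fin l → Fin D) → ℤ)) :=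
    ((Fintype.piFinset fun _ => Finset.Ioo (-(N : ℤ)) N) ×ˢ
      (Fintype.piFinset fun _ => Finset.Ioo (-(N : ℤ)) N)).filter
        (fun ef => ef.1 ≠ 0 ∨ ef.2 ≠ 0)
  have hT : T.card ≤ (2 * N) ^ (2 * D ^ l) := by
    refine le_trans (Finset.card_filter_le _ _) ?_
    rw [Finset.card_product, Fintype.card_piFinset, Finset.prod_const, Finset.card_univ,
      Fintype.card_fun, Fintype.card_fin, Fintype.card_fin, Int.card_Ioo, ← pow_add, two_mul (D ^ l)]
    exact Nat.pow_le_pow_left (by omega) _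
  have hsub : {J : Fin (l + 3) → Fin k | ¬ Indep D N (J 0 : ℕ) (J 1 : ℕ) (J 2 : ℕ)
      (fun i : Fin l => ((J ⟨i + 3, by omega⟩ : ℕ) : ℤ))} ⊆
      ⋃ ef ∈ T, {J : Fin (l + 2 + 1) → Fin k |
        eval (fun i => ((J i : ℕ) : ℤ)) (SZx_lin ef.1 ef.2) = 0} := by
    intro J hJ
    simp only [Set.mem_ofPred_eq, Indep] at hJ
    push Not at hJ
    obtain ⟨e, f, he, hf, hlin, hne⟩ := hJ
    refine Set.mem_iUnion₂.2 ⟨(e, f), ?_, ?_⟩
    · simp only [T, Finset.mem_filter, Finset.mem_product, Fintype.mem_piFinset, Finset.mem_Ioo]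
      refine ⟨⟨fun α => abs_lt.1 (he α), fun α => abs_lt.1 (hf α)⟩, ?_⟩
      by_cases h0 : e = 0
      · exact Or.inr (hne h0)
      · exact Or.inl h0
    · show eval (fun i => ((J i : ℕ) : ℤ)) (SZx_lin e f) = 0
      rw [SZx_eval]
      exact hlin
  calc
    {J : Fin (l + 3) → Fin k | ¬ Indep D N (J 0 : ℕ) (J 1 : ℕ) (J 2 : ℕ)
      (fun i : Fin l => ((J ⟨i + 3, by omega⟩ : ℕ) : ℤ))}.ncard
      ≤ (⋃ ef ∈ T, {J : Fin (l + 2 + 1) → Fin k |
        eval (fun i => ((J i : ℕ) : ℤ)) (SZx_lin ef.1 ef.2) = 0}).ncard :=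
        Set.ncard_le_ncard hsub (Set.toFinite _)
    _ ≤ ∑ ef ∈ T, {J : Fin (l + 2 + 1) → Fin k |
        eval (fun i => ((J i : ℕ) : ℤ)) (SZx_lin ef.1 ef.2) = 0}.ncard :=
        Finset.set_ncard_biUnion_le _ _
    _ ≤ ∑ _ef ∈ T, (2 * l * D + 1) * k ^ (l + 2) := by
        refine Finset.sum_le_sum fun ef hef => ?_
        have hne : ef.1 ≠ 0 ∨ ef.2 ≠ 0 := (Finset.mem_filter.1 hef).2
        refine le_trans (SZx_count _ (SZx_ne h _ _ hne) k hk) ?_
        exact Nat.mul_le_mul_right _ (SZB_lin _ _)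
    _ = T.card * ((2 * l * D + 1) * k ^ (l + 2)) := by
        rw [Finset.sum_const, smul_eq_mul]
    _ ≤ (2 * N) ^ (2 * D ^ l) * ((2 * l * D + 1) * k ^ (l + 2)) := Nat.mul_le_mul_right _ hT
    _ = (2 * N) ^ (2 * D ^ l) * (2 * l * D + 1) * k ^ (l + 2) :=
        (mul_assoc _ _ _).symm

end Pool.Agent.H85AK
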