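import Pool.Agent.Helper66x.AK.RealW

/-!
# Patterns: most `m`-element patterns of integers have exponent `1/2 + ε`

For almost all `m`-tuples `J` of integers in `{0, ..., k-1}` there are compact sets in `ℝ^n` of Assouad
dimension at most `n (1/2 + ε)` which contain `a + J_1 r, ..., a + J_m r` for every `r ∈ [0,1]^n`.
Pieces: LIFT, GEO, PT, SZ, EX.
-/

set_option autoImplicit false

namespace Pool.Agent.H85AK

open Finset

/-- `Δ` contains `a + J_i r`, `i < m`, for every `0 ≤ r < M` -/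
def PatZ {m : ℕ} (J : Fin m → ℕ) (M : ℕ) (Δ : Finset ℤ) : Prop :=
  ∀ r : ℤ, 0 ≤ r → r < M → ∃ a : ℤ, ∀ i, a + (J i : ℤ) * r ∈ Δ

/-- **LIFT** (port of `Helper66x/AK/Hash.lean` lift_prog and `Helper66x/AK/Tensor.lean` power_step,
tensor: replace everywhere the places `j < k` by the places `J i`, `i : Fin m`; choose `k` with
`J i < k` for all `i` in lift_prog, where `(b.val + j n) / p < k`).
Proof: by contradiction assume `M ^ s' < |Δ|` for all `M ≥ 2` and all `Δ` with `PatZ J M Δ`. By the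
port of `tensor`, `|R'| ^ s' ≤ |D'|` for all finite `R', D' ⊆ ℤ^ι`, `R'` nonempty, such that for all
`r ∈ R'` there is `a` with `a + J_i r ∈ D'` for all `i`. Apply it to `R' = R^t`, `D' = ⋃_i (D_i)^t` in
`ι = Fin t`: `|R|^(t s') ≤ m |R|^(t s)`, false for large `t` as `|R| ≥ 2`. -/
def S_LIFT : Prop := ∀ (m : ℕ) (J : Fin m → ℕ) (s s' : ℝ) (R : Finset ℤ) (D : Fin m → Finset ℤ),
  1 ≤ m → 0 ≤ s → s < s' → 2 ≤ R.card →
  (∀ r ∈ R, ∃ a : ℤ, ∀ i, a + (J i : ℤ) * r ∈ D i) →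
  (∀ i, ((D i).card : ℝ) ≤ (R.card : ℝ) ^ s) →
  ∃ M : ℕ, 2 ≤ M ∧ ∃ Δ : Finset ℤ, PatZ J M Δ ∧ (Δ.card : ℝ) ≤ (M : ℝ) ^ s'

/-- **GEO** (port of `Helper66x/AK/SelfSim.lean` K_prog and `Helper66x/AK/Prod.lean` cubeOf_prog; the
set is `cubeOf n (K M Δ)`; `cubeOf_compact`, `K_compact` and `assouad_K` do not mention `k`). -/
def S_GEO : Prop := ∀ (n m : ℕ) (J : Fin m → ℕ) (M : ℕ) (Δ : Finset ℤ) (τ s : ℝ),
  1 ≤ m → 2 ≤ M → PatZ J M Δ → 0 ≤ τ → n * τ ≤ s → (Δ.card : ℝ) ≤ (M : ℝ) ^ τ →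
  ∃ B : Set (EuclideanSpace ℝ (Fin n)), IsCompact B ∧
    (∀ r : EuclideanSpace ℝ (Fin n), (∀ i, r i ∈ Set.Icc (0 : ℝ) 1) →
      ∃ a : EuclideanSpace ℝ (Fin n), ∀ i, a + (J i : ℝ) • r ∈ B) ∧
    Helper66x.AK.AssouadLE s B

/-- the product `∏_i (a_i)^(α_i) (b_i)^(D-1-α_i)`, `a_i = (q - x_i)(u - p)`,
`b_i = (x_i - p)(u - q)` -/
def mon {l D : ℕ} (p q u : ℤ) (x : Fin l → ℤ) (α : Fin l → Fin D) : ℤ :=
  ∏ i, (((q - x i) * (u - p)) ^ (α i : ℕ) * ((x i - p) * (u - q)) ^ (D - 1 - (α i : ℕ)))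

/-- the linear form `(u - q) ∑ e_α mon_α - (u - p) ∑ f_α mon_α` -/
def lin {l D : ℕ} (p q u : ℤ) (x : Fin l → ℤ) (e f : (Fin l → Fin D) → ℤ) : ℤ :=
  (u - q) * ∑ α, e α * mon p q u x α - (u - p) * ∑ α, f α * mon p q u x α

/-- no nontrivial relation with coefficients of absolute value `< N` -/
def Indep {l : ℕ} (D N : ℕ) (p q u : ℤ) (x : Fin l → ℤ) : Prop :=
  ∀ e f : (Fin l → Fin D) → ℤ, (∀ α, |e α| < N) → (∀ α, |f α| < N) →
    lin p q u x e f = 0 → e = 0 ∧ f = 0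

/-- **PT** (elementary algebra). A nonzero pair `(e, f)` gives a nonzero value at some integer point.
Proof: take `p = 0`, `q = 1`. Let `(e α₀, f α₀) ≠ (0, 0)`. The number
`g α = (u - 1) e α - u f α` at `α₀` vanishes for at most one `u`, so choose `u ∈ {2, 3}` with
`g α₀ ≠ 0`. Now `lin = ∑_α g α ∏_i ((1 - x_i) u)^(α_i) (x_i (u - 1))^(D-1-α_i)`
`= ∑_α c_α ∏_i (1 - x_i)^(α_i) x_i^(D-1-α_i)` with
`c_α = g α ∏_i u^(α_i) (u - 1)^(D-1-α_i)`, `c_α₀ ≠ 0`. If this vanishes for all integers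
`x_i`, then, for `x_i ≠ 0`, dividing by `∏ x_i^(D-1)` the polynomial `G(t) = ∑ c_α ∏ t_i^(α_i)` over
`ℚ` vanishes at all points with `t_i ∈ {(1 - x) / x : x = 1, 2, 3, ...}`, an infinite set, so
`G = 0` (`MvPolynomial.funext_set` or induction on `l`), contradicting `c_α₀ ≠ 0`. -/
def S_PT : Prop := ∀ (l D : ℕ) (e f : (Fin l → Fin D) → ℤ), (e ≠ 0 ∨ f ≠ 0) →
  ∃ (p q u : ℤ) (x : Fin l → ℤ), lin p q u x e f ≠ 0

/-- **SZ** (from PT, with `MvPolynomial.schwartz_zippel_totalDegree` in Mathlib). The number of the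
`(p, q, u, x) ∈ {0, ..., k-1}^(l+3)` which are not independent is at most `C k^(l+2)`.
Proof: for each of the finitely many nonzero `(e, f)` with entries in `(-N, N)` the expression
`lin` is the value of a polynomial in `l + 3` variables (write it with `MvPolynomial.X`), which is not
zero by PT, of total degree at most some `d`; so at most `d k^(l+2)` zeros in the box. Sum over
`(e, f)`. Here a point is a function `J : Fin (l + 3) → ℕ` with values `< k`, `p = J 0`, `q = J 1`,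
`u = J 2`, `x i = J (i + 3)`. -/
def S_SZ : Prop := ∀ (l D N : ℕ), ∃ C : ℕ, ∀ k : ℕ, 1 ≤ k →
  {J : Fin (l + 3) → Fin k | ¬ Indep D N (J 0 : ℕ) (J 1 : ℕ) (J 2 : ℕ)
    (fun i : Fin l => ((J ⟨i + 3, by omega⟩ : ℕ) : ℤ))}.ncard ≤ C * k ^ (l + 2)

/-- **EX** (helper85). The configuration: `x', y'` run over `∑ c_α mon_α`, `0 ≤ c_α < N`,
`R = (u - q) y' - (u - p) x'`, `A = (q - p)(u - p) x' - p R`; then
`A + j R = (u - p)(q - j) x' + (j - p)(u - q) y'`. -/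
def S_EX : Prop := ∀ (l D N : ℕ) (J : Fin (l + 3) → ℕ), 1 ≤ D → 2 ≤ N →
  Indep D N (J 0 : ℕ) (J 1 : ℕ) (J 2 : ℕ) (fun i : Fin l => ((J ⟨i + 3, by omega⟩ : ℕ) : ℤ)) →
  ∃ (R : Finset ℤ) (E : Fin (l + 3) → Finset ℤ) (b : ℕ), R.card = N ^ (2 * D ^ l) ∧
    (∀ r ∈ R, ∃ a : ℤ, ∀ i, a + (J i : ℤ) * r ∈ E i) ∧
    (∀ i, (E i).card ≤ (2 * N) ^ b) ∧ D * b ≤ (D + 1) * D ^ l

end Pool.Agent.H85AK
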